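import Pool.Agent.OmSt2.RM

/-!
# From hyperbolic sets to uniform dichotomies
-/

open Set Filter Topology Manifold ContDiff Metric Bundle

set_option linter.unusedSectionVars false

namespace OmSt

variable {E : Type*} [NormedAddCommGroup E] [NormedSpace ℝ E]
  {M : Type*} [TopologicalSpace M] [ChartedSpace E M] [IsManifold 𝓘(ℝ, E) ∞ M] {r : ℕ∞}

theorem Dc_Dc' {b x : M} (hx : x ∈ (chartAt E b).source) (v : E) :
    (Dc b x : E →L[ℝ] E) ((Dc' b x : E →L[ℝ] E) v) = v :=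
  congrArg (fun L : E →L[ℝ] E => L v) (Dc_mul hx).1

theorem Dc'_Dc {b x : M} (hx : x ∈ (chartAt E b).source) (v : E) :
    (Dc' b x : E →L[ℝ] E) ((Dc b x : E →L[ℝ] E) v) = v :=
  congrArg (fun L : E →L[ℝ] E => L v) (Dc_mul hx).2

/-- Comparison of the Riemannian norm and the norm in the chart. -/
theorem exists_comparison [FiniteDimensional ℝ E] (γ : RMetric E M) (b : M) :
    ∃ C > 0, ∀ᶠ y in 𝓝 b, ∀ v : E, ‖(Dc b y : E →L[ℝ] E) v‖ ≤ C * rnorm γ y v ∧
      rnorm γ y v ≤ C * ‖(Dc b y : E →L[ℝ] E) v‖ := by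
  let γ' : M → E →L[ℝ] E →L[ℝ] ℝ := fun y =>
    ContinuousLinearMap.inCoordinates E (fun x : M => TangentSpace 𝓘(ℝ, E) x) (E →L[ℝ] ℝ)
      (fun x : M => TangentSpace 𝓘(ℝ, E) x →L[ℝ] ℝ) b y b y (γ.inner y)
  have hcont : ContinuousAt γ' b := by
    have h1 := γ.contMDiff.continuous.continuousAt (x := b)
    exact ((continuousAt_hom_bundle (RingHom.id ℝ) _).1 h1).2
  have hval : ∀ y ∈ (chartAt E b).source, ∀ v : E,
      γ.inner y v v = γ' y ((Dc b y : E →L[ℝ] E) v) ((Dc b y : E →L[ℝ] E) v) := by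
    intro y hy v
    have h1 := inC₂ hy (γ.inner y) ((Dc b y : E →L[ℝ] E) v) ((Dc b y : E →L[ℝ] E) v)
    rw [Dc'_Dc hy v] at h1
    exact h1.symm
  have hbs : b ∈ (chartAt E b).source := mem_chart_source E b
  have hpos : ∀ v : E, v ≠ 0 → 0 < γ' b v v := by
    intro v hv
    have h1 := hval b hbs ((Dc' b b : E →L[ℝ] E) v)
    rw [Dc_Dc' hbs] at h1
    rw [← h1]
    refine γ.pos b _ fun h => hv ?_
    rw [← Dc_Dc' hbs v]
    have h : (Dc' b b : E →L[ℝ] E) v = 0 := h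
    rw [h, map_zero]
  obtain ⟨c, hc, hco⟩ := exists_coercive (γ' b) hpos
  have h1 : ∀ᶠ y in 𝓝 b, dist (γ' y) (γ' b) < c / 2 :=
    Metric.continuousAt_iff'.1 hcont _ (half_pos hc)
  refine ⟨√(2 / c) + √(‖γ' b‖ + c / 2) + 1, by positivity, ?_⟩
  filter_upwards [h1, (chartAt E b).open_source.mem_nhds hbs] with y hy hys v
  have hy : ‖γ' y - γ' b‖ < c / 2 := (dist_eq_norm (γ' y) (γ' b)).symm.trans_lt hy
  set w := (Dc b y : E →L[ℝ] E) v with hw
  have hg : rnorm γ y v = √(γ' y w w) := by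
    unfold rnorm
    rw [hval y hys v]
  have h2 : |(γ' y - γ' b) w w| ≤ c / 2 * ‖w‖ ^ 2 := by
    calc |(γ' y - γ' b) w w| ≤ ‖γ' y - γ' b‖ * ‖w‖ * ‖w‖ := (γ' y - γ' b).le_opNorm₂ w w
      _ ≤ c / 2 * ‖w‖ * ‖w‖ := by gcongr
      _ = _ := by ring
  have h3 : (γ' y - γ' b) w w = γ' y w w - γ' b w w := rfl
  rw [h3, abs_le] at h2
  have h4 : c / 2 * ‖w‖ ^ 2 ≤ γ' y w w := by
    have := hco w
    linarith [h2.1]
  have h5 : γ' y w w ≤ (‖γ' b‖ + c / 2) * ‖w‖ ^ 2 := by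
    have h6 : γ' b w w ≤ ‖γ' b‖ * ‖w‖ * ‖w‖ :=
      (Real.le_norm_self _).trans ((γ' b).le_opNorm₂ w w)
    nlinarith [h2.2]
  have hw0 : 0 ≤ ‖w‖ := norm_nonneg w
  have hs0 : 0 ≤ √(γ' y w w) := Real.sqrt_nonneg _
  rw [hg]
  constructor
  · have h6 : ‖w‖ ≤ √(2 / c) * √(γ' y w w) := by
      rw [← Real.sqrt_mul (by positivity)]
      refine Real.le_sqrt_of_sq_le ?_
      rw [div_mul_eq_mul_div, le_div_iff₀ hc]
      linarith
    refine h6.trans ?_
    gcongr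
    linarith [Real.sqrt_nonneg (‖γ' b‖ + c / 2)]
  · have h6 : √(γ' y w w) ≤ √(‖γ' b‖ + c / 2) * ‖w‖ := by
      have h7 : √((‖γ' b‖ + c / 2) * ‖w‖ ^ 2) = √(‖γ' b‖ + c / 2) * ‖w‖ := by
        rw [Real.sqrt_mul (by positivity), Real.sqrt_sq hw0]
      rw [← h7]
      exact Real.sqrt_le_sqrt h5
    refine h6.trans ?_
    gcongr
    linarith [Real.sqrt_nonneg (2 / c)]

/-- A continuous field of endomorphisms is locally bounded, in charts. -/
theorem contField_bdd {P : M → E →L[ℝ] E} {Λ : Set M}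
    (hP : ContinuousField (E := E) (M := M) P Λ)
    (hΛ : IsClosed Λ) (b : M) : ∃ C > 0, ∀ᶠ y in 𝓝 b, y ∈ Λ →
      ‖(Dc b y : E →L[ℝ] E) * P y * (Dc' b y : E →L[ℝ] E)‖ ≤ C := by
  by_cases hb : b ∈ Λ
  · have h1 := ((continuousWithinAt_hom_bundle (RingHom.id ℝ) _).1 (hP b hb)).2
    let P' : M → E →L[ℝ] E := fun y =>
      ContinuousLinearMap.inCoordinates E (fun x : M => TangentSpace 𝓘(ℝ, E) x) E
      (fun x : M => TangentSpace 𝓘(ℝ, E) x) b y b y (P y)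
    have h2 : ContinuousWithinAt P' Λ b := h1
    have h3 : ∀ᶠ y in 𝓝[Λ] b, dist (P' y) (P' b) < 1 :=
      Metric.continuousWithinAt_iff'.1 h2 1 one_pos
    rw [eventually_nhdsWithin_iff] at h3
    refine ⟨‖P' b‖ + 1, by positivity, ?_⟩
    filter_upwards [h3, (chartAt E b).open_source.mem_nhds (mem_chart_source E b)] with y hy hys hyΛ
    have h4 : (Dc b y : E →L[ℝ] E) * P y * (Dc' b y : E →L[ℝ] E) = P' y := by
      rw [← cla_eq hys, ← sym_eq hys]
      rfl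
    rw [h4]
    have h5 := hy hyΛ
    have h5 : ‖P' y - P' b‖ < 1 := by
      rw [← dist_eq_norm]
      exact h5
    have h6 : ‖P' y‖ ≤ ‖P' y - P' b‖ + ‖P' b‖ := by
      have := norm_add_le (P' y - P' b) (P' b)
      rwa [sub_add_cancel] at this
    linarith
  · refine ⟨1, one_pos, ?_⟩
    filter_upwards [hΛ.isOpen_compl.mem_nhds hb] with y hy hyΛ
    exact absurd hyΛ hy

/-- The data of a hyperbolic set, for a given Riemannian metric. -/
structure HypF (γ : RMetric E M) (f : Dyn E M r) (Λ : Set M) (P : M → E →L[ℝ] E) (c μ : ℝ) :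
    Prop where
  hc : 0 < c
  hμ0 : 0 < μ
  hμ1 : μ < 1
  idem : ∀ x ∈ Λ, P x * P x = P x
  comm : ∀ x ∈ Λ, P (f x) * (D f x : E →L[ℝ] E) = (D f x : E →L[ℝ] E) * P x
  bdd : ∀ b : M, ∃ C > 0, ∀ᶠ y in 𝓝 b, y ∈ Λ →
    ‖(Dc b y : E →L[ℝ] E) * P y * (Dc' b y : E →L[ℝ] E)‖ ≤ C
  fwd : ∀ x ∈ Λ, ∀ (m : ℕ) (v : E), P x v = v →
    rnorm γ (f^[m] x) ((D f^[m] x : E →L[ℝ] E) v) ≤ c * μ ^ m * rnorm γ x v
  bwd : ∀ x ∈ Λ, ∀ (m : ℕ) (v : E), P x v = 0 →
    rnorm γ (f.symm^[m] x) ((D f.symm^[m] x : E →L[ℝ] E) v) ≤ c * μ ^ m * rnorm γ x v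

theorem IsHyperbolicSet.hypF {f : Dyn E M r} {Λ : Set M} (h : IsHyperbolicSet f Λ)
    (hΛ : IsClosed Λ) (γ : RMetric E M) : ∃ P c μ, HypF γ f Λ P c μ := by
  obtain ⟨P, h1, h2, h3, h4, h5⟩ := h
  obtain ⟨c, hc, μ, hμ0, hμ1, h6⟩ := h5 γ
  refine ⟨P, c, μ, hc, hμ0, hμ1, fun x hx => ?_, fun x hx => ?_, contField_bdd h2 hΛ,
    fun x hx m v hv => (h6 x hx).1 m v hv, fun x hx m v hv => (h6 x hx).2 m v hv⟩
  · exact ContinuousLinearMap.ext fun v => h1 x hx v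
  · refine ContinuousLinearMap.ext fun v => ?_
    let A : E →L[ℝ] E := D f x
    let Q : E →L[ℝ] E := P x
    let Q' : E →L[ℝ] E := P (f x)
    change Q' (A v) = A (Q v)
    have a1 : A (Q v) ∈ (stableSp P (f x) : Set E) := by
      have : (A (Q v) : E) ∈ A '' {v : E | Q v = v} := ⟨Q v, h1 x hx v, rfl⟩
      exact (h3 x hx) ▸ this
    have a2 : A (v - Q v) ∈ (unstableSp P (f x) : Set E) := by
      have : (A (v - Q v) : E) ∈ A '' {v : E | Q v = 0} := by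
        refine ⟨v - Q v, ?_, rfl⟩
        have h7 : Q (Q v) = Q v := h1 x hx v
        change Q (v - Q v) = 0
        rw [map_sub, h7, sub_self]
      exact (h4 x hx) ▸ this
    have a1' : Q' (A (Q v)) = A (Q v) := a1
    have a2' : Q' (A (v - Q v)) = 0 := a2
    rw [map_sub, map_sub, sub_eq_zero, a1'] at a2'
    exact a2'

theorem D_symm_mul (f : Dyn E M r) (hr : 1 ≤ r) (x : M) :
    (D f.symm (f x) : E →L[ℝ] E) * D f x = 1 ∧ (D f x : E →L[ℝ] E) * D f.symm (f x) = 1 := by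
  have := Dyn.D_inv f hr 1 (x := x)
  simpa using this

theorem HypF.symm {γ : RMetric E M} {f : Dyn E M r} {Λ : Set M} {P : M → E →L[ℝ] E} {c μ : ℝ}
    (h : HypF γ f Λ P c μ) (hr : 1 ≤ r) (hΛ : ∀ x ∈ Λ, f.symm x ∈ Λ) :
    HypF γ f.symm Λ (fun x => 1 - P x) c μ := by
  refine ⟨h.hc, h.hμ0, h.hμ1, fun x hx => ?_, fun x hx => ?_, fun b => ?_, fun x hx m v hv => ?_,
    fun x hx m v hv => ?_⟩
  · rw [sub_mul, mul_sub, mul_sub, h.idem x hx, one_mul, mul_one, one_mul, sub_self, sub_zero]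
  · have h1 := h.comm (f.symm x) (hΛ x hx)
    have h2 := D_symm_mul f hr (f.symm x)
    rw [f.apply_symm_apply] at h1 h2
    have h3 : P (f.symm x) * (D f.symm x : E →L[ℝ] E) = (D f.symm x : E →L[ℝ] E) * P x := by
      calc P (f.symm x) * (D f.symm x : E →L[ℝ] E)
          = ((D f.symm x : E →L[ℝ] E) * D f (f.symm x)) * P (f.symm x) * D f.symm x := by
            rw [h2.1, one_mul]
        _ = (D f.symm x : E →L[ℝ] E) * (D f (f.symm x) * P (f.symm x)) * D f.symm x := by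
            simp only [mul_assoc]
        _ = (D f.symm x : E →L[ℝ] E) * P x * (D f (f.symm x) * D f.symm x) := by
            rw [← h1]
            simp only [mul_assoc]
        _ = _ := by rw [h2.2, mul_one]
    rw [sub_mul, mul_sub, h3, one_mul, mul_one]
  · obtain ⟨C, hC, h1⟩ := h.bdd b
    refine ⟨1 + C, by positivity, ?_⟩
    filter_upwards [h1, (chartAt E b).open_source.mem_nhds (mem_chart_source E b)] with y hy hys hyΛ
    rw [mul_sub, sub_mul, mul_one, (Dc_mul hys).1]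
    refine (norm_sub_le _ _).trans (add_le_add ?_ (hy hyΛ))
    exact ContinuousLinearMap.norm_id_le
  · refine h.bwd x hx m v ?_
    have hv : v - P x v = v := hv
    rwa [sub_eq_self] at hv
  · refine h.fwd x hx m v ?_
    have hv : v - P x v = 0 := hv
    exact (sub_eq_zero.1 hv).symm

end OmSt

namespace OmSt

variable {E : Type*} [NormedAddCommGroup E] [NormedSpace ℝ E] [FiniteDimensional ℝ E]
  {M : Type*} [MetricSpace M] [CompactSpace M] [ChartedSpace E M] [IsManifold 𝓘(ℝ, E) ∞ M]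
  {r : ℕ∞}

theorem HypF.exists_dhyp {γ : RMetric E M} {f : Dyn E M r} {Λ : Set M} {P : M → E →L[ℝ] E}
    {c μ : ℝ} (h : HypF γ f Λ P c μ) (hr : 1 ≤ r) (hΛ : Inv f Λ) :
    ∃ s K ρ₀ κ, Cov E s K ρ₀ ∧ DHyp (E := E) s K f Λ κ := by
  have : CompleteSpace E := FiniteDimensional.complete ℝ E
  have hloc : ∀ b : M, ∃ C > 0, ∀ᶠ y in 𝓝 b, (∀ v : E,
      ‖(Dc b y : E →L[ℝ] E) v‖ ≤ C * rnorm γ y v ∧ rnorm γ y v ≤ C * ‖(Dc b y : E →L[ℝ] E) v‖) ∧
      (y ∈ Λ → ‖(Dc b y : E →L[ℝ] E) * P y * (Dc' b y : E →L[ℝ] E)‖ ≤ C) := by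
    intro b
    obtain ⟨C, hC, h1⟩ := exists_comparison γ b
    obtain ⟨C', hC', h2⟩ := h.bdd b
    refine ⟨C + C', by positivity, ?_⟩
    filter_upwards [h1, h2] with y hy1 hy2
    have hn : ∀ v : E, 0 ≤ rnorm γ y v := fun v => Real.sqrt_nonneg _
    refine ⟨fun v => ⟨(hy1 v).1.trans ?_, (hy1 v).2.trans ?_⟩, fun hy => (hy2 hy).trans (by linarith)⟩
    · have := hn v
      gcongr
      linarith
    · gcongr
      linarith
  choose C hC hCloc using hloc
  obtain ⟨s, K, ρ₀, hc, hK⟩ := exists_cov E hCloc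
  set C₀ : ℝ := ∑ b ∈ s, C b with hC₀
  have hle : ∀ b ∈ s, C b ≤ C₀ := fun b hb =>
    Finset.single_le_sum (f := C) (fun b _ => (hC b).le) hb
  have hC₀0 : 0 ≤ C₀ := Finset.sum_nonneg fun b _ => (hC b).le
  have hcmp : ∀ b ∈ s, ∀ y ∈ K b, ∀ v : E,
      ‖(Dc b y : E →L[ℝ] E) v‖ ≤ C₀ * rnorm γ y v ∧
      rnorm γ y v ≤ C₀ * ‖(Dc b y : E →L[ℝ] E) v‖ := by
    intro b hb y hy v
    have h1 := (hK b hb hy).1 v
    have hn : 0 ≤ rnorm γ y v := Real.sqrt_nonneg _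
    have := hle b hb
    exact ⟨h1.1.trans (by gcongr), h1.2.trans (by gcongr)⟩
  have hPb : ∀ b ∈ s, ∀ y ∈ K b, y ∈ Λ →
      ‖(Dc b y : E →L[ℝ] E) * P y * (Dc' b y : E →L[ℝ] E)‖ ≤ C₀ := fun b hb y hy hyΛ =>
    ((hK b hb hy).2 hyΛ).trans (hle b hb)
  set c' : ℝ := C₀ * (c * (C₀ * (C₀ + 1))) with hc'
  have hc0 := h.hc
  have hμ0 := h.hμ0
  refine ⟨s, K, ρ₀, 2 * c' * ∑' k : ℕ, μ ^ k, hc, ?_, fun x hx i hi => ?_⟩
  · have : 0 ≤ ∑' k : ℕ, μ ^ k := tsum_nonneg fun k => by positivity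
    positivity
  set X : ℤ → M := fun n => zi f.toEquiv n x with hX
  have hXΛ : ∀ n, X n ∈ Λ := hΛ x hx
  have hXs : ∀ n, X n ∈ (chartAt E (i n)).source := fun n => hc.src _ (hi n).1 (hi n).2
  have hX1 : ∀ n, f (X n) = X (n + 1) := fun n => (zi_succ_apply f n x).symm
  have hXk : ∀ n (k : ℕ), f^[k] (X n) = X (n + k) := by
    intro n k
    induction k with
    | zero => simp
    | succ k ih =>
      rw [Function.iterate_succ_apply', ih, hX1]
      congr 1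
      push_cast
      ring
  have hX1' : ∀ n, f.symm (X (n + 1)) = X n := fun n => by rw [← hX1, f.symm_apply_apply]
  have hXk' : ∀ n (k : ℕ), f.symm^[k] (X (n + k)) = X n := fun n k => by
    rw [← hXk]
    exact (Function.LeftInverse.iterate f.symm_apply_apply k) (X n)
  set T : ℤ → E →L[ℝ] E := fun n => D f (X n) with hT
  set T' : ℤ → E →L[ℝ] E := fun n => D f.symm (X (n + 1)) with hT'
  set G : ℤ → E →L[ℝ] E := fun n => Dc (i n) (X n) with hG
  set G' : ℤ → E →L[ℝ] E := fun n => Dc' (i n) (X n) with hG'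
  have hprd : ∀ n k, prd T n k = (D f^[k] (X n) : E →L[ℝ] E) := by
    intro n k
    induction k with
    | zero => exact (D_id (X n)).symm
    | succ k ih =>
      rw [prd_succ, ih, D_iterate_succ (Dyn.mdiff f hr), hXk]
  have hprdB : ∀ n k, prdB T' n k = (D f.symm^[k] (X (n + k)) : E →L[ℝ] E) := by
    intro n k
    induction k with
    | zero => exact (D_id _).symm
    | succ k ih =>
      rw [prdB_succ, ih, D_iterate_add (Dyn.mdiff_symm f hr) k 1]
      have e1 : n + ((k + 1 : ℕ) : ℤ) = n + k + 1 := by push_cast; ring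
      rw [e1, Function.iterate_one, hX1']
  have hdich := dich_of_split (T := T) (T' := T') (P := fun n => P (X n)) (G := G) (G' := G')
    (c := c') (μ := μ) (by positivity) hμ0.le h.hμ1 (fun n => ?_) (fun n => ?_) (fun n => ?_)
    (fun n => (Dc_mul (hXs n)).1) (fun n => (Dc_mul (hXs n)).2) (fun n k => ?_) (fun n k => ?_)
  · convert hdich using 2 with n
    rw [fderiv_chG (Dyn.mdiff f hr _) (hXs n) (by rw [hX1]; exact hXs (n + 1)), hX1]
  · have := (D_symm_mul f hr (X n)).2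
    rwa [hX1] at this
  · have := (D_symm_mul f hr (X n)).1
    rwa [hX1] at this
  · have := h.comm (X n) (hXΛ n)
    rwa [hX1] at this
  · refine ContinuousLinearMap.opNorm_le_bound _ (by positivity) fun v => ?_
    set w : E := P (X n) (G' n v) with hw
    have hPw : P (X n) w = w :=
      congrArg (fun L : E →L[ℝ] E => L (G' n v)) (h.idem (X n) (hXΛ n))
    have e1 : (G (n + k) * prd T n k * P (X n) * G' n) v =
        (Dc (i (n + k)) (X (n + k)) : E →L[ℝ] E) ((D f^[k] (X n) : E →L[ℝ] E) w) := by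
      rw [hprd]
      rfl
    have h1 := (hcmp _ (hi (n + k)).1 _ (hi (n + k)).2 ((D f^[k] (X n) : E →L[ℝ] E) w)).1
    have h2 := h.fwd (X n) (hXΛ n) k w hPw
    rw [hXk] at h2
    have h3 := (hcmp _ (hi n).1 _ (hi n).2 w).2
    have h4 : ‖(Dc (i n) (X n) : E →L[ℝ] E) w‖ ≤ (C₀ + 1) * ‖v‖ := by
      have e2 : (Dc (i n) (X n) : E →L[ℝ] E) w = ((Dc (i n) (X n) : E →L[ℝ] E) * P (X n) *
        (Dc' (i n) (X n) : E →L[ℝ] E)) v := rfl
      rw [e2]
      refine (ContinuousLinearMap.le_opNorm _ _).trans ?_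
      have := hPb _ (hi n).1 _ (hi n).2 (hXΛ n)
      gcongr
      linarith
    rw [e1]
    calc _ ≤ _ := h1
      _ ≤ C₀ * (c * μ ^ k * (C₀ * ((C₀ + 1) * ‖v‖))) := by
        gcongr
        refine h2.trans ?_
        gcongr
        exact h3.trans (by gcongr)
      _ = c' * μ ^ k * ‖v‖ := by rw [hc']; ring
  · refine ContinuousLinearMap.opNorm_le_bound _ (by positivity) fun v => ?_
    set w : E := (1 - P (X (n + k))) (G' (n + k) v) with hw
    have hPw : P (X (n + k)) w = 0 := by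
      have h5 : P (X (n + k)) * (1 - P (X (n + k))) = 0 := by
        rw [mul_sub, mul_one, h.idem _ (hXΛ _), sub_self]
      exact congrArg (fun L : E →L[ℝ] E => L (G' (n + k) v)) h5
    have e1 : (G n * prdB T' n k * (1 - P (X (n + k))) * G' (n + k)) v =
        (Dc (i n) (X n) : E →L[ℝ] E) ((D f.symm^[k] (X (n + k)) : E →L[ℝ] E) w) := by
      rw [hprdB]
      rfl
    have h1 := (hcmp _ (hi n).1 _ (hi n).2 ((D f.symm^[k] (X (n + k)) : E →L[ℝ] E) w)).1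
    have h2 := h.bwd (X (n + k)) (hXΛ (n + k)) k w hPw
    rw [hXk'] at h2
    have h3 := (hcmp _ (hi (n + k)).1 _ (hi (n + k)).2 w).2
    have h4 : ‖(Dc (i (n + k)) (X (n + k)) : E →L[ℝ] E) w‖ ≤ (C₀ + 1) * ‖v‖ := by
      have e2 : (Dc (i (n + k)) (X (n + k)) : E →L[ℝ] E) w =
          (1 - (Dc (i (n + k)) (X (n + k)) : E →L[ℝ] E) * P (X (n + k)) *
            (Dc' (i (n + k)) (X (n + k)) : E →L[ℝ] E)) v := by
        have e3 : (Dc (i (n + k)) (X (n + k)) : E →L[ℝ] E) * (1 - P (X (n + k))) *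
            (Dc' (i (n + k)) (X (n + k)) : E →L[ℝ] E) =
            1 - (Dc (i (n + k)) (X (n + k)) : E →L[ℝ] E) * P (X (n + k)) *
            (Dc' (i (n + k)) (X (n + k)) : E →L[ℝ] E) := by
          rw [mul_sub, sub_mul, mul_one, (Dc_mul (hXs (n + k))).1]
        rw [← e3]
        rfl
      rw [e2]
      refine (ContinuousLinearMap.le_opNorm _ _).trans ?_
      have h5 := hPb _ (hi (n + k)).1 _ (hi (n + k)).2 (hXΛ (n + k))
      have h6 : ‖(1 : E →L[ℝ] E)‖ ≤ 1 := ContinuousLinearMap.norm_id_le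
      gcongr
      exact (norm_sub_le _ _).trans (by linarith)
    rw [e1]
    calc _ ≤ _ := h1
      _ ≤ C₀ * (c * μ ^ k * (C₀ * ((C₀ + 1) * ‖v‖))) := by
        gcongr
        refine h2.trans ?_
        gcongr
        exact h3.trans (by gcongr)
      _ = c' * μ ^ k * ‖v‖ := by rw [hc']; ring

end OmSt
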