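import Pool.Agent.OmSt2.Left
import Pool.Agent.OmSt.Merge2

/-!
# Replacing a connection between hyperbolic sets by a connection between periodic orbits
-/

open Set Filter Topology Manifold ContDiff Metric Bundle

set_option linter.unusedSectionVars false

namespace OmSt

theorem omegaL_congr {X : Type*} [MetricSpace X] [CompactSpace X] {f g : X → X} {x y : X} {N₀ : ℕ}
    (h : ∀ n ≥ N₀, f^[n] x = g^[n] y) : omegaL f x ⊆ omegaL g y := by
  intro z hz
  rw [mem_omegaL_iff] at hz ⊢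
  intro ε hε N
  obtain ⟨n, hn, hn'⟩ := hz ε hε (max N N₀)
  rw [h n ((le_max_right _ _).trans hn)] at hn'
  exact ⟨n, (le_max_left _ _).trans hn, hn'⟩

theorem not_periodic_of_omegaL {X : Type*} [MetricSpace X] [CompactSpace X] {f : X ≃ₜ X}
    {L : Set X} {c : X} (h : omegaL f c ⊆ L) (hc : c ∉ L) {k : ℤ} (hk : zi f.toEquiv k c = c) :
    k = 0 := by
  by_contra hk0
  obtain ⟨n, hn, hnc⟩ : ∃ n : ℕ, 0 < n ∧ f^[n] c = c := by
    obtain ⟨n, rfl | rfl⟩ := k.eq_nat_or_neg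
    · refine ⟨n, by omega, ?_⟩
      rw [zi_nat] at hk
      exact hk
    · refine ⟨n, by omega, ?_⟩
      have h3 : zi f.toEquiv n c = c := by
        have := zi_mul_of_fix hk (-1)
        simpa using this
      rw [zi_nat] at h3
      exact h3
  exact hc (h (mem_omegaL_self (recurrent_of_periodic hn hnc)))

variable {E : Type*} [NormedAddCommGroup E] [NormedSpace ℝ E] [FiniteDimensional ℝ E]
  {M : Type*} [MetricSpace M] [CompactSpace M] [ChartedSpace E M] [IsManifold 𝓘(ℝ, E) ∞ M]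
  {r : ℕ∞}

theorem Stab.connect {N : Set (Dyn E M r)} (hN : Stab N) (hr : 1 ≤ r) {s : Finset M}
    {K : M → Set M} {ρ₀ : ℝ} (hc : Cov E s K ρ₀) {g : Dyn E M r} (hg : g ∈ N) {L P Q : Set M}
    (hL : IsClosed L) (hPL : P ⊆ L) (hQL : Q ⊆ L) (hP : Inv g P) (hQ : Inv g Q) {κ κ' : ℝ}
    (hDP : DHyp s K g P κ) (hDQ : DHyp s K g.symm Q κ') (hctP : CT g.toHomeomorph P)
    (hctQ : CT g.toHomeomorph Q) {q q' : M} (hq : q ∈ P) (hq' : q' ∈ Q) {S S' : Set M}
    (hS : IsClosed S) (hqS : ∀ k : ℤ, zi g.toEquiv k q ∈ S) (hSP : S ⊆ P)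
    (hS' : IsClosed S') (hqS' : ∀ k : ℤ, zi g.toEquiv k q' ∈ S') (hSQ : S' ⊆ Q) {c : M}
    (hcL : c ∉ L) (hcP : omegaL g.symm c ⊆ P) (hcQ : omegaL g c ⊆ Q) {U₀ : Set M}
    (hU₀ : U₀ ∈ 𝓝 c) : ∃ g' ∈ N, ∃ W : Set M, IsClosed W ∧ W ⊆ U₀ ∧ (∀ y ∈ W, y ∉ L) ∧
      (∀ y ∉ W, g' y = g y) ∧ ∃ a ∈ W, omegaL g'.symm a ⊆ S ∧ omegaL g' a ⊆ S' := by
  classical
  obtain ⟨U₁, hU₁, hU₁c⟩ := exists_away' (f := g.toHomeomorph) hL (hcQ.trans hQL)
    (hcP.trans hPL) hcL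
  have hU₁0 : ∀ k : ℤ, zi g.toEquiv k c ∈ U₁ → k = 0 := fun k hk =>
    not_periodic_of_omegaL (f := g.toHomeomorph) (hcQ.trans hQL) hcL (hU₁c k hk)
  set U : Set M := interior (U₀ ∩ U₁ ∩ Lᶜ) with hU
  have hcU : c ∈ U := mem_interior_iff_mem_nhds.2
    (inter_mem (inter_mem hU₀ hU₁) (hL.isOpen_compl.mem_nhds hcL))
  have hUs : ∀ y ∈ U, y ∈ U₀ ∧ y ∈ U₁ ∧ y ∉ L := fun y hy => by
    have := interior_subset hy
    exact ⟨this.1.1, this.1.2, this.2⟩
  obtain ⟨W, hW, hWc, hWU, γ, hγ, hgap⟩ := exists_gap isOpen_interior hcU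
  set e := chartAt E c with he
  have hmax : e ∈ IsManifold.maximalAtlas 𝓘(ℝ, E) ∞ M := IsManifold.chart_mem_maximalAtlas c
  have hce : c ∈ e.source := mem_chart_source E c
  obtain ⟨Ψ, ρ₁, hρ₁, hρ₁t, hρ₁W, hΨW, hΨ⟩ := exists_localFam hmax (e.map_source hce) (W := W)
    (by rwa [e.left_inv hce])
  have hev := (Ψ.eventually_mem g hN.isOpen hg).and hΨ
  obtain ⟨ε₂, hε₂, hball⟩ := Metric.nhds_basis_ball.mem_iff.1 hev
  have hreg : W ∩ (e.source ∩ e ⁻¹' closedBall (e c) (min ρ₁ (ε₂ / 3))) ∈ 𝓝 c :=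
    inter_mem hW (inter_mem (e.open_source.mem_nhds hce)
      ((e.continuousAt hce) (closedBall_mem_nhds _ (by positivity))))
  obtain ⟨η, hη, hηreg⟩ := Metric.nhds_basis_closedBall.mem_iff.1 hreg
  obtain ⟨a, hac, hak, haS⟩ := hc.exists_left hr hP hDP hctP hq hS hqS hSP hcP (half_pos hγ) hη
  obtain ⟨b, hbc, hbk', hbS⟩ := hc.exists_left (g := g.symm) hr hQ.symm hDQ
    (CT.symm (f := g.toHomeomorph) hctQ) hq' hS' (fun k => by
      rw [zi_symm]
      exact hqS' _) hSQ (c := c) hcQ (half_pos hγ) hη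
  have hbS : omegaL g b ⊆ S' := hbS
  have hbk : ∀ k : ℤ, 0 < k → (∃ z ∈ Q, dist (zi g.toEquiv k b) z ≤ γ / 2) ∨
      ∃ j : ℤ, 0 < j ∧ dist (zi g.toEquiv k b) (zi g.toEquiv j c) ≤ γ / 2 := by
    intro k hk
    have h1 := hbk' (-k) (by omega)
    rw [zi_symm, neg_neg] at h1
    rcases h1 with h1 | ⟨j, hj, h1⟩
    · exact Or.inl h1
    · rw [zi_symm] at h1
      exact Or.inr ⟨-j, by omega, h1⟩
  have hak' : ∀ k : ℤ, k < 0 → zi g.toEquiv k a ∉ W := by
    intro k hk hkW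
    rcases hak k hk with ⟨z, hz, hz'⟩ | ⟨j, hj, hj'⟩
    · refine (hUs z (hgap z _ ?_ hkW)).2.2 (hPL hz)
      rw [dist_comm]
      linarith
    · have h1 := hU₁0 j (hUs _ (hgap (zi g.toEquiv j c) _ (by
        rw [dist_comm]
        linarith) hkW)).2.1
      omega
  have hbk'' : ∀ k : ℤ, 0 < k → zi g.toEquiv k b ∉ W := by
    intro k hk hkW
    rcases hbk k hk with ⟨z, hz, hz'⟩ | ⟨j, hj, hj'⟩
    · refine (hUs z (hgap z _ ?_ hkW)).2.2 (hQL hz)
      rw [dist_comm]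
      linarith
    · have h1 := hU₁0 j (hUs _ (hgap (zi g.toEquiv j c) _ (by
        rw [dist_comm]
        linarith) hkW)).2.1
      omega
  have haR := hηreg (mem_closedBall.2 hac)
  have hbR := hηreg (mem_closedBall.2 hbc)
  have hae : a ∈ e.source := haR.2.1
  have hbe : b ∈ e.source := hbR.2.1
  have haρ : e a ∈ closedBall (e c) ρ₁ :=
    closedBall_subset_closedBall (min_le_left _ _) haR.2.2
  have hdist : ‖e b - e a‖ < ε₂ := by
    have h1 : dist (e a) (e c) ≤ ε₂ / 3 := (mem_closedBall.1 haR.2.2).trans (min_le_right _ _)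
    have h2 : dist (e b) (e c) ≤ ε₂ / 3 := (mem_closedBall.1 hbR.2.2).trans (min_le_right _ _)
    rw [← dist_eq_norm]
    calc dist (e b) (e a) ≤ dist (e b) (e c) + dist (e a) (e c) := dist_triangle_right _ _ _
      _ < ε₂ := by linarith
  set v : E × (E →L[ℝ] E) := (e b - e a, 0) with hv
  have hvb : v ∈ ball (0 : E × (E →L[ℝ] E)) ε₂ := by
    rw [mem_ball, dist_zero_right, hv, Prod.norm_mk, norm_zero]
    exact max_lt hdist hε₂
  obtain ⟨hgN, hform⟩ := hball hvb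
  set ψ := Ψ.toFun v with hψ
  have hψW : ∀ z ∉ W, ψ z = z := fun z hz => hΨW _ z hz
  have hψa : ψ a = b := by
    have h1 := (hform (e a) haρ).1
    rw [e.left_inv hae] at h1
    rw [h1]
    have e1 : e a + (v.1 + v.2 (e a - e c)) = e b := by simp [hv]
    rw [e1, e.left_inv hbe]
  have hstep : ∀ y, zi (pert g ψ).toEquiv 1 y = zi g.toEquiv 1 (ψ y) := fun y =>
    zi_pert_one g ψ y
  -- the backward orbit
  have hbwd : ∀ k : ℕ, zi (pert g ψ).toEquiv (-(k : ℤ)) a = zi g.toEquiv (-(k : ℤ)) a := by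
    intro k
    induction k with
    | zero => simp [zi_zero]
    | succ k ih =>
      apply zi_injective (pert g ψ).toEquiv 1
      have e1 : (1 : ℤ) + -((k + 1 : ℕ) : ℤ) = -k := by push_cast; ring
      rw [← zi_add, e1, ih, hstep, hψW _ (hak' _ (by push_cast; omega)), ← zi_add, e1]
  have hfwd : ∀ k : ℕ, zi (pert g ψ).toEquiv ((k : ℤ) + 1) a = zi g.toEquiv ((k : ℤ) + 1) b := by
    intro k
    induction k with
    | zero =>
      simp only [Nat.cast_zero, zero_add]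
      rw [hstep, hψa]
    | succ k ih =>
      have e1 : ((k + 1 : ℕ) : ℤ) + 1 = 1 + (k + 1) := by push_cast; ring
      rw [e1, zi_add, ih, hstep, hψW _ (hbk'' _ (by positivity)), ← zi_add]
  refine ⟨pert g ψ, hgN, W, hWc, fun y hy => (hUs y (hWU hy)).1,
    fun y hy => (hUs y (hWU hy)).2.2, fun y hy => ?_, a, haR.1, ?_, ?_⟩
  · rw [pert_apply, hψW y hy]
  · refine (omegaL_congr (g := g.symm) (y := a) (N₀ := 0) fun n _ => ?_).trans haS
    rw [← zi_neg_apply, ← zi_neg_apply, hbwd]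
  · refine (omegaL_congr (g := g) (y := b) (N₀ := 1) fun n hn => ?_).trans hbS
    have h1 := hfwd (n - 1)
    have e1 : ((n - 1 : ℕ) : ℤ) + 1 = n := by omega
    rw [e1, zi_nat_apply, zi_nat_apply] at h1
    exact h1

end OmSt
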