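import Pool.Agent.OmSt2.Piece
import Pool.Agent.OmSt.Conj

/-!
# The counting argument
-/

open Set Filter Topology Metric

set_option linter.unusedSectionVars false

namespace OmSt

theorem omegaL_subset_nonwandering {X : Type*} [MetricSpace X] [CompactSpace X] (f : X → X) (x : X) :
    omegaL f x ⊆ nonwandering f := by
  intro y hy U hU
  obtain ⟨ε, hε, hεU⟩ := Metric.mem_nhds_iff.1 hU
  obtain ⟨a, -, ha⟩ := mem_omegaL_iff.1 hy ε hε 0
  obtain ⟨b, hb, hb'⟩ := mem_omegaL_iff.1 hy ε hε (a + 1)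
  refine ⟨b - a, by omega, f^[b] x, ⟨f^[a] x, hεU ha, ?_⟩, hεU hb'⟩
  rw [← Function.iterate_add_apply, Nat.sub_add_cancel (by omega)]

theorem conj_omega {X : Type*} [MetricSpace X] [CompactSpace X] {f g : X → X} (hf : IsOpenMap f)
    (hfc : Continuous f) {h : nonwandering f ≃ₜ nonwandering g}
    (hh : ∀ x y : nonwandering f, (y : X) = f x → (h y : X) = g (h x))
    (x y : nonwandering f) (hxy : (y : X) ∈ omegaL f x) : (h y : X) ∈ omegaL g (h x) := by
  rw [mem_omegaL_iff]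
  intro ε hε N
  have h1 : Continuous fun z : nonwandering f => (h z : X) :=
    continuous_subtype_val.comp h.continuous
  have h2 : (fun z : nonwandering f => (h z : X)) ⁻¹' (ball (h y : X) ε) ∈ 𝓝 y :=
    h1.continuousAt (ball_mem_nhds _ hε)
  obtain ⟨V, hV, hVU⟩ := mem_nhds_subtype _ _ _ |>.1 h2
  obtain ⟨δ, hδ, hδV⟩ := Metric.mem_nhds_iff.1 hV
  obtain ⟨n, hn, hn'⟩ := mem_omegaL_iff.1 hxy δ hδ N
  refine ⟨n, hn, ?_⟩
  have h3 : (⟨f^[n] x, nonwandering_iterate hf hfc x.2 n⟩ : nonwandering f) ∈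
      (fun z : nonwandering f => (h z : X)) ⁻¹' (ball (h y : X) ε) := hVU (hδV hn')
  have h4 := OmegaConj.iterate hf hfc hh n x ⟨f^[n] x, nonwandering_iterate hf hfc x.2 n⟩ rfl
  rw [mem_preimage, h4] at h3
  exact h3

variable {X : Type*} [MetricSpace X] [CompactSpace X] {f g : X ≃ₜ X}

/-- The union of the pieces which contain a fixed point of `f ^ m`. -/
def LL (f : X ≃ₜ X) (m : ℕ) : Set X := ⋃₀ {P | Piece f P ∧ ∃ q ∈ P, f^[m] q = q}

theorem piece_subset_LL {m : ℕ} {P : Set X} (hP : Piece f P) {q : X} (hq : q ∈ P)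
    (hqm : f^[m] q = q) : P ⊆ LL f m := subset_sUnion_of_mem ⟨hP, q, hq, hqm⟩

theorem LL_zinv {m : ℕ} : ZInv f (LL f m) := by
  rintro x ⟨P, hP, hx⟩ k
  exact ⟨P, hP, hP.1.1.zinv x hx k⟩

theorem recurrent_of_periodic {m : ℕ} (hm : 0 < m) {q : X} (hq : f^[m] q = q) :
    Recurrent f q := by
  intro U hU N
  refine ⟨m * N, Nat.le_mul_of_pos_left _ hm, ?_⟩
  have h1 : f^[m * N] q = q := by
    have h2 : Function.IsPeriodicPt f m q := hq
    exact h2.mul_const N
  rw [h1]
  exact mem_of_mem_nhds hU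

theorem PH.exists_piece_of_fix (hf : PH f) {m : ℕ} (hm : 0 < m) {q : X} (hq : f^[m] q = q) :
    ∃ P, Piece f P ∧ q ∈ P := hf.exists_piece_of_recurrent (recurrent_of_periodic hm hq)

theorem PH.finite_LL (hf : PH f) {m : ℕ} (hm : 0 < m) :
    {P | Piece f P ∧ ∃ q ∈ P, f^[m] q = q}.Finite := by
  classical
  rcases isEmpty_or_nonempty X with hX | hX
  · exact (Set.subsingleton_of_subsingleton).finite
  have h1 : ∀ P, (Piece f P ∧ ∃ q ∈ P, f^[m] q = q) → ∃ q, q ∈ P ∧ f^[m] q = q := fun P hP =>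
    hP.2
  choose! q hq using h1
  refine Set.Finite.of_injOn (f := q) (t := {x | f^[m] x = x}) (fun P hP => (hq P hP).2)
    (fun P hP Q hQ hPQ => ?_) (hf.hfin m hm)
  exact hf.piece_eq hP.1 hQ.1 ⟨q P, (hq P hP).1, hPQ ▸ (hq Q hQ).1⟩

theorem PH.isClosed_LL (hf : PH f) {m : ℕ} (hm : 0 < m) : IsClosed (LL f m) := by
  have h1 := hf.finite_LL hm
  rw [LL, sUnion_eq_biUnion]
  exact h1.isClosed_biUnion fun P hP => hP.1.1.isClosed

theorem eqOn_iterate {L : Set X} (hinv : ZInv f L) (heq : EqOn g f L) {x : X} (hx : x ∈ L)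
    (k : ℕ) : g^[k] x = f^[k] x ∧ f^[k] x ∈ L := by
  induction k with
  | zero => exact ⟨rfl, hx⟩
  | succ k ih =>
    rw [Function.iterate_succ_apply', Function.iterate_succ_apply', ih.1]
    exact ⟨heq ih.2, hinv.mapsTo ih.2⟩

theorem omegaL_eqOn {L : Set X} (hinv : ZInv f L) (heq : EqOn g f L) {x : X} (hx : x ∈ L) :
    omegaL g x = omegaL f x := by
  ext y
  rw [mem_omegaL_iff, mem_omegaL_iff]
  simp only [fun k => (eqOn_iterate hinv heq hx k).1]

/-- **The counting argument.** -/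
theorem PH.count (hf : PH f) (hgfin : ∀ n > 0, {x | g^[n] x = x}.Finite) (hc : OmegaConj f g)
    {m : ℕ} (hm : 0 < m) (heq : EqOn g f (LL f m)) {q : X} (hq : f^[m] q = q) {z : X}
    (hz : Recurrent g z) (hqz : q ∈ omegaL g z) : omegaL g z ⊆ LL f m := by
  classical
  obtain ⟨h, hh⟩ := hc
  obtain ⟨h', hh'⟩ : ∃ h' : nonwandering g ≃ₜ nonwandering f,
      (∀ x y : nonwandering g, (y : X) = g x → (h' y : X) = f (h' x)) ∧ h' = h.symm := by
    refine ⟨h.symm, fun x y hxy => ?_, rfl⟩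
    have h1 := hh (h.symm x) ⟨f (h.symm x),
      nonwandering_apply f.isOpenMap f.continuous (h.symm x).2⟩ rfl
    rw [h.apply_symm_apply] at h1
    have h2 : h ⟨f (h.symm x), nonwandering_apply f.isOpenMap f.continuous (h.symm x).2⟩ = y :=
      Subtype.ext (h1.trans hxy.symm)
    rw [← h2, h.symm_apply_apply]
  obtain ⟨hh', hsymm⟩ := hh'
  have hinv : ZInv f (LL f m) := LL_zinv
  -- the extension of the conjugacy
  set H : X → X := fun x => if hx : x ∈ nonwandering f then (h ⟨x, hx⟩ : X) else x with hH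
  have hHx : ∀ x (hx : x ∈ nonwandering f), H x = h ⟨x, hx⟩ := fun x hx => by simp [hH, hx]
  have hHinj : InjOn H (nonwandering f) := by
    intro a ha b hb hab
    rw [hHx a ha, hHx b hb] at hab
    have := h.injective (Subtype.ext hab)
    exact congrArg Subtype.val this
  have hHω : ∀ x ∈ nonwandering f, ∀ y ∈ omegaL f x, H y ∈ omegaL g (H x) := by
    intro x hx y hy
    rw [hHx x hx, hHx y (omegaL_subset_nonwandering f x hy)]
    exact conj_omega f.isOpenMap f.continuous hh ⟨x, hx⟩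
      ⟨y, omegaL_subset_nonwandering f x hy⟩ hy
  have hHrec : ∀ x, Recurrent f x → Recurrent g (H x) := fun x hx =>
    recurrent_of_mem (hHω x (mem_nonwandering_of_recurrent hx) x (mem_omegaL_self hx))
  have hHfix : ∀ x ∈ nonwandering f, ∀ k, f^[k] x = x → g^[k] (H x) = H x := by
    intro x hx k hk
    rw [hHx x hx]
    have h1 := OmegaConj.iterate f.isOpenMap f.continuous hh k ⟨x, hx⟩
      ⟨f^[k] x, nonwandering_iterate f.isOpenMap f.continuous hx k⟩ rfl
    rw [← h1]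
    congr 2
    exact Subtype.ext hk
  -- the inverse
  have hback : ∀ z ∈ nonwandering g, ∃ x ∈ nonwandering f, H x = z ∧
      (∀ w ∈ omegaL g z, ∃ y ∈ omegaL f x, H y = w) ∧ (∀ k, g^[k] z = z → f^[k] x = x) := by
    intro z hz
    refine ⟨h' ⟨z, hz⟩, (h' ⟨z, hz⟩).2, ?_, fun w hw => ?_, fun k hk => ?_⟩
    · rw [hHx _ (h' ⟨z, hz⟩).2]
      subst hsymm
      simp
    · have hwΩ := omegaL_subset_nonwandering g z hw
      refine ⟨h' ⟨w, hwΩ⟩, conj_omega g.isOpenMap g.continuous hh' ⟨z, hz⟩ ⟨w, hwΩ⟩ hw, ?_⟩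
      rw [hHx _ (h' ⟨w, hwΩ⟩).2]
      subst hsymm
      simp
    · have h1 := OmegaConj.iterate g.isOpenMap g.continuous hh' k ⟨z, hz⟩
        ⟨g^[k] z, nonwandering_iterate g.isOpenMap g.continuous hz k⟩ rfl
      rw [← h1]
      congr 2
      exact Subtype.ext hk
  set F : Set X := {x | f^[m] x = x} with hF
  have hFΩ : ∀ x ∈ F, x ∈ nonwandering f := fun x hx =>
    mem_nonwandering_of_recurrent (recurrent_of_periodic hm hx)
  have hFL : F ⊆ LL f m := by
    intro x hx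
    obtain ⟨P, hP, hxP⟩ := hf.exists_piece_of_fix hm hx
    exact piece_subset_LL hP hxP hx hxP
  have hFfin : F.Finite := hf.hfin m hm
  have hFG : F = {x | g^[m] x = x} := by
    have hsub : F ⊆ {x | g^[m] x = x} := by
      intro x hx
      have h1 := (eqOn_iterate hinv heq (hFL hx) m).1
      change g^[m] x = x
      rw [h1]
      exact hx
    refine Set.eq_of_subset_of_ncard_le hsub ?_ (hgfin m hm)
    refine Set.ncard_le_ncard_of_injOn (f := fun z => if hz : z ∈ nonwandering g then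
      (h' ⟨z, hz⟩ : X) else z) (fun z hz => ?_) (fun a ha b hb hab => ?_) hFfin
    · have hzΩ : z ∈ nonwandering g :=
        mem_nonwandering_of_recurrent (recurrent_of_periodic hm hz)
      simp only [hzΩ, dite_true]
      have h1 := OmegaConj.iterate g.isOpenMap g.continuous hh' m ⟨z, hzΩ⟩
        ⟨g^[m] z, nonwandering_iterate g.isOpenMap g.continuous hzΩ m⟩ rfl
      change f^[m] (h' ⟨z, hzΩ⟩ : X) = _
      rw [← h1]
      congr 2
      exact Subtype.ext hz
    · have haΩ : a ∈ nonwandering g := mem_nonwandering_of_recurrent (recurrent_of_periodic hm ha)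
      have hbΩ : b ∈ nonwandering g := mem_nonwandering_of_recurrent (recurrent_of_periodic hm hb)
      simp only [haΩ, hbΩ, dite_true] at hab
      have := h'.injective (Subtype.ext hab)
      exact congrArg Subtype.val this
  -- the pieces
  have hpc : ∀ x : F, ∃ P, Piece f P ∧ (x : X) ∈ P := fun x => hf.exists_piece_of_fix hm x.2
  choose P hP hxP using hpc
  set T : X → Set X := fun q => {w | ∃ z, Recurrent g z ∧ q ∈ omegaL g z ∧ w ∈ omegaL g z} with hT
  have hPΩ : ∀ x : F, P x ⊆ nonwandering f := by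
    intro x
    obtain ⟨z₀, hz₀, hz₀P⟩ := (hP x).1
    rw [← hz₀P]
    exact omegaL_subset_nonwandering f z₀
  have hTP : ∀ x : F, T (H x) = H '' P x := by
    intro x
    ext w
    constructor
    · rintro ⟨z, hz, hqz, hwz⟩
      obtain ⟨z', hz', hz'H, hω, -⟩ := hback z (mem_nonwandering_of_recurrent hz)
      obtain ⟨q', hq', hq'H⟩ := hω _ hqz
      have e1 : q' = x := hHinj (omegaL_subset_nonwandering f z' hq') (hFΩ x x.2) hq'H
      obtain ⟨v, hv, rfl⟩ := hω _ hwz
      obtain ⟨z'', hz'', hz''H⟩ := hω z (mem_omegaL_self hz)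
      have e2 : z'' = z' := hHinj (omegaL_subset_nonwandering f z' hz'') hz' (hz''H.trans hz'H.symm)
      rw [e2] at hz''
      refine ⟨v, hf.subset_piece ⟨z', recurrent_of_mem hz'', rfl⟩ (hP x) ⟨q', hq', ?_⟩ hv, rfl⟩
      rw [e1]
      exact hxP x
    · rintro ⟨v, hv, rfl⟩
      obtain ⟨z₀, hz₀, hz₀P⟩ := (hP x).1
      rw [← hz₀P] at hv
      have hz₀Ω := mem_nonwandering_of_recurrent hz₀
      refine ⟨H z₀, hHrec z₀ hz₀, hHω z₀ hz₀Ω x ?_, hHω z₀ hz₀Ω v hv⟩
      rw [hz₀P]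
      exact hxP x
  have hPT : ∀ x : F, P x ⊆ T x := by
    intro x v hv
    obtain ⟨z₀, hz₀, hz₀P⟩ := (hP x).1
    have hPL : P x ⊆ LL f m := piece_subset_LL (hP x) (hxP x) x.2
    have hz₀L : z₀ ∈ LL f m := hPL (hz₀P ▸ mem_omegaL_self hz₀)
    have h1 := omegaL_eqOn hinv heq hz₀L
    refine ⟨z₀, recurrent_of_mem (h1 ▸ mem_omegaL_self hz₀), ?_, ?_⟩
    · rw [h1, hz₀P]
      exact hxP x
    · rw [h1, hz₀P]
      exact hv
  -- the permutation of `F`
  have hHF : ∀ x : F, H x ∈ F := by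
    intro x
    have h1 : H x ∈ {x | g^[m] x = x} := hHfix x (hFΩ x x.2) m x.2
    exact hFG.symm.subset h1
  set σ : F → F := fun x => ⟨H x, hHF x⟩ with hσ
  have hFfin' : Finite F := hFfin
  have hσinj : Function.Injective σ := by
    intro a b hab
    have h1 : H a = H b := congrArg Subtype.val hab
    exact Subtype.ext (hHinj (hFΩ a a.2) (hFΩ b b.2) h1)
  have hσbij : Function.Bijective σ := (Finite.injective_iff_bijective).1 hσinj
  -- counting
  have hcount : ∀ k > 0, ∀ x : F, P x ∩ {v | f^[k] v = v} = T x ∩ {v | g^[k] v = v} := by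
    intro k hk
    have : Fintype F := Fintype.ofFinite F
    set a : F → ℕ := fun x => (P x ∩ {v | f^[k] v = v}).ncard with ha
    set b : F → ℕ := fun x => (T x ∩ {v | g^[k] v = v}).ncard with hb
    have hsub : ∀ x : F, P x ∩ {v | f^[k] v = v} ⊆ T x ∩ {v | g^[k] v = v} := by
      rintro x v ⟨hv, hv'⟩
      refine ⟨hPT x hv, ?_⟩
      have hvL : v ∈ LL f m := piece_subset_LL (hP x) (hxP x) x.2 hv
      change g^[k] v = v
      rw [(eqOn_iterate hinv heq hvL k).1]
      exact hv'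
    have hTfin : ∀ x : F, (T x ∩ {v | g^[k] v = v}).Finite := fun x =>
      (hgfin k hk).subset inter_subset_right
    have hab : ∀ x, a x ≤ b x := fun x => Set.ncard_le_ncard (hsub x) (hTfin x)
    have hba : ∀ x, b (σ x) = a x := by
      intro x
      have e1 : T (σ x) ∩ {v | g^[k] v = v} = H '' (P x ∩ {v | f^[k] v = v}) := by
        have e0 : T (σ x) = H '' P x := hTP x
        rw [e0]
        ext w
        constructor
        · rintro ⟨⟨v, hv, rfl⟩, hw⟩
          refine ⟨v, ⟨hv, ?_⟩, rfl⟩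
          obtain ⟨v', hv', hv'H, -, hv'k⟩ := hback (H v)
            (mem_nonwandering_of_recurrent (recurrent_of_periodic hk hw))
          have e2 : v' = v := hHinj hv' (hPΩ x hv) hv'H
          rw [← e2]
          exact hv'k k hw
        · rintro ⟨v, ⟨hv, hv'⟩, rfl⟩
          exact ⟨⟨v, hv, rfl⟩, hHfix v (hPΩ x hv) k hv'⟩
      simp only [ha, hb]
      rw [e1, Set.ncard_image_of_injOn (hHinj.mono (inter_subset_left.trans (hPΩ x)))]
    have hsum : ∑ x, a x = ∑ x, b x := by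
      rw [← hσbij.sum_comp b]
      exact Finset.sum_congr rfl fun x _ => (hba x).symm
    have heach := (Finset.sum_eq_sum_iff_of_le (fun x _ => hab x)).1 hsum
    intro x
    exact Set.eq_of_subset_of_ncard_le (hsub x) (heach x (Finset.mem_univ x)).ge (hTfin x)
  -- conclusion
  obtain ⟨x, hx⟩ := hσbij.2 ⟨q, hq⟩
  have hxq : H x = q := congrArg Subtype.val hx
  intro w hw
  have hwT : w ∈ T (H x) := ⟨z, hz, hxq ▸ hqz, hw⟩
  rw [hTP x] at hwT
  obtain ⟨v, hv, rfl⟩ := hwT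
  have hPL : P ⟨q, hq⟩ ⊆ LL f m := piece_subset_LL (hP _) (hxP ⟨q, hq⟩) hq
  refine hPL ?_
  rw [← (hP ⟨q, hq⟩).1.isClosed.closure_eq, Metric.mem_closure_iff]
  intro ε hε
  have h1 : Continuous fun z : nonwandering f => (h z : X) :=
    continuous_subtype_val.comp h.continuous
  have hvΩ := hPΩ x hv
  have h2 : (fun z : nonwandering f => (h z : X)) ⁻¹' (ball (h ⟨v, hvΩ⟩ : X) ε) ∈
      𝓝 (⟨v, hvΩ⟩ : nonwandering f) := h1.continuousAt (ball_mem_nhds _ hε)
  obtain ⟨V, hV, hVU⟩ := mem_nhds_subtype _ _ _ |>.1 h2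
  obtain ⟨u, huV, huP, k, hk, huk⟩ := mem_closure_iff_nhds.1 (hf.dense_periodic (hP x) hv) V hV
  have huΩ := hPΩ x huP
  have h3 : (⟨u, huΩ⟩ : nonwandering f) ∈
      (fun z : nonwandering f => (h z : X)) ⁻¹' (ball (h ⟨v, hvΩ⟩ : X) ε) := hVU huV
  rw [mem_preimage, mem_ball, ← hHx u huΩ, ← hHx v hvΩ] at h3
  refine ⟨H u, ?_, by rwa [dist_comm]⟩
  have h4 : H u ∈ T (⟨q, hq⟩ : F) ∩ {v | g^[k] v = v} := by
    refine ⟨?_, hHfix u huΩ k huk⟩
    change H u ∈ T q
    rw [← hxq, hTP x]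
    exact ⟨u, huP, rfl⟩
  rw [← hcount k hk ⟨q, hq⟩] at h4
  exact h4.1

end OmSt
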