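import Pool.Agent.OmSt.Isol

/-!
# Finite families of charts, uniform estimates
-/

open Set Filter Topology Manifold ContDiff Metric

set_option linter.unusedSectionVars false

namespace OmSt

/-- Local properties which are monotone in the radius hold uniformly on compact sets. -/
theorem exists_uniform {M : Type*} [TopologicalSpace M] {X : Set M} (hX : IsCompact X)
    {P : M → ℝ → Prop} (mono : ∀ x ρ ρ', ρ' ≤ ρ → P x ρ → P x ρ')
    (h : ∀ x ∈ X, ∃ ρ > 0, ∀ᶠ y in 𝓝 x, P y ρ) : ∀ᶠ ρ in 𝓝[>] (0 : ℝ), ∀ x ∈ X, P x ρ := by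
  obtain ⟨ρ, hρ, h1⟩ : ∃ ρ > 0, ∀ x ∈ X, P x ρ := by
    refine hX.induction_on (p := fun X => ∃ ρ > 0, ∀ x ∈ X, P x ρ) ⟨1, one_pos, by simp⟩
      (fun s t hst ⟨ρ, hρ, ht⟩ => ⟨ρ, hρ, fun x hx => ht x (hst hx)⟩)
      (fun s t ⟨ρ, hρ, hs⟩ ⟨ρ', hρ', ht⟩ => ⟨min ρ ρ', lt_min hρ hρ', fun x hx => ?_⟩)
      (fun x hx => ?_)
    · rcases hx with hx | hx
      · exact mono _ _ _ (min_le_left _ _) (hs x hx)
      · exact mono _ _ _ (min_le_right _ _) (ht x hx)
    · obtain ⟨ρ, hρ, h2⟩ := h x hx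
      exact ⟨_, mem_nhdsWithin_of_mem_nhds h2, ρ, hρ, fun y hy => hy⟩
  have h3 : ∀ᶠ ρ' in 𝓝[>] (0 : ℝ), ρ' ∈ Iio ρ :=
    Filter.Eventually.filter_mono nhdsWithin_le_nhds (Iio_mem_nhds hρ)
  filter_upwards [h3] with ρ' hρ' x hx
  exact mono _ _ _ hρ'.le (h1 x hx)

variable {E : Type*} [NormedAddCommGroup E] [NormedSpace ℝ E]

/-- The map `g` in the charts at `b` and `b'`. -/
noncomputable def chG {M : Type*} [TopologicalSpace M] [ChartedSpace E M] (g : M → M) (b b' : M)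
    (u : E) : E := chartAt E b' (g ((chartAt E b).symm u))

variable {M : Type*} [MetricSpace M] [ChartedSpace E M] {r : ℕ∞}

variable (E) in
/-- A finite family of charts, with compact subsets of their domains which cover `M`. -/
structure Cov (s : Finset M) (K : M → Set M) (ρ₀ : ℝ) : Prop where
  cpt : ∀ b ∈ s, IsCompact (K b)
  src : ∀ b ∈ s, K b ⊆ (chartAt E b).source
  pos : 0 < ρ₀
  leb : ∀ x, ∃ b ∈ s, closedBall x ρ₀ ⊆ K b

variable (E) in
theorem exists_cov [CompactSpace M] {U : M → Set M} (hU : ∀ b, U b ∈ 𝓝 b) :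
    ∃ (s : Finset M) (K : M → Set M) (ρ₀ : ℝ), Cov E s K ρ₀ ∧ ∀ b ∈ s, K b ⊆ U b := by
  have h1 : ∀ b : M, ∃ K ∈ 𝓝 b, IsClosed K ∧ K ⊆ U b ∩ (chartAt E b).source := fun b =>
    exists_mem_nhds_isClosed_subset
      (inter_mem (hU b) ((chartAt E b).open_source.mem_nhds (mem_chart_source E b)))
  choose K hK hKc hKU using h1
  obtain ⟨s, -, hs⟩ := isCompact_univ.elim_nhds_subcover (fun b => interior (K b))
    (fun b _ => interior_mem_nhds.2 (hK b))
  obtain ⟨δ, hδ, h2⟩ := lebesgue_number_lemma_of_metric (ι := s) isCompact_univ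
    (c := fun b => interior (K b)) (fun b => isOpen_interior) (by
      intro x hx
      obtain ⟨b, hb, hxb⟩ := mem_iUnion₂.1 (hs hx)
      exact mem_iUnion.2 ⟨⟨b, hb⟩, hxb⟩)
  refine ⟨s, K, δ / 2, ⟨fun b _ => (hKc b).isCompact, fun b _ => (hKU b).trans inter_subset_right,
    by positivity, fun x => ?_⟩, fun b _ => (hKU b).trans inter_subset_left⟩
  obtain ⟨b, hb⟩ := h2 x (mem_univ x)
  exact ⟨b, b.2, (closedBall_subset_ball (by linarith)).trans (hb.trans interior_subset)⟩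

variable [IsManifold 𝓘(ℝ, E) ∞ M]

theorem contDiffAt_chG {g : Dyn E M r} (hr : 1 ≤ r) {b b' : M} {z : E}
    (hz : z ∈ (chartAt E b).target) (hgz : g ((chartAt E b).symm z) ∈ (chartAt E b').source) :
    ContDiffAt ℝ 1 (chG g b b') z :=
  contDiffAt_chart_iterate hr (IsManifold.chart_mem_maximalAtlas b)
    (IsManifold.chart_mem_maximalAtlas b') 1 hz hgz

theorem continuousAt_fderiv_chG {g : Dyn E M r} (hr : 1 ≤ r) {b b' x : M}
    (hx : x ∈ (chartAt E b).source) (hgx : g x ∈ (chartAt E b').source) :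
    ContinuousAt (fun y => fderiv ℝ (chG g b b') (chartAt E b y)) x := by
  have h1 : ContDiffAt ℝ 1 (chG g b b') (chartAt E b x) :=
    contDiffAt_chG hr ((chartAt E b).map_source hx) (by rwa [(chartAt E b).left_inv hx])
  have h2 : ContinuousAt (fderiv ℝ (chG g b b')) (chartAt E b x) := h1.continuousAt_fderiv (by simp)
  exact ContinuousAt.comp (f := chartAt E b) (g := fderiv ℝ (chG g b b')) h2
    ((chartAt E b).continuousAt hx)

/-- Uniform linear approximation. -/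
theorem Cov.approx {s : Finset M} {K : M → Set M} {ρ₀ : ℝ} (hc : Cov E s K ρ₀) {g : Dyn E M r}
    (hr : 1 ≤ r) {η : ℝ} (hη : 0 < η) : ∀ᶠ ρ in 𝓝[>] (0 : ℝ), ∀ b ∈ s, ∀ b' ∈ s, ∀ x ∈ K b,
      g x ∈ K b' → ∀ u ∈ closedBall (chartAt E b x) ρ, u ∈ (chartAt E b).target ∧
        g ((chartAt E b).symm u) ∈ (chartAt E b').source ∧
        ∀ u' ∈ closedBall (chartAt E b x) ρ, ‖chG g b b' u - chG g b b' u' -
          fderiv ℝ (chG g b b') (chartAt E b x) (u - u')‖ ≤ η * ‖u - u'‖ := by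
  rw [Filter.eventually_all_finset]
  intro b hb
  rw [Filter.eventually_all_finset]
  intro b' hb'
  have h0 := exists_uniform (X := K b ∩ g ⁻¹' K b')
    ((hc.cpt b hb).inter_right ((hc.cpt b' hb').isClosed.preimage g.continuous))
    (P := fun x ρ => ∀ u ∈ closedBall (chartAt E b x) ρ, u ∈ (chartAt E b).target ∧
        g ((chartAt E b).symm u) ∈ (chartAt E b').source ∧
        ∀ u' ∈ closedBall (chartAt E b x) ρ, ‖chG g b b' u - chG g b b' u' -
          fderiv ℝ (chG g b b') (chartAt E b x) (u - u')‖ ≤ η * ‖u - u'‖)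
    (fun x ρ ρ' hρ h u hu => by
      have hsub : closedBall (chartAt E b x) ρ' ⊆ closedBall (chartAt E b x) ρ :=
        closedBall_subset_closedBall hρ
      exact ⟨(h u (hsub hu)).1, (h u (hsub hu)).2.1, fun u' hu' => (h u (hsub hu)).2.2 u' (hsub hu')⟩)
    (fun x hx => ?_)
  · filter_upwards [h0] with ρ hρ x hx hgx
    exact hρ x ⟨hx, hgx⟩
  · have hxs := hc.src b hb hx.1
    have hgxs : g x ∈ (chartAt E b').source := hc.src b' hb' hx.2
    have hxt : chartAt E b x ∈ (chartAt E b).target := (chartAt E b).map_source hxs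
    have hsymm : (chartAt E b).symm (chartAt E b x) = x := (chartAt E b).left_inv hxs
    have h1 : ContDiffAt ℝ 1 (chG g b b') (chartAt E b x) :=
      contDiffAt_chG hr hxt (by rwa [hsymm])
    have hnh : (chartAt E b).target ∩ (fun z => g ((chartAt E b).symm z)) ⁻¹'
        (chartAt E b').source ∈ 𝓝 (chartAt E b x) := by
      refine inter_mem ((chartAt E b).open_target.mem_nhds hxt) ?_
      have hcc : ContinuousAt (fun z => g ((chartAt E b).symm z)) (chartAt E b x) :=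
        (g.continuous.continuousAt).comp ((chartAt E b).continuousAt_symm hxt)
      refine hcc ((chartAt E b').open_source.mem_nhds ?_)
      change g ((chartAt E b).symm (chartAt E b x)) ∈ (chartAt E b').source
      rwa [hsymm]
    obtain ⟨ρ, hρ, h2, h3, h4⟩ := exists_closedBall_approx h1 hnh (half_pos hη)
    refine ⟨ρ / 2, half_pos hρ, ?_⟩
    have h5 : ∀ᶠ y in 𝓝 x, chartAt E b y ∈ closedBall (chartAt E b x) (ρ / 2) :=
      ((chartAt E b).continuousAt hxs) (closedBall_mem_nhds _ (half_pos hρ))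
    filter_upwards [h5] with y hy u hu
    have hsub : closedBall (chartAt E b y) (ρ / 2) ⊆ closedBall (chartAt E b x) ρ := by
      refine closedBall_subset_closedBall' ?_
      rw [mem_closedBall] at hy
      linarith
    refine ⟨(h2 (hsub hu)).1, (h2 (hsub hu)).2, fun u' hu' => ?_⟩
    have h6 := h4 u (hsub hu) u' (hsub hu')
    have h7 := (h3 (chartAt E b y) (hsub (mem_closedBall_self (half_pos hρ).le))).2
    have e1 : chG g b b' u - chG g b b' u' - fderiv ℝ (chG g b b') (chartAt E b y) (u - u') =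
        (chG g b b' u - chG g b b' u' - fderiv ℝ (chG g b b') (chartAt E b x) (u - u')) -
        (fderiv ℝ (chG g b b') (chartAt E b y) - fderiv ℝ (chG g b b') (chartAt E b x)) (u - u') := by
      rw [sub_apply]
      abel
    rw [e1]
    calc _ ≤ η / 2 * ‖u - u'‖ + ‖fderiv ℝ (chG g b b') (chartAt E b y) -
          fderiv ℝ (chG g b b') (chartAt E b x)‖ * ‖u - u'‖ :=
          (norm_sub_le _ _).trans (add_le_add h6 (ContinuousLinearMap.le_opNorm _ _))
      _ ≤ η / 2 * ‖u - u'‖ + η / 2 * ‖u - u'‖ := by gcongr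
      _ = η * ‖u - u'‖ := by ring

/-- Uniform continuity of the charts. -/
theorem Cov.chart_close {s : Finset M} {K : M → Set M} {ρ₀ : ℝ} (hc : Cov E s K ρ₀) {ρ : ℝ}
    (hρ : 0 < ρ) : ∀ᶠ δ in 𝓝[>] (0 : ℝ), ∀ b ∈ s, ∀ x ∈ K b, ∀ y, dist y x ≤ δ →
      y ∈ (chartAt E b).source ∧ ‖chartAt E b y - chartAt E b x‖ ≤ ρ := by
  rw [Filter.eventually_all_finset]
  intro b hb
  refine exists_uniform (hc.cpt b hb) (fun x δ δ' hδ h y hy => h y (hy.trans hδ))
    (fun x hx => ?_)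
  have hxs := hc.src b hb hx
  have h1 : (chartAt E b).source ∩ chartAt E b ⁻¹' (ball (chartAt E b x) (ρ / 2)) ∈ 𝓝 x :=
    inter_mem ((chartAt E b).open_source.mem_nhds hxs)
      (((chartAt E b).continuousAt hxs) (ball_mem_nhds _ (half_pos hρ)))
  obtain ⟨δ, hδ, h2⟩ := Metric.nhds_basis_closedBall.mem_iff.1 h1
  refine ⟨δ / 2, half_pos hδ, ?_⟩
  filter_upwards [closedBall_mem_nhds x (half_pos hδ)] with z hz y hy
  rw [mem_closedBall] at hz
  have h3 := h2 (mem_closedBall.2 (by linarith : dist z x ≤ δ))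
  have h4 := h2 (mem_closedBall.2 (by linarith [dist_triangle y z x] : dist y x ≤ δ))
  refine ⟨h4.1, ?_⟩
  have h5 := h3.2
  have h6 := h4.2
  rw [mem_preimage, mem_ball] at h5 h6
  rw [← dist_eq_norm]
  linarith [dist_triangle_right (chartAt E b y) (chartAt E b z) (chartAt E b x)]

/-- Uniform continuity of the inverses of the charts. -/
theorem Cov.symm_close {s : Finset M} {K : M → Set M} {ρ₀ : ℝ} (hc : Cov E s K ρ₀) {ε : ℝ}
    (hε : 0 < ε) : ∀ᶠ ρ in 𝓝[>] (0 : ℝ), ∀ b ∈ s, ∀ x ∈ K b, ∀ u ∈ closedBall (chartAt E b x) ρ,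
      u ∈ (chartAt E b).target ∧ dist ((chartAt E b).symm u) x ≤ ε := by
  rw [Filter.eventually_all_finset]
  intro b hb
  refine exists_uniform (hc.cpt b hb) (fun x δ δ' hδ h y hy =>
    h y (closedBall_subset_closedBall hδ hy)) (fun x hx => ?_)
  have hxs := hc.src b hb hx
  have hxt : chartAt E b x ∈ (chartAt E b).target := (chartAt E b).map_source hxs
  have hsymm : (chartAt E b).symm (chartAt E b x) = x := (chartAt E b).left_inv hxs
  have h1 : (chartAt E b).target ∩ (chartAt E b).symm ⁻¹' (ball x (ε / 2)) ∈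
      𝓝 (chartAt E b x) := by
    refine inter_mem ((chartAt E b).open_target.mem_nhds hxt)
      (((chartAt E b).continuousAt_symm hxt) ?_)
    rw [hsymm]
    exact ball_mem_nhds _ (half_pos hε)
  obtain ⟨δ, hδ, h2⟩ := Metric.nhds_basis_closedBall.mem_iff.1 h1
  refine ⟨δ / 2, half_pos hδ, ?_⟩
  have h3 : ∀ᶠ z in 𝓝 x, chartAt E b z ∈ closedBall (chartAt E b x) (δ / 2) :=
    ((chartAt E b).continuousAt hxs) (closedBall_mem_nhds _ (half_pos hδ))
  filter_upwards [h3, (chartAt E b).open_source.mem_nhds hxs, ball_mem_nhds x (half_pos hε)]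
    with z hz hzs hzb u hu
  rw [mem_closedBall] at hz hu
  have h4 := h2 (mem_closedBall.2
    (by linarith [dist_triangle u (chartAt E b z) (chartAt E b x)] : dist u (chartAt E b x) ≤ δ))
  refine ⟨h4.1, ?_⟩
  have h5 := h4.2
  rw [mem_preimage, mem_ball] at h5
  rw [mem_ball] at hzb
  linarith [dist_triangle_right ((chartAt E b).symm u) z x]

/-- Bound of the derivatives. -/
theorem Cov.exists_bound {s : Finset M} {K : M → Set M} {ρ₀ : ℝ} (hc : Cov E s K ρ₀)
    {g : Dyn E M r} (hr : 1 ≤ r) : ∃ C : ℝ, 1 ≤ C ∧ ∀ b ∈ s, ∀ b' ∈ s, ∀ x ∈ K b, g x ∈ K b' →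
      ‖fderiv ℝ (chG g b b') (chartAt E b x)‖ ≤ C := by
  have h1 : ∀ᶠ ρ in 𝓝[>] (0 : ℝ), ∀ b ∈ s, ∀ b' ∈ s, ∀ x ∈ K b, g x ∈ K b' →
      ‖fderiv ℝ (chG g b b') (chartAt E b x)‖ ≤ 1 / ρ := by
    rw [Filter.eventually_all_finset]
    intro b hb
    rw [Filter.eventually_all_finset]
    intro b' hb'
    have hX : IsCompact (K b ∩ g ⁻¹' K b') :=
      (hc.cpt b hb).inter_right ((hc.cpt b' hb').isClosed.preimage g.continuous)
    obtain ⟨C, hC⟩ := hX.exists_bound_of_continuousOn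
      (f := fun y => fderiv ℝ (chG g b b') (chartAt E b y)) (fun x hx =>
        (continuousAt_fderiv_chG hr (hc.src b hb hx.1) (hc.src b' hb' hx.2)).continuousWithinAt)
    have h2 : ∀ᶠ ρ in 𝓝[>] (0 : ℝ), ρ ∈ Iio (1 / (|C| + 1)) :=
      Filter.Eventually.filter_mono nhdsWithin_le_nhds (Iio_mem_nhds (by positivity))
    filter_upwards [h2, self_mem_nhdsWithin] with ρ hρ hρ0 x hx hgx
    refine (hC x ⟨hx, hgx⟩).trans ?_
    have hρ0 : 0 < ρ := hρ0
    have hρ : ρ < 1 / (|C| + 1) := hρ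
    rw [lt_div_iff₀ (by positivity)] at hρ
    rw [le_div_iff₀ hρ0]
    have := le_abs_self C
    nlinarith
  obtain ⟨ρ, h2, hρ⟩ := (h1.and self_mem_nhdsWithin).exists
  exact ⟨max 1 (1 / ρ), le_max_left _ _, fun b hb b' hb' x hx hgx =>
    (h2 b hb b' hb' x hx hgx).trans (le_max_right _ _)⟩

/-- Uniform continuity of the derivatives. -/
theorem Cov.fderiv_close {s : Finset M} {K : M → Set M} {ρ₀ : ℝ} (hc : Cov E s K ρ₀)
    {g : Dyn E M r} (hr : 1 ≤ r) {ε : ℝ} (hε : 0 < ε) : ∀ᶠ δ in 𝓝[>] (0 : ℝ), ∀ b ∈ s, ∀ b' ∈ s,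
      ∀ x ∈ K b, g x ∈ K b' → ∀ y ∈ K b, g y ∈ K b' → dist x y ≤ δ →
      ‖fderiv ℝ (chG g b b') (chartAt E b x) - fderiv ℝ (chG g b b') (chartAt E b y)‖ ≤ ε := by
  rw [Filter.eventually_all_finset]
  intro b hb
  rw [Filter.eventually_all_finset]
  intro b' hb'
  have hX : IsCompact (K b ∩ g ⁻¹' K b') :=
    (hc.cpt b hb).inter_right ((hc.cpt b' hb').isClosed.preimage g.continuous)
  have h1 := hX.uniformContinuousOn_of_continuous
    (f := fun y => fderiv ℝ (chG g b b') (chartAt E b y)) (fun x hx =>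
      (continuousAt_fderiv_chG hr (hc.src b hb hx.1) (hc.src b' hb' hx.2)).continuousWithinAt)
  obtain ⟨δ, hδ, h2⟩ := Metric.uniformContinuousOn_iff.1 h1 ε hε
  have h3 : ∀ᶠ ρ in 𝓝[>] (0 : ℝ), ρ ∈ Iio δ :=
    Filter.Eventually.filter_mono nhdsWithin_le_nhds (Iio_mem_nhds hδ)
  filter_upwards [h3] with δ' hδ' x hx hgx y hy hgy hxy
  have := h2 x ⟨hx, hgx⟩ y ⟨hy, hgy⟩ (hxy.trans_lt hδ')
  rw [dist_eq_norm] at this
  exact this.le

end OmSt
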