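import Pool.Agent.OmSt2.Piece

/-!
# Cycles of pieces
-/

open Set Filter Topology Metric

set_option linter.unusedSectionVars false

namespace OmSt

variable {X : Type*} [MetricSpace X] [CompactSpace X] {f : X ≃ₜ X}

/-- The set `U` isolates `P`. -/
def IsoS (f : X ≃ₜ X) (P U : Set X) : Prop := IsClosed U ∧ P ⊆ interior U ∧
  ∀ y, (∀ k : ℕ, f^[k] y ∈ U) → (∀ k : ℕ, f.symm^[k] y ∈ U) → y ∈ P

/-- Limits of cyclic pseudo-orbits which are not contained in a piece. -/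
def NTr (f : X ≃ₜ X) (L : Set X) : Prop := Trans f L ∧ ∀ P, Piece f P → ¬ L ⊆ P

theorem IsoS.subset {P U L : Set X} (hU : IsoS f P U) (hL : Trans f L) (hLU : L ⊆ U) : L ⊆ P :=
  fun y hy => hU.2.2 y (fun k => hLU (hL.iterate_mem f hy k))
    (fun k => hLU (hL.iterate_symm_mem f hy k))

/-- A closed set in the interior of an isolating set, with room. -/
theorem IsoS.exists_thick {P U L : Set X} (hU : IsoS f P U) (hL : IsClosed L) (hLP : L ⊆ P) :
    ∃ δ > 0, ∀ x, (∃ y ∈ L, dist x y < δ) → x ∈ U := by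
  obtain ⟨δ, hδ, hδU⟩ := hL.isCompact.exists_thickening_subset_open isOpen_interior
    (hLP.trans hU.2.1)
  exact ⟨δ, hδ, fun x hx => interior_subset (hδU (Metric.mem_thickening_iff.2 hx))⟩

/-- Limits of sets in different pieces are not contained in a piece. -/
theorem PH.exists_ntr_of_seq (hf : PH f) {P K : ℕ → Set X} (hP : ∀ k, Piece f (P k))
    (hinj : Function.Injective P) (hK : ∀ k, Trans f (K k)) (hKP : ∀ k, K k ⊆ P k) :
    ∃ L, NTr f L ∧ ∀ δ > 0, ∀ᶠ k in (hyperfilter ℕ : Filter ℕ),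
      (∀ x ∈ K k, ∃ y ∈ L, dist x y < δ) ∧ ∀ y ∈ L, ∃ x ∈ K k, dist y x < δ := by
  have hε : Tendsto (fun n : ℕ => 1 / ((n : ℝ) + 1)) atTop (𝓝 0) :=
    tendsto_one_div_add_atTop_nhds_zero_nat
  have h1 : ∀ k : ℕ, ∃ c N, IsCyc f (1 / ((k : ℝ) + 1)) c N ∧
      (∀ i, ∃ y ∈ K k, dist (c i) y < 1 / ((k : ℝ) + 1)) ∧
      ∀ y ∈ K k, ∃ i, dist y (c i) < 1 / ((k : ℝ) + 1) := fun k => (hK k).2.2 _ (by positivity)
  choose c N hc hcK hKc using h1
  obtain ⟨L, hL, h⟩ := exists_trans_of_cyc hc hε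
  have h2 : ∀ δ > 0, ∀ᶠ k in (hyperfilter ℕ : Filter ℕ),
      (∀ x ∈ K k, ∃ y ∈ L, dist x y < δ) ∧ ∀ y ∈ L, ∃ x ∈ K k, dist y x < δ := by
    intro δ hδ
    have h3 : ∀ᶠ k : ℕ in (hyperfilter ℕ : Filter ℕ), 1 / ((k : ℝ) + 1) < δ / 2 :=
      Nat.hyperfilter_le_atTop (hε.eventually (Iio_mem_nhds (half_pos hδ)))
    filter_upwards [h3, h (δ / 2) (half_pos hδ)] with k hk1 hk2
    refine ⟨fun x hx => ?_, fun y hy => ?_⟩
    · obtain ⟨i, hi⟩ := hKc k x hx
      obtain ⟨y, hy, hy'⟩ := hk2.1 i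
      refine ⟨y, hy, ?_⟩
      calc dist x y ≤ dist x (c k i) + dist (c k i) y := dist_triangle _ _ _
        _ < δ / 2 + δ / 2 := add_lt_add (hi.trans hk1) hy'
        _ = δ := by ring
    · obtain ⟨i, hi⟩ := hk2.2 y hy
      obtain ⟨x, hx, hx'⟩ := hcK k i
      refine ⟨x, hx, ?_⟩
      calc dist y x ≤ dist y (c k i) + dist (c k i) x := dist_triangle _ _ _
        _ < δ / 2 + δ / 2 := add_lt_add hi (hx'.trans hk1)
        _ = δ := by ring
  refine ⟨L, ⟨hL, fun Q hQ hLQ => ?_⟩, h2⟩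
  obtain ⟨U, hU⟩ := hf.isolated hQ
  have hU : IsoS f Q U := hU
  obtain ⟨δ, hδ, hδU⟩ := hU.exists_thick hL.1 hLQ
  have h4 : ∀ᶠ k in (hyperfilter ℕ : Filter ℕ), P k = Q := by
    filter_upwards [h2 δ hδ] with k hk
    have h5 : K k ⊆ Q := hU.subset (hK k) fun x hx => hδU x (hk.1 x hx)
    obtain ⟨x, hx⟩ := (hK k).2.1
    exact hf.piece_eq (hP k) hQ ⟨x, hKP k hx, h5 hx⟩
  have h5 : {k | P k = Q}.Finite := by
    refine Set.Subsingleton.finite fun a ha b hb => hinj ?_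
    have ha : P a = Q := ha
    have hb : P b = Q := hb
    rw [ha, hb]
  have h6 : ({k | P k = Q}ᶜ : Set ℕ) ∈ (hyperfilter ℕ : Filter ℕ) := h5.compl_mem_hyperfilter
  obtain ⟨k, hk1, hk2⟩ := (h4.and h6).exists
  exact hk2 hk1

/-- Existence of a minimal element of the class `NTr`. -/
theorem PH.exists_minimal (hf : PH f) {L₀ : Set X} (hL₀ : NTr f L₀) :
    ∃ L, NTr f L ∧ ∀ L', NTr f L' → L' ⊆ L → L' = L := by
  have hz := zorn_superset_nonempty {L | NTr f L} (fun 𝒞 h𝒞 hchain hne => ?_) L₀ hL₀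
  · obtain ⟨L, -, hL⟩ := hz
    exact ⟨L, hL.prop, fun L' hL' hsub => hL.eq_of_le hL' hsub |>.symm ▸ rfl⟩
  · have hcl : ∀ L ∈ 𝒞, IsClosed L := fun L hL => (h𝒞 hL).1.1
    have hdir : DirectedOn (· ⊇ ·) 𝒞 := by
      intro a ha b hb
      rcases eq_or_ne a b with rfl | hab
      · exact ⟨a, ha, subset_rfl, subset_rfl⟩
      · rcases hchain ha hb hab with h | h
        · exact ⟨a, ha, subset_rfl, h⟩
        · exact ⟨b, hb, h, subset_rfl⟩
    have hnem : (⋂₀ 𝒞).Nonempty := by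
      have := hne.to_subtype
      exact IsCompact.nonempty_sInter_of_directed_nonempty_isCompact_isClosed hdir
        (fun L hL => (h𝒞 hL).1.2.1) (fun L hL => (hcl L hL).isCompact) hcl
    have hnhd : ∀ U : Set X, IsOpen U → ⋂₀ 𝒞 ⊆ U → ∃ L ∈ 𝒞, L ⊆ U := by
      intro U hU hsub
      have := hne.to_subtype
      obtain ⟨⟨L, hL⟩, hLU⟩ := exists_subset_nhds_of_isCompact' (V := fun L : 𝒞 => (L : Set X))
        (by
          intro a b
          obtain ⟨c, hc, h1, h2⟩ := hdir a a.2 b b.2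
          exact ⟨⟨c, hc⟩, h1, h2⟩)
        (fun L => (hcl L L.2).isCompact) (fun L => hcl L L.2) (U := U) (fun x hx => by
          rw [← sInter_eq_iInter] at hx
          exact hU.mem_nhds (hsub hx))
      exact ⟨L, hL, hLU⟩
    refine ⟨⋂₀ 𝒞, ⟨⟨isClosed_sInter hcl, hnem, fun ε hε => ?_⟩, fun P hP hLP => ?_⟩,
      fun L hL => sInter_subset_of_mem hL⟩
    · obtain ⟨L, hL, hLU⟩ := hnhd (thickening (ε / 2) (⋂₀ 𝒞)) isOpen_thickening
        (self_subset_thickening (by positivity) _)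
      obtain ⟨c, N, hc, h1, h2⟩ := (h𝒞 hL).1.2.2 (ε / 2) (by positivity)
      refine ⟨c, N, ⟨hc.1, hc.2.1, fun i => (hc.2.2 i).trans (by linarith)⟩, fun i => ?_,
        fun y hy => ?_⟩
      · obtain ⟨y, hy, hy'⟩ := h1 i
        obtain ⟨z, hz, hz'⟩ := Metric.mem_thickening_iff.1 (hLU hy)
        refine ⟨z, hz, ?_⟩
        calc dist (c i) z ≤ dist (c i) y + dist y z := dist_triangle _ _ _
          _ < ε / 2 + ε / 2 := add_lt_add hy' hz'
          _ = ε := by ring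
      · obtain ⟨i, hi⟩ := h2 y (sInter_subset_of_mem hL hy)
        exact ⟨i, hi.trans (by linarith)⟩
    · obtain ⟨U, hU⟩ := hf.isolated hP
      obtain ⟨L, hL, hLU⟩ := hnhd (interior U) isOpen_interior (hLP.trans hU.2.1)
      exact (h𝒞 hL).2 P hP (IsoS.subset hU (h𝒞 hL).1 (hLU.trans interior_subset))

/-- **Leaving a piece.** -/
theorem exists_outgoing' {P : Set X} (hPf : ZInv f P) {U : Set X}
    (hU : IsoS f P U) {L : Set X} (hL : Trans f L) {p : X} (hpP : p ∈ P) (hpL : p ∈ L)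
    (hne : ¬ L ⊆ P) :
    ∃ y ∈ L, y ∉ interior U ∧ ∀ j : ℕ, f.symm^[j + 1] y ∈ U := by
  -- a point of `L` outside `U`
  have hnot : ¬ L ⊆ U := fun h => hne (hU.subset hL h)
  obtain ⟨l, hlL, hlU⟩ := not_subset.1 hnot
  obtain ⟨r, hr, hrU⟩ := Metric.isOpen_iff.1 hU.1.isOpen_compl l hlU
  have h1 : ∀ n : ℕ, ∃ c N, IsCyc f (1 / ((n : ℝ) + 1)) c N ∧
      (∀ i, ∃ y ∈ L, dist (c i) y < 1 / ((n : ℝ) + 1)) ∧
      ∀ y ∈ L, ∃ i, dist y (c i) < 1 / ((n : ℝ) + 1) := fun n => hL.2.2 _ (by positivity)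
  choose c N hc hcL hLc using h1
  have hlim0 : Tendsto (fun n : ℕ => 1 / ((n : ℝ) + 1)) atTop (𝓝 0) :=
    tendsto_one_div_add_atTop_nhds_zero_nat
  choose a ha using fun n => hLc n p hpL
  choose b hb using fun n => hLc n l hlL
  -- exit times
  have hper : ∀ n i k, c n (i + k * N n) = c n i := by
    intro n i k
    induction k with
    | zero => simp
    | succ k ih =>
      have : i + (k + 1) * N n = (i + k * N n) + N n := by ring
      rw [this, (hc n).2.1, ih]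
  have hexit : ∀ n : ℕ, ∃ t, 1 / ((n : ℝ) + 1) < r → c n (a n + t) ∉ U := by
    intro n
    refine ⟨b n + a n * N n - a n, fun hn => ?_⟩
    have hN := (hc n).1
    have e : a n + (b n + a n * N n - a n) = b n + a n * N n := by
      have : a n ≤ a n * N n := Nat.le_mul_of_pos_right _ hN
      omega
    rw [e, hper]
    intro hcU
    have : c n (b n) ∈ ball l r := by
      rw [mem_ball, dist_comm]
      exact (hb n).trans hn
    exact hrU this hcU
  classical
  have hexit2 : ∀ n : ℕ, ∃ t, (1 / ((n : ℝ) + 1) < r → c n (a n + t) ∉ U) ∧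
      ∀ j < t, c n (a n + j) ∈ U := by
    intro n
    by_cases hn : 1 / ((n : ℝ) + 1) < r
    · have hE : ∃ t, c n (a n + t) ∉ U := by
        obtain ⟨t, ht⟩ := hexit n
        exact ⟨t, ht hn⟩
      refine ⟨Nat.find hE, fun _ => Nat.find_spec hE, fun j hj => ?_⟩
      have := Nat.find_min hE hj
      rwa [not_not] at this
    · exact ⟨0, fun h => absurd h hn, fun j hj => absurd hj (Nat.not_lt_zero _)⟩
  choose t ht1 ht2 using hexit2
  -- convergence along an ultrafilter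
  set 𝒰 : Ultrafilter ℕ := hyperfilter ℕ with h𝒰
  have h𝒰le : (𝒰 : Filter ℕ) ≤ atTop := Nat.hyperfilter_le_atTop
  have hev : ∀ᶠ n : ℕ in (𝒰 : Filter ℕ), 1 / ((n : ℝ) + 1) < r :=
    h𝒰le (hlim0.eventually (Iio_mem_nhds hr))
  obtain ⟨y, -, hy⟩ := isCompact_univ.ultrafilter_le_nhds (𝒰.map (fun n => c n (a n + t n)))
    (by simp)
  have hy : Tendsto (fun n => c n (a n + t n)) 𝒰 (𝓝 y) := hy
  have hstep : Tendsto (fun n : ℕ => 1 / ((n : ℝ) + 1)) 𝒰 (𝓝 0) := hlim0.mono_left h𝒰le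
  -- forward convergence from `p`
  have hfw : ∀ j : ℕ, Tendsto (fun n => c n (a n + j)) 𝒰 (𝓝 (f^[j] p)) := by
    intro j
    induction j with
    | zero =>
      simp only [add_zero, Function.iterate_zero, id_eq]
      rw [tendsto_iff_dist_tendsto_zero]
      refine squeeze_zero (fun _ => dist_nonneg) (fun n => ?_) hstep
      rw [dist_comm]
      exact (ha n).le
    | succ j ih =>
      have h2 : Tendsto (fun n => f (c n (a n + j))) 𝒰 (𝓝 (f^[j + 1] p)) := by
        rw [Function.iterate_succ_apply']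
        exact (f.continuous.tendsto _).comp ih
      rw [tendsto_iff_dist_tendsto_zero] at h2 ⊢
      have hsum : Tendsto (fun n : ℕ => 1 / ((n : ℝ) + 1) + dist (f (c n (a n + j))) (f^[j + 1] p)) 𝒰
          (𝓝 0) := by simpa using hstep.add h2
      refine squeeze_zero (fun _ => dist_nonneg) (fun n => ?_) hsum
      have h3 := (hc n).2.2 (a n + j)
      calc dist (c n (a n + (j + 1))) (f^[j + 1] p)
          ≤ dist (f (c n (a n + j))) (c n (a n + (j + 1))) +
            dist (f (c n (a n + j))) (f^[j + 1] p) := dist_triangle_left _ _ _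
        _ ≤ 1 / ((n : ℝ) + 1) + dist (f (c n (a n + j))) (f^[j + 1] p) :=
            add_le_add h3.le le_rfl
  have htlarge : ∀ j : ℕ, ∀ᶠ n in (𝒰 : Filter ℕ), j < t n := by
    intro j
    have h4 : ∀ᶠ n in (𝒰 : Filter ℕ), ∀ i ∈ Set.Iic j, c n (a n + i) ∈ U := by
      rw [eventually_all_finite (Set.finite_Iic j)]
      intro i _
      have h5 : f^[i] p ∈ interior U := hU.2.1 (hPf.mapsTo.iterate i hpP)
      exact ((hfw i).eventually (isOpen_interior.mem_nhds h5)).mono fun n hn =>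
        interior_subset hn
    filter_upwards [h4, hev] with n hn hn'
    by_contra hcon
    exact ht1 n hn' (hn (t n) (Set.mem_Iic.2 (not_lt.1 hcon)))
  -- backward convergence to the orbit of `y`
  have hbw : ∀ j : ℕ, Tendsto (fun n => c n (a n + t n - j)) 𝒰 (𝓝 (f.symm^[j] y)) := by
    intro j
    induction j with
    | zero => simpa using hy
    | succ j ih =>
      have h6 : Tendsto (fun n => f (c n (a n + t n - (j + 1)))) 𝒰 (𝓝 (f.symm^[j] y)) := by
        rw [tendsto_iff_dist_tendsto_zero] at ih ⊢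
        have hsum : Tendsto (fun n : ℕ => 1 / ((n : ℝ) + 1) +
            dist (c n (a n + t n - j)) (f.symm^[j] y)) 𝒰 (𝓝 0) := by simpa using hstep.add ih
        refine squeeze_zero' (Eventually.of_forall fun _ => dist_nonneg) ?_ hsum
        filter_upwards [htlarge j] with n hn
        have h3 := (hc n).2.2 (a n + t n - (j + 1))
        have e : a n + t n - (j + 1) + 1 = a n + t n - j := by omega
        rw [e] at h3
        calc dist (f (c n (a n + t n - (j + 1)))) (f.symm^[j] y)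
            ≤ dist (f (c n (a n + t n - (j + 1)))) (c n (a n + t n - j)) +
              dist (c n (a n + t n - j)) (f.symm^[j] y) := dist_triangle _ _ _
          _ ≤ 1 / ((n : ℝ) + 1) + dist (c n (a n + t n - j)) (f.symm^[j] y) :=
              add_le_add h3.le le_rfl
      have h7 := (f.symm.continuous.tendsto _).comp h6
      rw [Function.iterate_succ_apply']
      refine h7.congr fun n => ?_
      simp
  refine ⟨y, ?_, ?_, fun j => ?_⟩
  · rw [← hL.1.closure_eq, Metric.mem_closure_iff]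
    intro ε hε
    have h8 : ∀ᶠ n : ℕ in (𝒰 : Filter ℕ), 1 / ((n : ℝ) + 1) < ε / 2 :=
      hstep.eventually (Iio_mem_nhds (by positivity))
    have h9 : ∀ᶠ n in (𝒰 : Filter ℕ), dist (c n (a n + t n)) y < ε / 2 :=
      hy.eventually (ball_mem_nhds y (by positivity))
    obtain ⟨n, hn1, hn2⟩ := (h8.and h9).exists
    obtain ⟨z, hz, hz'⟩ := hcL n (a n + t n)
    refine ⟨z, hz, ?_⟩
    calc dist y z ≤ dist (c n (a n + t n)) y + dist (c n (a n + t n)) z :=
          dist_triangle_left _ _ _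
      _ < ε / 2 + ε / 2 := add_lt_add hn2 (hz'.trans hn1)
      _ = ε := by ring
  · intro hyU
    have h10 : ∀ᶠ n in (𝒰 : Filter ℕ), c n (a n + t n) ∈ interior U :=
      hy.eventually (isOpen_interior.mem_nhds hyU)
    obtain ⟨n, hn1, hn2⟩ := (h10.and hev).exists
    exact ht1 n hn2 (interior_subset hn1)
  · refine hU.1.mem_of_tendsto (hbw (j + 1)) ?_
    filter_upwards [htlarge j] with n hn
    have e : a n + t n - (j + 1) = a n + (t n - (j + 1)) := by omega
    rw [e]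
    exact ht2 n _ (by omega)

/-- `ω`-limit sets inside a minimal set of the class `NTr` are contained in pieces. -/
theorem PH.omegaL_sub (hf : PH f) {L : Set X} (hL : NTr f L)
    (hmin : ∀ L', NTr f L' → L' ⊆ L → L' = L) {y : X} (hy : y ∈ L) :
    ∃ P, Piece f P ∧ omegaL f y ⊆ P ∧ omegaL f y ⊆ L := by
  have hsub : omegaL f y ⊆ L := omegaL_subset hL.1.1 (hL.1.mapsTo f) hy
  by_cases hNT : NTr f (omegaL f y)
  · have h1 := hmin _ hNT hsub
    have h2 : Recurrent f y := recurrent_of_mem (h1 ▸ hy)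
    obtain ⟨P, hP, h3⟩ := hf.exists_piece ⟨y, h2, rfl⟩
    exact absurd h3 (hNT.2 P hP)
  · have h1 : ∃ P, Piece f P ∧ omegaL f y ⊆ P := by
      by_contra hcon
      push Not at hcon
      exact hNT ⟨trans_omegaL f y, hcon⟩
    obtain ⟨P, hP, h2⟩ := h1
    exact ⟨P, hP, h2, hsub⟩

/-- The Baire argument. -/
theorem PH.exists_open_stable (hf : PH f) {L : Set X} (hL : NTr f L)
    (hmin : ∀ L', NTr f L' → L' ⊆ L → L' = L) :
    ∃ P, Piece f P ∧ ∃ U, IsoS f P U ∧ ∃ n : ℕ, ∃ V : Set X, IsOpen V ∧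
      (V ∩ L).Nonempty ∧ ∀ x ∈ V ∩ L, ∀ k ≥ n, f^[k] x ∈ U := by
  classical
  have hcount' := hf.countable.to_subtype
  choose U hU using fun P : {P | Piece f P} => hf.isolated P.2
  have : CompactSpace L := isCompact_iff_compactSpace.1 hL.1.1.isCompact
  have : Nonempty L := hL.1.2.1.to_subtype
  set F : ({P | Piece f P} × ℕ) → Set L :=
    fun a => {x | ∀ k ≥ a.2, f^[k] (x : X) ∈ U a.1} with hF
  have hFc : ∀ a, IsClosed (F a) := by
    intro a
    have : F a = ⋂ k ≥ a.2, {x : L | f^[k] (x : X) ∈ U a.1} := by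
      ext x
      simp [hF]
    rw [this]
    refine isClosed_biInter fun k _ => (hU a.1).1.preimage ?_
    exact (f.continuous.iterate k).comp continuous_subtype_val
  have hFU : ⋃ a, F a = univ := by
    refine eq_univ_of_forall fun x => ?_
    obtain ⟨P, hP, h1, -⟩ := hf.omegaL_sub hL hmin x.2
    obtain ⟨δ, hδ, hδU⟩ := IsoS.exists_thick (hU ⟨P, hP⟩) (isClosed_omegaL f (x : X)) h1
    obtain ⟨N, hN⟩ := eventually_near_omegaL f (x : X) hδ
    exact mem_iUnion.2 ⟨(⟨P, hP⟩, N), fun k hk => hδU _ (hN k hk)⟩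
  obtain ⟨a, ha⟩ := nonempty_interior_of_iUnion_of_closed hFc hFU
  obtain ⟨V, hV, hVa⟩ := isOpen_induced_iff.1 (isOpen_interior (s := F a))
  refine ⟨a.1, a.1.2, U a.1, hU a.1, a.2, V, hV, ?_, fun x hx k hk => ?_⟩
  · obtain ⟨x, hx⟩ := ha
    rw [← hVa] at hx
    exact ⟨x, hx, x.2⟩
  · have h1 : (⟨x, hx.2⟩ : L) ∈ interior (F a) := by
      rw [← hVa]
      exact hx.1
    exact interior_subset h1 k hk

/-- A minimal set of the class `NTr` meets only finitely many pieces. -/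
theorem PH.finite_pieces (hf : PH f) {L : Set X} (hL : NTr f L)
    (hmin : ∀ L', NTr f L' → L' ⊆ L → L' = L) : {P | Piece f P ∧ (P ∩ L).Nonempty}.Finite := by
  by_contra hinf
  have hinf : {P | Piece f P ∧ (P ∩ L).Nonempty}.Infinite := hinf
  obtain ⟨Q, hQ, U, hU, n, V, hV, hVL, hVU⟩ := hf.exists_open_stable hL hmin
  set P : ℕ → Set X := fun k => (hinf.natEmbedding _ k : Set X) with hPdef
  have hP : ∀ k, Piece f (P k) := fun k => (hinf.natEmbedding _ k).2.1
  have hPL : ∀ k, (P k ∩ L).Nonempty := fun k => (hinf.natEmbedding _ k).2.2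
  have hPi : Function.Injective P :=
    Subtype.val_injective.comp (hinf.natEmbedding _).injective
  choose x hx using hPL
  have hKP : ∀ k, omegaL f (x k) ⊆ P k := fun k =>
    omegaL_subset (hP k).1.isClosed (hP k).1.zinv.mapsTo (hx k).1
  have hKL : ∀ k, omegaL f (x k) ⊆ L := fun k => omegaL_subset hL.1.1 (hL.1.mapsTo f) (hx k).2
  obtain ⟨L', hL', hlim⟩ := hf.exists_ntr_of_seq hP hPi (fun k => trans_omegaL f (x k)) hKP
  have hsub : L' ⊆ L := by
    intro z hz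
    rw [← hL.1.1.closure_eq, Metric.mem_closure_iff]
    intro ε hε
    obtain ⟨k, hk⟩ := (hlim ε hε).exists
    obtain ⟨w, hw, hw'⟩ := hk.2 z hz
    exact ⟨w, hKL k hw, hw'⟩
  have hLL := hmin L' hL' hsub
  obtain ⟨v, hvV, hvL⟩ := hVL
  obtain ⟨δ, hδ, hδV⟩ := Metric.isOpen_iff.1 hV v hvV
  have h2 : ∀ᶠ k in (hyperfilter ℕ : Filter ℕ), P k = Q := by
    filter_upwards [hlim δ hδ] with k hk
    obtain ⟨z, hz, hz'⟩ := hk.2 v (hLL ▸ hvL)
    have hzV : z ∈ V ∩ L := ⟨hδV (by rwa [mem_ball, dist_comm]), hKL k hz⟩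
    have h3 := hVU z hzV
    have h4 : omegaL f z ⊆ U := by
      intro w hw
      rw [← hU.1.closure_eq, Metric.mem_closure_iff]
      intro ε hε
      obtain ⟨j, hj, hj'⟩ := mem_omegaL_iff.1 hw ε hε n
      exact ⟨_, h3 j hj, by rwa [dist_comm]⟩
    have h5 : omegaL f z ⊆ Q := hU.subset (trans_omegaL f z) h4
    have h6 : omegaL f z ⊆ P k := omegaL_subset (hP k).1.isClosed (hP k).1.zinv.mapsTo (hKP k hz)
    obtain ⟨w, hw⟩ := omegaL_nonempty f z
    exact hf.piece_eq (hP k) hQ ⟨w, h6 hw, h5 hw⟩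
  have h3 : {k | P k = Q}.Finite := by
    refine Set.Subsingleton.finite fun a ha b hb => hPi ?_
    have ha : P a = Q := ha
    have hb : P b = Q := hb
    rw [ha, hb]
  have h4 : ({k | P k = Q}ᶜ : Set ℕ) ∈ (hyperfilter ℕ : Filter ℕ) := h3.compl_mem_hyperfilter
  obtain ⟨k, hk1, hk2⟩ := (h2.and h4).exists
  exact hk2 hk1

/-- A point which goes from the set `P` to the set `Q`. -/
structure Goes (f : X ≃ₜ X) (P Q : Set X) (y : X) : Prop where
  bwd : omegaL f.symm y ⊆ P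
  fwd : omegaL f y ⊆ Q

/-- From every piece which meets a minimal set there is a connection. -/
theorem PH.exists_conn (hf : PH f) {L : Set X} (hL : NTr f L)
    (hmin : ∀ L', NTr f L' → L' ⊆ L → L' = L) {P : Set X} (hP : Piece f P)
    (hPL : (P ∩ L).Nonempty) :
    ∃ Q, Piece f Q ∧ (Q ∩ L).Nonempty ∧ ∃ y, (∀ Q, Piece f Q → y ∉ Q) ∧ Goes f P Q y := by
  obtain ⟨p, hpP, hpL⟩ := hPL
  obtain ⟨U, hU⟩ := hf.isolated hP
  have hU : IsoS f P U := hU
  obtain ⟨y, hyL, hyU, hyb⟩ := exists_outgoing' hP.1.zinv hU hL.1 hpP hpL (hL.2 P hP)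
  obtain ⟨Q, hQ, hyQ, hyL'⟩ := hf.omegaL_sub hL hmin hyL
  -- the backward limit set
  have hα : omegaL f.symm y ⊆ P := by
    intro z hz
    have hzU : ∀ w ∈ omegaL f.symm y, w ∈ U := by
      intro w hw
      rw [← hU.1.closure_eq, Metric.mem_closure_iff]
      intro ε hε
      obtain ⟨n, hn, hn'⟩ := mem_omegaL_iff.1 hw ε hε 1
      obtain ⟨j, rfl⟩ := Nat.exists_eq_add_of_le' hn
      exact ⟨_, hyb j, by rwa [dist_comm]⟩
    have hT := trans_omegaL (f := f.symm) y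
    refine hU.2.2 z (fun k => ?_) (fun k => ?_)
    · exact hzU _ (hT.iterate_symm_mem f.symm hz k)
    · exact hzU _ (hT.iterate_mem f.symm hz k)
  obtain ⟨w, hw⟩ := omegaL_nonempty f y
  refine ⟨Q, hQ, ⟨w, hyQ hw, hyL' hw⟩, y, fun Q' hQ' hyQ' => ?_, hα, hyQ⟩
  -- `y` is in no piece
  have hinv : MapsTo f.symm Q' Q' := by
    intro x hx
    have h1 := hQ'.1.zinv x hx (-1)
    have e1 : zi f.toEquiv (-1) x = f.symm x := by
      have := zi_neg f.toEquiv 1 x
      simpa using this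
    rwa [e1] at h1
  have h1 : omegaL f.symm y ⊆ Q' := by
    have := omegaL_subset (f := f.symm) hQ'.1.isClosed hinv hyQ'
    exact this
  obtain ⟨v, hv⟩ := omegaL_nonempty f.symm y
  have h2 : Q' = P := hf.piece_eq hQ' hP ⟨v, h1 hv, hα hv⟩
  rw [h2] at hyQ'
  exact hyU (hU.2.1 hyQ')

/-- A cycle of pieces. -/
structure PCyc (f : X ≃ₜ X) (n : ℕ) (P : ℕ → Set X) (y : ℕ → X) : Prop where
  hn : 0 < n
  piece : ∀ i ≤ n, Piece f (P i)
  close : P n = P 0
  inj : ∀ i < n, ∀ j < n, P i = P j → i = j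
  out : ∀ i < n, ∀ Q, Piece f Q → y i ∉ Q
  goes : ∀ i < n, Goes f (P i) (P (i + 1)) (y i)

/-- **Existence of a cycle.** -/
theorem PH.exists_cycle (hf : PH f)
    (h : ¬ ({P | Piece f P}.Finite ∧ nonwandering f ⊆ ⋃₀ {P | Piece f P})) :
    ∃ n P y, PCyc f n P y := by
  classical
  obtain ⟨L₀, hL₀⟩ : ∃ L, NTr f L := by
    by_cases hΩ : nonwandering f ⊆ ⋃₀ {P | Piece f P}
    · have hinf : {P | Piece f P}.Infinite := fun h' => h ⟨h', hΩ⟩
      obtain ⟨L, hL, -⟩ := hf.exists_ntr_of_seq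
        (P := fun k => (hinf.natEmbedding _ k : Set X)) (K := fun k => (hinf.natEmbedding _ k : Set X))
        (fun k => (hinf.natEmbedding _ k).2)
        (Subtype.val_injective.comp (hinf.natEmbedding _).injective)
        (fun k => (hinf.natEmbedding _ k).2.1.trans) (fun k => subset_rfl)
      exact ⟨L, hL⟩
    · obtain ⟨x, hx, hx'⟩ := not_subset.1 hΩ
      obtain ⟨L, hL, hxL⟩ := exists_trans_of_nonwandering hx
      exact ⟨L, hL, fun P hP hLP => hx' ⟨P, hP, hLP hxL⟩⟩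
  obtain ⟨L, hL, hmin⟩ := hf.exists_minimal hL₀
  have hfin := hf.finite_pieces hL hmin
  set 𝒮 : Set (Set X) := {P | Piece f P ∧ (P ∩ L).Nonempty} with h𝒮
  have hstep : ∀ P : 𝒮, ∃ Q : 𝒮, ∃ y, (∀ Q, Piece f Q → y ∉ Q) ∧ Goes f P Q y := by
    intro P
    obtain ⟨Q, h1, h2, h3⟩ := hf.exists_conn hL hmin P.2.1 P.2.2
    exact ⟨⟨Q, h1, h2⟩, h3⟩
  choose φ y hy1 hy2 using hstep
  obtain ⟨x, hx⟩ := hL.1.2.1
  obtain ⟨P₀, hP₀, h1, h2⟩ := hf.omegaL_sub hL hmin hx
  obtain ⟨w, hw⟩ := omegaL_nonempty f x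
  set p₀ : 𝒮 := ⟨P₀, hP₀, w, h1 hw, h2 hw⟩ with hp₀
  have : Finite 𝒮 := hfin
  have hrep : ∃ b : ℕ, ∃ a < b, φ^[a] p₀ = φ^[b] p₀ := by
    obtain ⟨a, b, hne, heq⟩ := Finite.exists_ne_map_eq_of_infinite (fun k : ℕ => φ^[k] p₀)
    rcases lt_or_gt_of_ne hne with h1 | h1
    · exact ⟨b, a, h1, heq⟩
    · exact ⟨a, b, h1, heq.symm⟩
  obtain ⟨a, hab, hab'⟩ := Nat.find_spec hrep
  set b := Nat.find hrep with hb
  have hmin' : ∀ i j, i < j → j < b → φ^[i] p₀ ≠ φ^[j] p₀ := fun i j hij hj heq =>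
    Nat.find_min hrep hj ⟨i, hij, heq⟩
  refine ⟨b - a, fun i => (φ^[a + i] p₀ : 𝒮), fun i => y (φ^[a + i] p₀), by omega,
    fun i _ => (φ^[a + i] p₀).2.1, ?_, fun i hi j hj hij => ?_,
    fun i _ => hy1 (φ^[a + i] p₀), fun i _ => ?_⟩
  · have : a + (b - a) = b := by omega
    simp only [this, add_zero]
    rw [hab']
  · by_contra hne
    have h3 : φ^[a + i] p₀ = φ^[a + j] p₀ := Subtype.ext hij
    rcases lt_or_gt_of_ne hne with h4 | h4
    · exact hmin' (a + i) (a + j) (by omega) (by omega) h3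
    · exact hmin' (a + j) (a + i) (by omega) (by omega) h3.symm
  · have h3 := hy2 (φ^[a + i] p₀)
    rw [← Function.iterate_succ_apply' φ (a + i)] at h3
    exact h3

end OmSt
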