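import Pool.Agent.OmSt2.Orb

/-!
# Uniform dichotomies along a homoclinic orbit
-/

open Set Filter Topology Manifold ContDiff Metric

set_option linter.unusedSectionVars false

namespace OmSt

variable {E : Type*} [NormedAddCommGroup E] [NormedSpace ℝ E] [FiniteDimensional ℝ E]
  {M : Type*} [MetricSpace M] [CompactSpace M] [ChartedSpace E M] [IsManifold 𝓘(ℝ, E) ∞ M]
  {r : ℕ∞}

/-- Bounds for the derivatives of the coordinate changes. -/
theorem exists_bound_change₂ {s s' : Finset M} {K K' : M → Set M}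
    (hc : ∀ b ∈ s, IsCompact (K b) ∧ K b ⊆ (chartAt E b).source)
    (hc' : ∀ b ∈ s', IsCompact (K' b) ∧ K' b ⊆ (chartAt E b).source) :
    ∃ C : ℝ, 1 ≤ C ∧ ∀ b ∈ s, ∀ b' ∈ s',
      ∀ x ∈ K b, x ∈ K' b' → ‖(Dc b' x : E →L[ℝ] E) * Dc' b x‖ ≤ C := by
  have h1 : ∀ᶠ ρ in 𝓝[>] (0 : ℝ), ∀ b ∈ s, ∀ b' ∈ s', ∀ x ∈ K b, x ∈ K' b' →
      ‖(Dc b' x : E →L[ℝ] E) * Dc' b x‖ ≤ 1 / ρ := by
    rw [Filter.eventually_all_finset]
    intro b hb
    rw [Filter.eventually_all_finset]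
    intro b' hb'
    have hX : IsCompact (K b ∩ K' b') := (hc b hb).1.inter (hc' b' hb').1
    have hR : (1 : ℕ∞) ≤ 1 := le_rfl
    obtain ⟨C, hC⟩ := hX.exists_bound_of_continuousOn
      (f := fun y => fderiv ℝ (chG (Diffeomorph.refl 𝓘(ℝ, E) M (1 : ℕ∞)) b b') (chartAt E b y))
      (fun x hx => (continuousAt_fderiv_chG (g := Diffeomorph.refl 𝓘(ℝ, E) M (1 : ℕ∞)) hR
        ((hc b hb).2 hx.1) ((hc' b' hb').2 hx.2)).continuousWithinAt)
    have h2 : ∀ᶠ ρ in 𝓝[>] (0 : ℝ), ρ ∈ Iio (1 / (|C| + 1)) :=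
      Filter.Eventually.filter_mono nhdsWithin_le_nhds (Iio_mem_nhds (by positivity))
    filter_upwards [h2, self_mem_nhdsWithin] with ρ hρ hρ0 x hx hgx
    have h3 : (Dc b' x : E →L[ℝ] E) * Dc' b x =
        fderiv ℝ (chG (Diffeomorph.refl 𝓘(ℝ, E) M (1 : ℕ∞)) b b') (chartAt E b x) := by
      have h4 := fderiv_chG (G := (Diffeomorph.refl 𝓘(ℝ, E) M (1 : ℕ∞) : M → M)) (b := b)
        (b' := b') (x := x) (Dyn.mdiff (Diffeomorph.refl 𝓘(ℝ, E) M (1 : ℕ∞)) hR x)
        ((hc b hb).2 hx) ((hc' b' hb').2 hgx)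
      rw [h4]
      have h5 : (D (Diffeomorph.refl 𝓘(ℝ, E) M (1 : ℕ∞) : M → M) x : E →L[ℝ] E) = 1 := D_id x
      rw [h5, mul_one]
      rfl
    rw [h3]
    refine (hC x ⟨hx, hgx⟩).trans ?_
    have hρ0 : 0 < ρ := hρ0
    have hρ : ρ < 1 / (|C| + 1) := hρ
    rw [lt_div_iff₀ (by positivity)] at hρ
    rw [le_div_iff₀ hρ0]
    have := le_abs_self C
    nlinarith
  obtain ⟨ρ, h2, hρ⟩ := (h1.and self_mem_nhdsWithin).exists
  exact ⟨max 1 (1 / ρ), le_max_left _ _, fun b hb b' hb' x hx hgx =>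
    (h2 b hb b' hb' x hx hgx).trans (le_max_right _ _)⟩

theorem Cov.dich_change {s : Finset M} {K : M → Set M} {ρ₀ : ℝ} (hc : Cov E s K ρ₀)
    {g : Dyn E M r} (hr : 1 ≤ r) {C : ℝ} (hC : ∀ b ∈ s, ∀ b' ∈ s, ∀ x ∈ K b, x ∈ K b' →
      ‖(Dc b' x : E →L[ℝ] E) * Dc' b x‖ ≤ C) {x : M} {i i' : ℤ → M}
    (hi : ∀ n, i n ∈ s ∧ zi g.toEquiv n x ∈ K (i n))
    (hi' : ∀ n, i' n ∈ s ∧ zi g.toEquiv n x ∈ K (i' n)) {κ : ℝ} (hκ : 0 ≤ κ)
    (hD : Dich (fun n => fderiv ℝ (chG g (i n) (i (n + 1)))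
      (chartAt E (i n) (zi g.toEquiv n x))) κ) :
    Dich (fun n => fderiv ℝ (chG g (i' n) (i' (n + 1)))
      (chartAt E (i' n) (zi g.toEquiv n x))) (C * κ * C) := by
  have hs : ∀ n, zi g.toEquiv n x ∈ (chartAt E (i n)).source := fun n =>
    hc.src _ (hi n).1 (hi n).2
  have hs' : ∀ n, zi g.toEquiv n x ∈ (chartAt E (i' n)).source := fun n =>
    hc.src _ (hi' n).1 (hi' n).2
  have hD2 := hD.conj hκ (L := fun n => (Dc (i' n) (zi g.toEquiv n x) : E →L[ℝ] E) *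
      Dc' (i n) (zi g.toEquiv n x))
    (L' := fun n => (Dc (i n) (zi g.toEquiv n x) : E →L[ℝ] E) * Dc' (i' n) (zi g.toEquiv n x))
    (C := C) (fun n => ?_) (fun n => ?_)
    (fun n => hC _ (hi n).1 _ (hi' n).1 _ (hi n).2 (hi' n).2)
    (fun n => hC _ (hi' n).1 _ (hi n).1 _ (hi' n).2 (hi n).2)
  · convert hD2 using 2 with n
    have hgx : g (zi g.toEquiv n x) = zi g.toEquiv (n + 1) x := (zi_succ_apply g n x).symm
    rw [fderiv_chG (Dyn.mdiff g hr _) (hs' n) (by rw [hgx]; exact hs' (n + 1)),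
      fderiv_chG (Dyn.mdiff g hr _) (hs n) (by rw [hgx]; exact hs (n + 1)), hgx]
    have a1 := (Dc_mul (hs (n + 1))).2
    have a2 := (Dc_mul (hs n)).2
    calc (Dc (i' (n + 1)) (zi g.toEquiv (n + 1) x) : E →L[ℝ] E) * D g (zi g.toEquiv n x) *
          Dc' (i' n) (zi g.toEquiv n x)
        = (Dc (i' (n + 1)) (zi g.toEquiv (n + 1) x) : E →L[ℝ] E) *
          ((Dc' (i (n + 1)) (zi g.toEquiv (n + 1) x) : E →L[ℝ] E) *
            Dc (i (n + 1)) (zi g.toEquiv (n + 1) x)) * D g (zi g.toEquiv n x) *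
          ((Dc' (i n) (zi g.toEquiv n x) : E →L[ℝ] E) * Dc (i n) (zi g.toEquiv n x)) *
          Dc' (i' n) (zi g.toEquiv n x) := by rw [a1, a2, mul_one, mul_one]
      _ = _ := by simp only [mul_assoc]
  · have a1 := (Dc_mul (hs n)).2
    have a2 := (Dc_mul (hs' n)).1
    calc _ = (Dc (i' n) (zi g.toEquiv n x) : E →L[ℝ] E) *
          ((Dc' (i n) (zi g.toEquiv n x) : E →L[ℝ] E) * Dc (i n) (zi g.toEquiv n x)) *
          Dc' (i' n) (zi g.toEquiv n x) := by simp only [mul_assoc]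
      _ = 1 := by rw [a1, mul_one, a2]
  · have a1 := (Dc_mul (hs' n)).2
    have a2 := (Dc_mul (hs n)).1
    calc _ = (Dc (i n) (zi g.toEquiv n x) : E →L[ℝ] E) *
          ((Dc' (i' n) (zi g.toEquiv n x) : E →L[ℝ] E) * Dc (i' n) (zi g.toEquiv n x)) *
          Dc' (i n) (zi g.toEquiv n x) := by simp only [mul_assoc]
      _ = 1 := by rw [a1, mul_one, a2]

/-- Uniform dichotomies along an orbit. -/
theorem DHyp.of_one {s : Finset M} {K : M → Set M} {ρ₀ : ℝ} (hc : Cov E s K ρ₀)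
    {g : Dyn E M r} (hr : 1 ≤ r) {x : M} {i : ℤ → M}
    (hi : ∀ n, i n ∈ s ∧ zi g.toEquiv n x ∈ K (i n)) {κ : ℝ} (hκ : 0 ≤ κ)
    (hD : Dich (fun n => fderiv ℝ (chG g (i n) (i (n + 1)))
      (chartAt E (i n) (zi g.toEquiv n x))) κ) :
    ∃ κ', DHyp s K g (Orb g.toHomeomorph x) κ' := by
  obtain ⟨C, hC1, hC⟩ := exists_bound_change hc hc
  refine ⟨C * κ * C, by positivity, ?_⟩
  rintro _ ⟨j, rfl⟩ i₁ hi₁
  have hadd : ∀ n, zi g.toEquiv n (zi g.toEquiv j x) = zi g.toEquiv (n + j) x := fun n =>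
    (zi_add _ _ _ _).symm
  have h1 := hc.dich_change hr hC hi (i' := fun n => i₁ (n - j)) (fun n => by
    have h2 := hi₁ (n - j)
    have h3 : zi g.toEquiv (n - j) (zi g.toEquiv j x) = zi g.toEquiv n x := by
      rw [hadd, sub_add_cancel]
    refine ⟨h2.1, ?_⟩
    rw [← h3]
    exact h2.2) hκ hD
  have h2 := h1.shift (-j)
  convert h2 using 2 with n
  have e1 : n - -j = n + j := by ring
  have e2 : n + j - j = n := by ring
  have e3 : n + j + 1 - j = n + 1 := by ring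
  rw [e1, e2, e3]
  have h3 : zi g.toHomeomorph.toEquiv n (zi g.toHomeomorph.toEquiv j x) =
    zi g.toEquiv (n + j) x := hadd n
  exact congrArg (fun z => fderiv ℝ (chG g (i₁ n) (i₁ (n + 1))) (chartAt E (i₁ n) z)) h3

theorem prd_chart {g : Dyn E M r} (hr : 1 ≤ r) {x : M} {i : ℤ → M}
    (hs : ∀ n, zi g.toEquiv n x ∈ (chartAt E (i n)).source) (n : ℤ) (j : ℕ) :
    prd (fun n => fderiv ℝ (chG g (i n) (i (n + 1))) (chartAt E (i n) (zi g.toEquiv n x))) n j =
      (Dc (i (n + j)) (zi g.toEquiv (n + j) x) : E →L[ℝ] E) * D g^[j] (zi g.toEquiv n x) *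
        Dc' (i n) (zi g.toEquiv n x) := by
  have hgx : ∀ n, g (zi g.toEquiv n x) = zi g.toEquiv (n + 1) x := fun n =>
    (zi_succ_apply g n x).symm
  have hit : ∀ (n : ℤ) (j : ℕ), g^[j] (zi g.toEquiv n x) = zi g.toEquiv (n + j) x := by
    intro n j
    rw [← zi_nat_apply, ← zi_add, add_comm]
  induction j with
  | zero =>
    have h1 : (D g^[0] (zi g.toEquiv n x) : E →L[ℝ] E) = 1 := D_id _
    rw [h1, mul_one]
    simp only [Nat.cast_zero, add_zero]
    rw [(Dc_mul (hs n)).1, prd_zero]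
  | succ j ih =>
    rw [prd_succ, ih, D_iterate_succ (Dyn.mdiff g hr), hit,
      fderiv_chG (Dyn.mdiff g hr _) (hs (n + j)) (by rw [hgx]; exact hs (n + j + 1)), hgx]
    have e1 : n + ((j + 1 : ℕ) : ℤ) = n + j + 1 := by push_cast; ring
    rw [e1]
    have a1 := (Dc_mul (hs (n + j))).2
    calc (Dc (i (n + j + 1)) (zi g.toEquiv (n + j + 1) x) : E →L[ℝ] E) *
          D g (zi g.toEquiv (n + j) x) * Dc' (i (n + j)) (zi g.toEquiv (n + j) x) *
          ((Dc (i (n + j)) (zi g.toEquiv (n + j) x) : E →L[ℝ] E) * D g^[j] (zi g.toEquiv n x) *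
            Dc' (i n) (zi g.toEquiv n x))
        = (Dc (i (n + j + 1)) (zi g.toEquiv (n + j + 1) x) : E →L[ℝ] E) *
          D g (zi g.toEquiv (n + j) x) * (Dc' (i (n + j)) (zi g.toEquiv (n + j) x) *
          (Dc (i (n + j)) (zi g.toEquiv (n + j) x) : E →L[ℝ] E)) * D g^[j] (zi g.toEquiv n x) *
            Dc' (i n) (zi g.toEquiv n x) := by simp only [mul_assoc]
      _ = _ := by
        rw [a1, mul_one]
        simp only [mul_assoc]

/-- The times of the blocks. -/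
def tt (m J : ℕ) (k : ℤ) : ℤ := if k ≤ 0 then m * k else J + m * (k - 1)

theorem tt_succ {m J : ℕ} (k : ℤ) : tt m J (k + 1) = tt m J k + tm m J k := by
  unfold tt tm
  rcases lt_trichotomy k 0 with hk | hk | hk
  · rw [if_pos (by omega), if_pos hk.le, if_neg hk.ne]
    ring
  · subst hk
    simp
  · rw [if_neg (by omega), if_neg (by omega), if_neg hk.ne']
    ring

/-- Uniform dichotomies along a homoclinic orbit, from a dichotomy for the block maps. -/
theorem exists_dhyp_of_blocks {s : Finset M} {K : M → Set M} {ρ₀ : ℝ} (hc : Cov E s K ρ₀)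
    {g : Dyn E M r} (hr : 1 ≤ r) {m J : ℕ} (hm : 0 < m) (hJ : 0 < J) {q a : M} {C₀ : Set M}
    (hC₀ : IsCompact C₀) (hC₀s : C₀ ⊆ (chartAt E q).source)
    (hmem : ∀ k, zi g.toEquiv (tt m J k) a ∈ C₀) {κ : ℝ} (hκ : 0 ≤ κ)
    (hD : Dich (fun k => fderiv ℝ (fun z => chartAt E q (g^[tm m J k] ((chartAt E q).symm z)))
      (chartAt E q (zi g.toEquiv (tt m J k) a))) κ) :
    ∃ κ', DHyp s K g (Orb g.toHomeomorph a) κ' := by
  classical
  choose idx hidx1 hidx2 using hc.leb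
  have hidx3 : ∀ y : M, y ∈ K (idx y) := fun y => hidx2 y (mem_closedBall_self hc.pos.le)
  set i : ℤ → M := fun n => idx (zi g.toEquiv n a) with hi
  have hadm : ∀ n, i n ∈ s ∧ zi g.toEquiv n a ∈ K (i n) := fun n => ⟨hidx1 _, hidx3 _⟩
  have hs : ∀ n, zi g.toEquiv n a ∈ (chartAt E (i n)).source := fun n =>
    hc.src _ (hidx1 _) (hidx3 _)
  obtain ⟨C, hC1, hC⟩ := exists_bound_change₂ (E := E) (s := {q}) (K := fun _ => C₀) (s' := s)
    (K' := K) (by
      intro b hb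
      rw [Finset.mem_singleton.1 hb]
      exact ⟨hC₀, hC₀s⟩) (fun b hb => ⟨hc.cpt b hb, hc.src b hb⟩)
  obtain ⟨C', hC1', hC'⟩ := exists_bound_change₂ (E := E) (s := s) (K := K) (s' := {q})
    (K' := fun _ => C₀) (fun b hb => ⟨hc.cpt b hb, hc.src b hb⟩) (by
      intro b hb
      rw [Finset.mem_singleton.1 hb]
      exact ⟨hC₀, hC₀s⟩)
  obtain ⟨B, hB1, hB⟩ := hc.exists_bound (g := g) hr
  set A : ℤ → E →L[ℝ] E := fun n => fderiv ℝ (chG g (i n) (i (n + 1)))
    (chartAt E (i n) (zi g.toEquiv n a)) with hA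
  set X : ℤ → M := fun k => zi g.toEquiv (tt m J k) a with hX
  have hXs : ∀ k, X k ∈ (chartAt E q).source := fun k => hC₀s (hmem k)
  have hit : ∀ k, g^[tm m J k] (X k) = X (k + 1) := by
    intro k
    rw [hX]
    simp only
    rw [← zi_nat_apply, ← zi_add, tt_succ, add_comm]
  have hD2 := hD.conj hκ (L := fun k => (Dc (i (tt m J k)) (X k) : E →L[ℝ] E) * Dc' q (X k))
    (L' := fun k => (Dc q (X k) : E →L[ℝ] E) * Dc' (i (tt m J k)) (X k)) (C := max C C')
    (fun k => ?_) (fun k => ?_)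
    (fun k => (hC q (Finset.mem_singleton_self q) _ (hadm _).1 _ (hmem k) (hadm _).2).trans
      (le_max_left _ _))
    (fun k => (hC' _ (hadm _).1 q (Finset.mem_singleton_self q) _ (hadm _).2 (hmem k)).trans
      (le_max_right _ _))
  · have hK2 : 0 ≤ max C C' * κ * max C C' := by positivity
    have hprd : (fun k => prd A (tt m J k) (tt m J (k + 1) - tt m J k).toNat) =
        fun k => ((Dc (i (tt m J (k + 1))) (X (k + 1)) : E →L[ℝ] E) * Dc' q (X (k + 1))) *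
          fderiv ℝ (fun z => chartAt E q (g^[tm m J k] ((chartAt E q).symm z)))
            (chartAt E q (X k)) *
          ((Dc q (X k) : E →L[ℝ] E) * Dc' (i (tt m J k)) (X k)) := by
      funext k
      have e1 : (tt m J (k + 1) - tt m J k).toNat = tm m J k := by
        rw [tt_succ]
        omega
      rw [e1, prd_chart hr hs]
      have h3 := fderiv_chG (G := g^[tm m J k]) (b := q) (b' := q) (x := X k)
        (mdiff_iterate (Dyn.mdiff g hr) _ _) (hXs k) (by rw [hit]; exact hXs (k + 1))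
      have h4 : fderiv ℝ (fun z => chartAt E q (g^[tm m J k] ((chartAt E q).symm z)))
            (chartAt E q (X k)) = (Dc q (g^[tm m J k] (X k)) : E →L[ℝ] E) *
              D g^[tm m J k] (X k) * Dc' q (X k) := h3
      rw [h4, hit, ← tt_succ]
      have a1 := (Dc_mul (hXs (k + 1))).2
      have a2 := (Dc_mul (hXs k)).2
      calc (Dc (i (tt m J (k + 1))) (zi g.toEquiv (tt m J (k + 1)) a) : E →L[ℝ] E) *
            D g^[tm m J k] (zi g.toEquiv (tt m J k) a) * Dc' (i (tt m J k))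
              (zi g.toEquiv (tt m J k) a)
          = (Dc (i (tt m J (k + 1))) (X (k + 1)) : E →L[ℝ] E) *
            ((Dc' q (X (k + 1)) : E →L[ℝ] E) * Dc q (X (k + 1))) *
            D g^[tm m J k] (X k) * ((Dc' q (X k) : E →L[ℝ] E) * Dc q (X k)) *
            Dc' (i (tt m J k)) (X k) := by rw [a1, a2, mul_one, mul_one]
        _ = _ := by simp only [mul_assoc]
    obtain ⟨K'', hK'', h5⟩ := Dich.refine (A := A) (t := tt m J) (m := max m J) (b := B) hB1
      (fun n => hB _ (hadm n).1 _ (hadm (n + 1)).1 _ (hadm n).2 (by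
        have := (hadm (n + 1)).2
        rwa [zi_succ_apply] at this)) (fun k => by
        rw [tt_succ]
        unfold tm
        split_ifs
        · exact ⟨by omega, by push_cast; have := le_max_right m J; omega⟩
        · exact ⟨by omega, by push_cast; have := le_max_left m J; omega⟩)
      (by rw [hprd]; exact hD2) hK2
    exact DHyp.of_one hc hr hadm hK'' h5
  · have a1 := (Dc_mul (hXs k)).2
    have a2 := (Dc_mul (hs (tt m J k))).1
    calc _ = (Dc (i (tt m J k)) (X k) : E →L[ℝ] E) *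
          ((Dc' q (X k) : E →L[ℝ] E) * Dc q (X k)) * Dc' (i (tt m J k)) (X k) := by
          simp only [mul_assoc]
      _ = 1 := by rw [a1, mul_one]; exact a2
  · have a1 := (Dc_mul (hs (tt m J k))).2
    have a2 := (Dc_mul (hXs k)).1
    have a1' : (Dc' (i (tt m J k)) (X k) : E →L[ℝ] E) * Dc (i (tt m J k)) (X k) = 1 := a1
    calc _ = (Dc q (X k) : E →L[ℝ] E) *
          ((Dc' (i (tt m J k)) (X k) : E →L[ℝ] E) * Dc (i (tt m J k)) (X k)) * Dc' q (X k) := by
          simp only [mul_assoc]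
      _ = 1 := by rw [a1', mul_one, a2]

end OmSt
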