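import Pool.Agent.OmSt.Dich2

/-!
# Further properties of the nonautonomous recursions
-/

open Set Filter Topology Metric
open scoped NNReal BoundedContinuousFunction

set_option linter.unusedSectionVars false

namespace OmSt

variable {E : Type*} [NormedAddCommGroup E] [NormedSpace ℝ E]

/-- A recursion with Green operators has bounded inverse. -/
theorem dich_of_green [CompleteSpace E] {A : ℤ → E →L[ℝ] E} {S U : ℤ → ℕ → E →L[ℝ] E} {c μ : ℝ}
    (hc : 0 ≤ c) (hμ0 : 0 ≤ μ) (hμ1 : μ < 1)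
    (hS : ∀ n k, ‖S n k‖ ≤ c * μ ^ k) (hU : ∀ n k, ‖U n k‖ ≤ c * μ ^ k)
    (h1 : ∀ n, S n 0 + U n 0 = 1)
    (hAS : ∀ n k, A n * S n k = S (n + 1) (k + 1))
    (hAU : ∀ n k, A n * U n (k + 1) = U (n + 1) k)
    (hSA : ∀ (n : ℤ) (k : ℕ), S n (k + 1) = S n k * A (n - 1 - k))
    (hUA : ∀ (n : ℤ) (k : ℕ), U n (k + 1) * A (n + k) = U n k) :
    Dich A (2 * c * ∑' k : ℕ, μ ^ k) := by
  have hsum : Summable (fun k : ℕ => μ ^ k) := summable_geometric_of_lt_one hμ0 hμ1
  constructor
  · intro w C hw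
    have hC : 0 ≤ C := (norm_nonneg _).trans (hw 0)
    set a : ℤ → ℕ → E := fun n k => (S n k) (w (n - 1 - k)) with ha
    set b : ℤ → ℕ → E := fun n k => (U n k) (w (n - 1 + k)) with hbdef
    have ha1 : ∀ n k, ‖a n k‖ ≤ (c * C) * μ ^ k := by
      intro n k
      calc ‖a n k‖ ≤ ‖S n k‖ * ‖w (n - 1 - k)‖ := ContinuousLinearMap.le_opNorm _ _
        _ ≤ (c * μ ^ k) * C := by
            gcongr
            · exact hS n k
            · exact hw _
        _ = (c * C) * μ ^ k := by ring
    have hb1 : ∀ n k, ‖b n k‖ ≤ (c * C) * μ ^ k := by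
      intro n k
      calc ‖b n k‖ ≤ ‖U n k‖ * ‖w (n - 1 + k)‖ := ContinuousLinearMap.le_opNorm _ _
        _ ≤ (c * μ ^ k) * C := by
            gcongr
            · exact hU n k
            · exact hw _
        _ = (c * C) * μ ^ k := by ring
    have has : ∀ n, Summable (a n) := fun n =>
      Summable.of_norm_bounded (hsum.mul_left (c * C)) (ha1 n)
    have hbs : ∀ n, Summable (b n) := fun n =>
      Summable.of_norm_bounded (hsum.mul_left (c * C)) (hb1 n)
    have hgs : HasSum (fun k : ℕ => (c * C) * μ ^ k) ((c * C) * ∑' k : ℕ, μ ^ k) :=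
      hsum.hasSum.mul_left _
    have hbs' : ∀ n, Summable (fun k => b n (k + 1)) := fun n =>
      (summable_nat_add_iff 1).2 (hbs n)
    have hbsum' : ∀ n, ‖∑' k, b n (k + 1)‖ ≤ (c * C) * ∑' k : ℕ, μ ^ k := by
      intro n
      refine tsum_of_norm_bounded hgs (fun k => ?_)
      refine (hb1 n (k + 1)).trans ?_
      have : μ ^ (k + 1) ≤ μ ^ k := pow_le_pow_of_le_one hμ0 hμ1.le (Nat.le_succ k)
      gcongr
    refine ⟨fun n => (∑' k, a n k) - ∑' k, b n (k + 1), fun n => ?_, fun n => ?_⟩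
    · calc ‖(∑' k, a n k) - ∑' k, b n (k + 1)‖
          ≤ (c * C) * (∑' k : ℕ, μ ^ k) + (c * C) * ∑' k : ℕ, μ ^ k :=
            (norm_sub_le _ _).trans (add_le_add (tsum_of_norm_bounded hgs (ha1 n)) (hbsum' n))
        _ = (2 * c * ∑' k : ℕ, μ ^ k) * C := by ring
    · have e1 : ∑' k, a (n + 1) k = S (n + 1) 0 (w n) + A n (∑' k, a n k) := by
        rw [(has (n + 1)).tsum_eq_zero_add, (A n).map_tsum (has n)]
        congr 1
        · simp [ha]
        · congr 1
          funext k
          have e4 := congrArg (fun L : E →L[ℝ] E => L (w (n - 1 - k))) (hAS n k)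
          simp only [ha]
          have i1 : n + 1 - 1 - ((k + 1 : ℕ) : ℤ) = n - 1 - k := by push_cast; ring
          rw [i1]
          exact e4.symm
      have e2 : A n (∑' k, b n (k + 1)) = U (n + 1) 0 (w n) + ∑' k, b (n + 1) (k + 1) := by
        rw [(A n).map_tsum (hbs' n)]
        have e3 : ∀ k : ℕ, A n (b n (k + 1)) = b (n + 1) k := by
          intro k
          have e5 := congrArg (fun L : E →L[ℝ] E => L (w (n + k))) (hAU n k)
          simp only [hbdef]
          have i1 : n - 1 + ((k + 1 : ℕ) : ℤ) = n + k := by push_cast; ring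
          have i2 : n + 1 - 1 + (k : ℤ) = n + k := by ring
          rw [i1, i2]
          exact e5
        simp_rw [e3]
        rw [(hbs (n + 1)).tsum_eq_zero_add]
        congr 1
        simp [hbdef]
      change (∑' k, a (n + 1) k) - ∑' k, b (n + 1) (k + 1) =
        A n ((∑' k, a n k) - ∑' k, b n (k + 1)) + w n
      rw [e1, map_sub, e2]
      have e6 : w n = S (n + 1) 0 (w n) + U (n + 1) 0 (w n) :=
        (congrArg (fun L : E →L[ℝ] E => L (w n)) (h1 (n + 1))).symm
      nth_rewrite 3 [e6]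
      abel
  · intro v C hv hv' n
    have hC : 0 ≤ C := (norm_nonneg _).trans (hv 0)
    have hlim : Tendsto (fun k : ℕ => c * μ ^ k * C) atTop (𝓝 0) := by
      have := (tendsto_pow_atTop_nhds_zero_of_lt_one hμ0 hμ1).const_mul c
      simpa using this.mul_const C
    have hP : S n 0 (v n) = 0 := by
      have e : ∀ k : ℕ, S n 0 (v n) = S n k (v (n - k)) := by
        intro k
        induction k with
        | zero => simp
        | succ k ih =>
          rw [ih, hSA]
          have i1 : n - (k : ℤ) = (n - 1 - k) + 1 := by ring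
          have i2 : n - ((k + 1 : ℕ) : ℤ) = n - 1 - k := by push_cast; ring
          rw [i1, hv', i2]
          rfl
      have h2 : ∀ k : ℕ, ‖S n 0 (v n)‖ ≤ c * μ ^ k * C := by
        intro k
        rw [e k]
        refine (ContinuousLinearMap.le_opNorm _ _).trans ?_
        exact mul_le_mul (hS n k) (hv _) (norm_nonneg _) (by positivity)
      have := ge_of_tendsto' hlim h2
      exact norm_le_zero_iff.1 this
    have hQ : U n 0 (v n) = 0 := by
      have e : ∀ k : ℕ, U n 0 (v n) = U n k (v (n + k)) := by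
        intro k
        induction k with
        | zero => simp
        | succ k ih =>
          rw [ih, ← hUA]
          have i1 : n + ((k + 1 : ℕ) : ℤ) = n + k + 1 := by push_cast; ring
          rw [i1, hv']
          rfl
      have h2 : ∀ k : ℕ, ‖U n 0 (v n)‖ ≤ c * μ ^ k * C := by
        intro k
        rw [e k]
        refine (ContinuousLinearMap.le_opNorm _ _).trans ?_
        exact mul_le_mul (hU n k) (hv _) (norm_nonneg _) (by positivity)
      have := ge_of_tendsto' hlim h2
      exact norm_le_zero_iff.1 this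
    have : v n = S n 0 (v n) + U n 0 (v n) :=
      (congrArg (fun L : E →L[ℝ] E => L (v n)) (h1 n)).symm
    rw [this, hP, hQ, add_zero]

variable {A B : ℤ → E →L[ℝ] E} {K : ℝ}

/-- Change of coordinates. -/
theorem Dich.conj (h : Dich A K) (hK : 0 ≤ K) {L L' : ℤ → E →L[ℝ] E} {C : ℝ}
    (h1 : ∀ n, L n * L' n = 1) (h2 : ∀ n, L' n * L n = 1)
    (hL : ∀ n, ‖L n‖ ≤ C) (hL' : ∀ n, ‖L' n‖ ≤ C) :
    Dich (fun n => L (n + 1) * A n * L' n) (C * K * C) := by
  have hC : 0 ≤ C := (norm_nonneg _).trans (hL 0)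
  have a1 : ∀ n u, L n (L' n u) = u := fun n u => congrArg (fun T : E →L[ℝ] E => T u) (h1 n)
  have a2 : ∀ n u, L' n (L n u) = u := fun n u => congrArg (fun T : E →L[ℝ] E => T u) (h2 n)
  constructor
  · intro w D hw
    have hD : 0 ≤ D := (norm_nonneg _).trans (hw 0)
    obtain ⟨v, hv, hv'⟩ := h.exists_sol (fun n => L' (n + 1) (w n)) (C * D) (fun n =>
      ((L' (n + 1)).le_opNorm _).trans (by gcongr; exacts [hL' _, hw _]))
    refine ⟨fun n => L n (v n), fun n => ?_, fun n => ?_⟩
    · calc ‖L n (v n)‖ ≤ ‖L n‖ * ‖v n‖ := (L n).le_opNorm _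
        _ ≤ C * (K * (C * D)) := by gcongr; exacts [hL _, hv _]
        _ = C * K * C * D := by ring
    · change L (n + 1) (v (n + 1)) = L (n + 1) (A n (L' n (L n (v n)))) + w n
      rw [a2, hv', map_add, a1]
  · intro v D hv hv' n
    have hD : 0 ≤ D := (norm_nonneg _).trans (hv 0)
    have h3 := h.unique (fun n => L' n (v n)) (C * D) (fun n =>
      ((L' n).le_opNorm _).trans (by gcongr; exacts [hL' _, hv _])) (fun n => by
        have h4 : v (n + 1) = L (n + 1) (A n (L' n (v n))) := hv' n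
        rw [h4, a2]) n
    calc v n = L n (L' n (v n)) := (a1 n _).symm
      _ = 0 := by rw [h3, map_zero]

/-- Weighted estimates: the influence of far away errors is exponentially small. -/
theorem exists_weight [CompleteSpace E] {K b : ℝ} (hK : 0 ≤ K) (hb : 0 ≤ b) :
    ∃ τ : ℝ, 0 < τ ∧ τ < 1 ∧ ∀ A : ℤ → E →L[ℝ] E, Dich A K → (∀ n, ‖A n‖ ≤ b) →
      ∀ (v : ℤ → E) (C η : ℝ) (e : ℤ → ℝ) (e₀ : ℝ), (∀ n, ‖v n‖ ≤ C) → 0 ≤ η → 8 * K * η ≤ 1 →
        (∀ n, ‖v (n + 1) - A n (v n)‖ ≤ η * ‖v n‖ + e n) →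
        (∀ n, τ ^ n.natAbs * e n ≤ e₀) → ‖v 0‖ ≤ 8 * K * e₀ := by
  set s : ℝ := min 1 (1 / (2 * ((b + 1) * (K + 1)))) with hs
  have hs0 : 0 < s := by positivity
  have hs1 : s ≤ 1 := min_le_left _ _
  have hs2 : K * (s * b) ≤ 1 / 2 := by
    have h1 : s ≤ 1 / (2 * ((b + 1) * (K + 1))) := min_le_right _ _
    calc K * (s * b) ≤ (K + 1) * (1 / (2 * ((b + 1) * (K + 1))) * (b + 1)) := by gcongr <;> linarith
      _ = 1 / 2 := by field_simp
  refine ⟨(1 + s)⁻¹, by positivity, inv_lt_one_of_one_lt₀ (by linarith), ?_⟩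
  intro A hA hAb v C η e e₀ hv hη0 hη hrec he
  set τ : ℝ := (1 + s)⁻¹ with hτ
  have hτ0 : 0 < τ := by positivity
  have hτ1 : τ ≤ 1 := (inv_lt_one_of_one_lt₀ (by linarith)).le
  have hτi : τ⁻¹ = 1 + s := inv_inv _
  have hτs : 1 - τ ≤ s := by
    have : τ * (1 + s) = 1 := inv_mul_cancel₀ (by positivity)
    nlinarith
  -- the ratios of the weights
  set t : ℤ → ℝ := fun n => τ ^ (n + 1).natAbs * (τ ^ n.natAbs)⁻¹ with ht
  have htw : ∀ n, τ ^ (n + 1).natAbs = t n * τ ^ n.natAbs := by
    intro n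
    simp only [ht]
    rw [mul_assoc, inv_mul_cancel₀ (by positivity), mul_one]
  have htv : ∀ n, t n = τ ∨ t n = τ⁻¹ := by
    intro n
    rcases le_or_gt 0 n with hn | hn
    · left
      have : (n + 1).natAbs = n.natAbs + 1 := by omega
      simp only [ht]
      rw [this, pow_succ]
      field_simp
    · right
      have : n.natAbs = (n + 1).natAbs + 1 := by omega
      simp only [ht]
      rw [this, pow_succ]
      field_simp
  have ht0 : ∀ n, 0 ≤ t n := fun n => by rcases htv n with h | h <;> rw [h] <;> positivity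
  have ht2 : ∀ n, t n ≤ 2 := fun n => by
    rcases htv n with h | h <;> rw [h]
    · linarith
    · rw [hτi]; linarith
  have ht1 : ∀ n, |t n - 1| ≤ s := fun n => by
    rcases htv n with h | h <;> rw [h]
    · rw [abs_of_nonpos (by linarith)]; linarith
    · rw [hτi, abs_of_nonneg (by linarith)]; linarith
  have hB : Dich (fun n => t n • A n) (2 * K) := by
    refine hA.perturb hK (ε := s * b) (by positivity) hs2 fun n => ?_
    have : t n • A n - A n = (t n - 1) • A n := by rw [sub_smul, one_smul]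
    rw [this, norm_smul, Real.norm_eq_abs]
    exact mul_le_mul (ht1 n) (hAb n) (norm_nonneg _) hs0.le
  obtain ⟨S, hS1, hS2, hS3⟩ := hB.exists_op
  have hw1 : ∀ n : ℤ, τ ^ n.natAbs ≤ 1 := fun n => pow_le_one₀ hτ0.le hτ1
  have hvb : ∀ n, ‖τ ^ n.natAbs • v n‖ ≤ C := by
    intro n
    rw [norm_smul, Real.norm_of_nonneg (by positivity)]
    calc τ ^ n.natAbs * ‖v n‖ ≤ 1 * C := mul_le_mul (hw1 n) (hv n) (norm_nonneg _) zero_le_one
      _ = C := one_mul _
  set vb : ℤ →ᵇ E := bmk (fun n => τ ^ n.natAbs • v n) C hvb with hvbd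
  have hrn : ∀ n, ‖τ ^ (n + 1).natAbs • (v (n + 1) - A n (v n))‖ ≤ 2 * (η * ‖vb‖ + e₀) := by
    intro n
    rw [norm_smul, Real.norm_of_nonneg (by positivity), htw]
    have h3 : τ ^ n.natAbs * ‖v n‖ ≤ ‖vb‖ := by
      have h4 := vb.norm_coe_le_norm n
      rw [hvbd, bmk_apply, norm_smul, Real.norm_of_nonneg (by positivity)] at h4
      exact h4
    have h5 : 0 ≤ η * ‖vb‖ + e₀ := by
      have h6 : 0 ≤ τ ^ n.natAbs * (η * ‖v n‖ + e n) :=
        mul_nonneg (by positivity) ((norm_nonneg _).trans (hrec n))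
      calc 0 ≤ τ ^ n.natAbs * (η * ‖v n‖ + e n) := h6
        _ = η * (τ ^ n.natAbs * ‖v n‖) + τ ^ n.natAbs * e n := by ring
        _ ≤ η * ‖vb‖ + e₀ := by gcongr; exact he n
    calc t n * τ ^ n.natAbs * ‖v (n + 1) - A n (v n)‖
        ≤ t n * τ ^ n.natAbs * (η * ‖v n‖ + e n) := by
          have := ht0 n
          gcongr
          exact hrec n
      _ = t n * (η * (τ ^ n.natAbs * ‖v n‖) + τ ^ n.natAbs * e n) := by ring
      _ ≤ t n * (η * ‖vb‖ + e₀) := by
          have := ht0 n
          gcongr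
          exact he n
      _ ≤ 2 * (η * ‖vb‖ + e₀) := by
          gcongr
          exact ht2 n
  have hvS : vb = S (bmk _ _ hrn) := by
    apply hS3
    intro n
    simp only [hvbd, bmk_apply]
    change τ ^ (n + 1).natAbs • v (n + 1) = t n • A n (τ ^ n.natAbs • v n) +
      τ ^ (n + 1).natAbs • (v (n + 1) - A n (v n))
    rw [map_smul, smul_smul, ← htw, smul_sub]
    abel
  have h0 : (0 : ℤ →ᵇ E) = S 0 := hS3 0 0 (fun n => by simp)
  have h7 : ‖vb‖ ≤ 2 * K * (2 * (η * ‖vb‖ + e₀)) := by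
    have h8 := hS2 (bmk _ _ hrn) 0
    rw [← h0, sub_zero, sub_zero, ← hvS] at h8
    exact h8.trans (mul_le_mul_of_nonneg_left (norm_le_iff'.2 hrn) (by positivity))
  have h9 : ‖vb‖ ≤ 8 * K * e₀ := by
    have : 2 * K * (2 * (η * ‖vb‖ + e₀)) = (8 * K * η) / 2 * ‖vb‖ + 4 * K * e₀ := by ring
    rw [this] at h7
    have h10 : (8 * K * η) / 2 * ‖vb‖ ≤ 1 / 2 * ‖vb‖ := by gcongr
    linarith
  have h11 := vb.norm_coe_le_norm 0
  rw [hvbd, bmk_apply] at h11
  simp only [Int.natAbs_zero, pow_zero, one_smul] at h11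
  exact h11.trans h9

/-- Products of consecutive coefficients. -/
noncomputable def prd (A : ℤ → E →L[ℝ] E) (n : ℤ) : ℕ → E →L[ℝ] E
  | 0 => 1
  | j + 1 => A (n + j) * prd A n j

/-- The solution with the value `0` at time `n`. -/
noncomputable def inh (A : ℤ → E →L[ℝ] E) (w : ℤ → E) (n : ℤ) : ℕ → E
  | 0 => 0
  | j + 1 => A (n + j) (inh A w n j) + w (n + j)

theorem norm_prd_le {b : ℝ} (hb : 0 ≤ b) (hA : ∀ n, ‖A n‖ ≤ b) (n : ℤ) (j : ℕ) (u : E) :
    ‖prd A n j u‖ ≤ b ^ j * ‖u‖ := by
  induction j with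
  | zero => simp [prd]
  | succ j ih =>
    change ‖A (n + j) (prd A n j u)‖ ≤ _
    calc ‖A (n + j) (prd A n j u)‖ ≤ ‖A (n + j)‖ * ‖prd A n j u‖ := (A _).le_opNorm _
      _ ≤ b * (b ^ j * ‖u‖) := by gcongr; exact hA _
      _ = b ^ (j + 1) * ‖u‖ := by ring

theorem norm_inh_le {b : ℝ} (hb : 1 ≤ b) (hA : ∀ n, ‖A n‖ ≤ b) {w : ℤ → E} {C : ℝ}
    (hw : ∀ n, ‖w n‖ ≤ C) (n : ℤ) (j : ℕ) : ‖inh A w n j‖ ≤ j * b ^ j * C := by
  have hC : 0 ≤ C := (norm_nonneg _).trans (hw 0)
  have hb0 : 0 ≤ b := by linarith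
  induction j with
  | zero => simp [inh]
  | succ j ih =>
    change ‖A (n + j) (inh A w n j) + w (n + j)‖ ≤ _
    calc ‖A (n + j) (inh A w n j) + w (n + j)‖ ≤ ‖A (n + j)‖ * ‖inh A w n j‖ + C :=
          (norm_add_le _ _).trans (add_le_add ((A _).le_opNorm _) (hw _))
      _ ≤ b * (j * b ^ j * C) + b ^ (j + 1) * C := by
          gcongr
          · exact hA _
          · have : 1 ≤ b ^ (j + 1) := one_le_pow₀ hb
            nlinarith
      _ = ((j + 1 : ℕ) : ℝ) * b ^ (j + 1) * C := by push_cast; ring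

/-- If the recursion obtained by composing the steps in blocks of bounded length has bounded
inverse, then so does the recursion. -/
theorem Dich.refine {t : ℤ → ℤ} {m : ℕ} {b : ℝ} (hb : 1 ≤ b) (hA : ∀ n, ‖A n‖ ≤ b)
    (ht : ∀ k, t k < t (k + 1) ∧ t (k + 1) ≤ t k + m)
    (h : Dich (fun k => prd A (t k) (t (k + 1) - t k).toNat) K) (hK : 0 ≤ K) :
    ∃ K', 0 ≤ K' ∧ Dich A K' := by
  have hb0 : 0 ≤ b := by linarith
  have hmono : StrictMono t := strictMono_int_of_lt_succ fun k => (ht k).1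
  -- the block of an index
  have hblock : ∀ n : ℤ, ∃ k, t k ≤ n ∧ n < t (k + 1) := by
    intro n
    have hup : ∀ j : ℕ, t 0 + j ≤ t j := by
      intro j
      induction j with
      | zero => simp
      | succ j ih =>
        have := (ht j).1
        push_cast
        omega
    have hdn : ∀ j : ℕ, t (-(j : ℤ)) ≤ t 0 - j := by
      intro j
      induction j with
      | zero => simp
      | succ j ih =>
        have h1 := (ht (-((j + 1 : ℕ) : ℤ))).1
        have e1 : -((j + 1 : ℕ) : ℤ) + 1 = -(j : ℤ) := by push_cast; ring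
        rw [e1] at h1
        push_cast at h1 ⊢
        omega
    have hne : ∃ k, t k ≤ n := by
      refine ⟨-((t 0 - n).toNat : ℤ), ?_⟩
      have := hdn (t 0 - n).toNat
      omega
    have hbd : ∃ B, ∀ k, t k ≤ n → k ≤ B := by
      refine ⟨((n - t 0).toNat : ℤ) + 1, fun k hk => ?_⟩
      by_contra hcon
      push Not at hcon
      have h1 := hup ((n - t 0).toNat + 1)
      have h2 : t (((n - t 0).toNat + 1 : ℕ) : ℤ) < t k := hmono (by push_cast; exact hcon)
      push_cast at h1 h2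
      omega
    obtain ⟨k, hk, hk'⟩ := Int.exists_greatest_of_bdd hbd hne
    refine ⟨k, hk, ?_⟩
    by_contra hcon
    push Not at hcon
    have := hk' _ hcon
    omega
  choose κ hκ1 hκ2 using hblock
  have huniq : ∀ n k, t k ≤ n → n < t (k + 1) → κ n = k := by
    intro n k h1 h2
    have h3 : κ n < k + 1 := hmono.lt_iff_lt.1 ((hκ1 n).trans_lt h2)
    have h4 : k < κ n + 1 := hmono.lt_iff_lt.1 (h1.trans_lt (hκ2 n))
    omega
  have hlen : ∀ k, (t (k + 1) - t k).toNat ≤ m := fun k => by have := (ht k).2; omega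
  refine ⟨b ^ m * (K * (m * b ^ m)) + m * b ^ m, by positivity, ?_, ?_⟩
  · intro w C hw
    have hC : 0 ≤ C := (norm_nonneg _).trans (hw 0)
    have hinh : ∀ n (j : ℕ), j ≤ m → ‖inh A w n j‖ ≤ m * b ^ m * C := by
      intro n j hj
      refine (norm_inh_le hb hA hw n j).trans ?_
      have h1 : b ^ j ≤ b ^ m := pow_le_pow_right₀ hb hj
      have h2 : (j : ℝ) ≤ m := by exact_mod_cast hj
      gcongr
    obtain ⟨V, hV, hV'⟩ := h.exists_sol (fun k => inh A w (t k) (t (k + 1) - t k).toNat)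
      (m * b ^ m * C) (fun k => hinh _ _ (hlen k))
    refine ⟨fun n => prd A (t (κ n)) (n - t (κ n)).toNat (V (κ n)) +
      inh A w (t (κ n)) (n - t (κ n)).toNat, fun n => ?_, fun n => ?_⟩
    · have h0 : (n - t (κ n)).toNat ≤ m := by
        have h1 := hκ2 n
        have h2 := hκ1 n
        have h3 := (ht (κ n)).2
        omega
      calc _ ≤ b ^ (n - t (κ n)).toNat * ‖V (κ n)‖ + m * b ^ m * C :=
            (norm_add_le _ _).trans (add_le_add (norm_prd_le hb0 hA _ _ _) (hinh _ _ h0))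
        _ ≤ b ^ m * (K * (m * b ^ m * C)) + m * b ^ m * C := by
            gcongr
            exact hV _
        _ = (b ^ m * (K * (m * b ^ m)) + m * b ^ m) * C := by ring
    · dsimp only
      have h1 := hκ1 n
      have h2 := hκ2 n
      set k := κ n with hk
      have e0 : (n + 1 - t k).toNat = (n - t k).toNat + 1 := by omega
      have e1 : t k + (((n - t k).toNat : ℕ) : ℤ) = n := by omega
      have hmain : prd A (t k) (n + 1 - t k).toNat (V k) + inh A w (t k) (n + 1 - t k).toNat =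
          A n (prd A (t k) (n - t k).toNat (V k) + inh A w (t k) (n - t k).toNat) + w n := by
        rw [e0]
        change A (t k + (((n - t k).toNat : ℕ) : ℤ)) (prd A (t k) (n - t k).toNat (V k)) +
          (A (t k + (((n - t k).toNat : ℕ) : ℤ)) (inh A w (t k) (n - t k).toNat) +
            w (t k + (((n - t k).toNat : ℕ) : ℤ))) = _
        rw [e1, map_add]
        abel
      by_cases hn : n + 1 < t (k + 1)
      · have h3 : κ (n + 1) = k := huniq _ _ (by omega) hn
        rw [h3]
        exact hmain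
      · have h4 : n + 1 = t (k + 1) := by omega
        have h3 : κ (n + 1) = k + 1 := huniq _ _ (by omega) (by
          have := (ht (k + 1)).1
          omega)
        rw [h3, ← hmain]
        have e2 : (n + 1 - t (k + 1)).toNat = 0 := by omega
        have e3 : (n + 1 - t k).toNat = (t (k + 1) - t k).toNat := by omega
        rw [e2, e3]
        change V (k + 1) + 0 = _
        rw [add_zero]
        exact hV' k
  · intro v C hv hv' n
    have hprd : ∀ (n : ℤ) (j : ℕ), v (n + j) = prd A n j (v n) := by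
      intro n j
      induction j with
      | zero => simp [prd]
      | succ j ih =>
        have e1 : n + ((j + 1 : ℕ) : ℤ) = n + j + 1 := by push_cast; ring
        rw [e1, hv', ih]
        rfl
    have h1 := h.unique (fun k => v (t k)) C (fun k => hv _) (fun k => by
      have h2 := hprd (t k) (t (k + 1) - t k).toNat
      have e1 : t k + (((t (k + 1) - t k).toNat : ℕ) : ℤ) = t (k + 1) := by
        have := (ht k).1
        omega
      rw [e1] at h2
      exact h2) (κ n)
    have h3 := hprd (t (κ n)) (n - t (κ n)).toNat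
    have e1 : t (κ n) + (((n - t (κ n)).toNat : ℕ) : ℤ) = n := by have := hκ1 n; omega
    rw [e1] at h3
    rw [h3]
    change prd A (t (κ n)) (n - t (κ n)).toNat (v (t (κ n))) = 0
    have h4 : v (t (κ n)) = 0 := h1
    rw [h4, map_zero]

end OmSt
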