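import Pool.Agent.OmSt2.Hom3

/-!
# `Ω`-stable diffeomorphisms with hyperbolic recurrence satisfy Axiom A
-/

open Set Filter Topology Manifold ContDiff Metric

set_option linter.unusedSectionVars false

namespace OmSt

section HypSets

variable {E : Type*} [NormedAddCommGroup E] [NormedSpace ℝ E]
  {M : Type*} [TopologicalSpace M] [ChartedSpace E M] [IsManifold 𝓘(ℝ, E) ∞ M] {r : ℕ∞}

theorem IsHyperbolicSet.mono {f : Dyn E M r} {Λ Λ' : Set M} (h : IsHyperbolicSet f Λ)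
    (hΛ : Λ' ⊆ Λ) : IsHyperbolicSet f Λ' := by
  obtain ⟨P, h1, h2, h3, h4, h5⟩ := h
  refine ⟨P, fun x hx => h1 x (hΛ hx), ContinuousOn.mono h2 hΛ, fun x hx => h3 x (hΛ hx),
    fun x hx => h4 x (hΛ hx), fun γ => ?_⟩
  obtain ⟨c, hc, μ, hμ0, hμ1, h6⟩ := h5 γ
  exact ⟨c, hc, μ, hμ0, hμ1, fun x hx => h6 x (hΛ hx)⟩

theorem IsHyperbolicSet.empty (f : Dyn E M r) : IsHyperbolicSet f (∅ : Set M) :=
  ⟨fun _ => 0, fun _ hx => absurd hx (notMem_empty _), continuousOn_empty _,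
    fun _ hx => absurd hx (notMem_empty _), fun _ hx => absurd hx (notMem_empty _),
    fun _ => ⟨1, one_pos, 1 / 2, by norm_num, by norm_num, fun _ hx => absurd hx (notMem_empty _)⟩⟩

theorem Contracts.mono {γ : RMetric E M} {G : M → M} {x : M}
    {V : Set (TangentSpace 𝓘(ℝ, E) x)} {c c' μ μ' : ℝ} (h : Contracts γ G x V c μ)
    (hc : c ≤ c') (hμ0 : 0 ≤ μ) (hμ : μ ≤ μ') (hc0 : 0 ≤ c) : Contracts γ G x V c' μ' := by
  intro m v hv
  refine (h m v hv).trans ?_
  have h1 : 0 ≤ rnorm γ x v := Real.sqrt_nonneg _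
  have h2 : 0 ≤ c' := hc0.trans hc
  gcongr

theorem IsHyperbolicSet.union {f : Dyn E M r} {Λ₁ Λ₂ : Set M} (h₁ : IsHyperbolicSet f Λ₁)
    (h₂ : IsHyperbolicSet f Λ₂) (hc₁ : IsClosed Λ₁) (hc₂ : IsClosed Λ₂)
    (hf₁ : ∀ x ∈ Λ₁, f x ∈ Λ₁) (hf₂ : ∀ x ∈ Λ₂, f x ∈ Λ₂) (hd : ∀ x ∈ Λ₁, x ∉ Λ₂) :
    IsHyperbolicSet f (Λ₁ ∪ Λ₂) := by
  classical
  obtain ⟨P, a1, a2, a3, a4, a5⟩ := h₁
  obtain ⟨Q, b1, b2, b3, b4, b5⟩ := h₂
  have e1 : ∀ x ∈ Λ₁, (fun x => if x ∈ Λ₁ then P x else Q x : EndoField E M) x = P x :=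
    fun x hx => if_pos hx
  have e2 : ∀ x ∈ Λ₂, (fun x => if x ∈ Λ₁ then P x else Q x : EndoField E M) x = Q x :=
    fun x hx => if_neg fun h => hd x h hx
  set R : EndoField E M := fun x => if x ∈ Λ₁ then P x else Q x with hR
  have s1 : ∀ x ∈ Λ₁, stableSp R x = stableSp P x ∧ unstableSp R x = unstableSp P x := by
    intro x hx
    unfold stableSp unstableSp
    rw [e1 x hx]
    exact ⟨rfl, rfl⟩
  have s2 : ∀ x ∈ Λ₂, stableSp R x = stableSp Q x ∧ unstableSp R x = unstableSp Q x := by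
    intro x hx
    unfold stableSp unstableSp
    rw [e2 x hx]
    exact ⟨rfl, rfl⟩
  refine ⟨R, ?_, ?_, ?_, ?_, fun γ => ?_⟩
  · rintro x (hx | hx) v
    · rw [e1 x hx]
      exact a1 x hx v
    · rw [e2 x hx]
      exact b1 x hx v
  · intro x hx
    rcases hx with hx | hx
    · refine ContinuousWithinAt.union ?_ (continuousWithinAt_of_notMem_closure ?_)
      · refine (a2 x hx).congr (fun y hy => ?_) ?_
        · rw [e1 y hy]
        · rw [e1 x hx]
      · rw [hc₂.closure_eq]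
        exact hd x hx
    · refine ContinuousWithinAt.union (continuousWithinAt_of_notMem_closure ?_) ?_
      · rw [hc₁.closure_eq]
        exact fun h => hd x h hx
      · refine (b2 x hx).congr (fun y hy => ?_) ?_
        · rw [e2 y hy]
        · rw [e2 x hx]
  · rintro x (hx | hx)
    · rw [(s1 x hx).1, (s1 _ (hf₁ x hx)).1]
      exact a3 x hx
    · rw [(s2 x hx).1, (s2 _ (hf₂ x hx)).1]
      exact b3 x hx
  · rintro x (hx | hx)
    · rw [(s1 x hx).2, (s1 _ (hf₁ x hx)).2]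
      exact a4 x hx
    · rw [(s2 x hx).2, (s2 _ (hf₂ x hx)).2]
      exact b4 x hx
  · obtain ⟨c, hc, μ, hμ0, hμ1, a6⟩ := a5 γ
    obtain ⟨c', hc', μ', hμ0', hμ1', b6⟩ := b5 γ
    refine ⟨max c c', lt_max_of_lt_left hc, max μ μ', lt_max_of_lt_left hμ0, max_lt hμ1 hμ1', ?_⟩
    rintro x (hx | hx)
    · rw [(s1 x hx).1, (s1 x hx).2]
      exact ⟨(a6 x hx).1.mono (le_max_left _ _) hμ0.le (le_max_left _ _) hc.le,
        (a6 x hx).2.mono (le_max_left _ _) hμ0.le (le_max_left _ _) hc.le⟩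
    · rw [(s2 x hx).1, (s2 x hx).2]
      exact ⟨(b6 x hx).1.mono (le_max_right _ _) hμ0'.le (le_max_right _ _) hc'.le,
        (b6 x hx).2.mono (le_max_right _ _) hμ0'.le (le_max_right _ _) hc'.le⟩

end HypSets

variable {E : Type*} [NormedAddCommGroup E] [NormedSpace ℝ E] [FiniteDimensional ℝ E]
  {M : Type*} [MetricSpace M] [CompactSpace M] [ChartedSpace E M] [IsManifold 𝓘(ℝ, E) ∞ M]
  {r : ℕ∞}

theorem Stab.no_lcyc {N : Set (Dyn E M r)} (hN : Stab N) (hr : 1 ≤ r) {f : Dyn E M r}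
    (hfN : f ∈ N) (hrec : HypRec f) (hf : PH f.toHomeomorph) (m n : ℕ) :
    ∀ g ∈ N, ∀ p x : ℕ → M, ¬ LCyc f g (LL f.toHomeomorph m) m n p x := by
  induction n using Nat.strong_induction_on with
  | _ n IH =>
  intro g hg p x h
  have hm := h.cyc.hm
  rcases Nat.lt_or_ge n 2 with hn | hn
  · have hn1 : n = 1 := by have := h.cyc.hn; omega
    subst hn1
    exact hN.no_homoclinic' hr hfN hrec hf hg h
  · by_cases hd : ∀ i j, i < j → j < n → ∀ s : ℤ, p j ≠ zi g.toEquiv s (p i)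
    · obtain ⟨g', hg', p', x', h'⟩ := hN.merge' hr hg (hf.isClosed_LL hm)
        (LL_zinv (f := f.toHomeomorph)) h hn hd
      exact IH (n - 1) (by omega) g' hg' p' x' h'
    · push Not at hd
      obtain ⟨i, j, hij, hj, s, hs⟩ := hd
      refine IH (j - i) (by omega) g hg (fun k => p (i + k)) (fun k => x (i + k))
        ⟨h.near, ⟨hm, by omega, fun k hk => h.cyc.per _ (by omega), ⟨s, ?_⟩, fun k hk => ?_⟩,
        fun k hk => h.pL _ (by omega), fun k hk => h.xL _ (by omega)⟩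
      · have e1 : i + (j - i) = j := by omega
        simp only [e1, add_zero]
        exact hs
      · exact h.cyc.conn (i + k) (by omega)

theorem sUnion_hyp {f : Dyn E M r} (hrec : HypRec f) (hf : PH f.toHomeomorph)
    (hfin : {P | Piece f.toHomeomorph P}.Finite) :
    IsHyperbolicSet f (⋃₀ {P | Piece f.toHomeomorph P}) := by
  suffices key : ∀ S : Set (Set M), S.Finite → S ⊆ {P | Piece f.toHomeomorph P} →
      IsHyperbolicSet f (⋃₀ S) from key _ hfin subset_rfl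
  intro S hS
  induction S, hS using Set.Finite.induction_on with
  | empty =>
    intro _
    rw [sUnion_empty]
    exact IsHyperbolicSet.empty f
  | @insert P S hPS hS ih =>
    intro hsub
    have hP : Piece f.toHomeomorph P := hsub (mem_insert _ _)
    have hS' : ∀ Q ∈ S, Piece f.toHomeomorph Q := fun Q hQ => hsub (mem_insert_of_mem _ hQ)
    rw [sUnion_insert]
    have hPH : IsHyperbolicSet f P := by
      obtain ⟨z, hz, hzP⟩ := hP.1
      rw [← hzP]
      exact hrec.hyp hz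
    refine hPH.union (ih hS') hP.1.isClosed ?_ (fun x hx => hP.1.zinv.mapsTo hx) ?_ ?_
    · rw [sUnion_eq_biUnion]
      exact hS.isClosed_biUnion fun Q hQ => (hS' Q hQ).1.isClosed
    · rintro x ⟨Q, hQ, hx⟩
      exact ⟨Q, hQ, (hS' Q hQ).1.zinv.mapsTo hx⟩
    · rintro x hx ⟨Q, hQ, hxQ⟩
      exact hPS (hf.piece_eq hP (hS' Q hQ) ⟨x, hx, hxQ⟩ ▸ hQ)

/-- **The metric version of the main theorem.** -/
theorem main_metric2 (hr : 1 ≤ r) (f : Dyn E M r) (hf : OmegaStable f) :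
    AxiomA f ↔ ∀ x, Recurrent f x →
      IsHyperbolicSet f (closure (range fun n : ℕ => f^[n] x)) := by
  constructor
  · intro h x hx
    refine h.1.mono ?_
    have h2 : closure (range fun n : ℕ => f^[n] x) = omegaL f x :=
      closure_orbit_eq (f := f.toHomeomorph) hx
    rw [h2]
    exact omegaL_subset_nonwandering f x
  · intro hrec
    have hrec : HypRec f := hrec
    obtain ⟨N, hN, hfN, hconj⟩ := hf
    have hS : Stab N := ⟨hN, fun g hg g' hg' =>
      ((hconj g hg).symm (Dyn.isOpenMap f) f.continuous).trans (Dyn.isOpenMap f) f.continuous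
        (hconj g' hg')⟩
    have hPH : PH f.toHomeomorph := hrec.ph hr fun n hn => hS.fix_finite hr n hn f hfN
    have hmain : {P | Piece f.toHomeomorph P}.Finite ∧
        nonwandering f ⊆ ⋃₀ {P | Piece f.toHomeomorph P} := by
      by_contra hcon
      obtain ⟨n, P, y, hP⟩ := hPH.exists_cycle hcon
      obtain ⟨m, -, g, hg, p, x, hcyc⟩ := hS.exists_lcyc hr hfN hrec hPH hP
      exact hS.no_lcyc hr hfN hrec hPH m n g hg p x hcyc
    refine ⟨(sUnion_hyp hrec hPH hmain.1).mono hmain.2, fun x hx => ?_⟩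
    obtain ⟨P, hP, hxP⟩ := hmain.2 hx
    exact closure_mono inter_subset_right (hPH.dense_periodic hP hxP)

end OmSt
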