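import Pool.Agent.OmSt2.Final2

/-!
# Finite invariant sets of hyperbolic periodic points; the final form of the theorem
-/

open Set Filter Topology Manifold ContDiff Metric

set_option linter.unusedSectionVars false

namespace OmSt

variable {E : Type*} [NormedAddCommGroup E] [NormedSpace ℝ E]
  {M : Type*} [TopologicalSpace M] [ChartedSpace E M] {r : ℕ∞}

variable [IsManifold 𝓘(ℝ, E) ∞ M]

theorem isHyperbolicSet_of_finite [T2Space M] (hr : 1 ≤ r) (f : Dyn E M r) {S : Set M}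
    (hfin : S.Finite) (hper : S ⊆ Function.periodicPts f) (hΩ : ∀ x ∈ S, f x ∈ S)
    (hhyp : ∀ x ∈ S, ∀ m > 0, f^[m] x = x → IsHyp (D f^[m] x : E →L[ℝ] E)) :
    IsHyperbolicSet f S := by
  obtain ⟨m₀, hm₀, hfix⟩ := exists_common_period hfin hper
  have hdata : ∀ x ∈ S, ∃ P : E →L[ℝ] E, ∃ c μ : ℝ,
      HypData (D f^[m₀] x) (D f.symm^[m₀] x) P c μ := fun x hx =>
    exists_hypData f hr (hfix x hx) (hhyp x hx m₀ hm₀ (hfix x hx))
  choose! P c μ hP using hdata
  -- invertibility and conjugation at one step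
  have hinv : ∀ x, (D f x : E →L[ℝ] E) * D f.symm (f x) = 1 ∧
      (D f.symm (f x) : E →L[ℝ] E) * D f x = 1 := fun x =>
    ⟨(Dyn.D_inv f hr 1 (x := x)).2, (Dyn.D_inv f hr 1 (x := x)).1⟩
  have hcomm : ∀ x ∈ S,
      (D f^[m₀] (f x) : E →L[ℝ] E) * D f x = (D f x : E →L[ℝ] E) * D f^[m₀] x := by
    intro x hx
    have h1 := D_iterate_add (Dyn.mdiff f hr) m₀ 1 x
    have h2 := D_iterate_succ (Dyn.mdiff f hr) m₀ x
    rw [hfix x hx] at h2
    exact h1.symm.trans h2
  have hcomm' : ∀ x ∈ S,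
      (D f.symm^[m₀] (f x) : E →L[ℝ] E) * D f x = (D f x : E →L[ℝ] E) * D f.symm^[m₀] x := by
    intro x hx
    have h1 := (hP x hx).h1
    have h2 := (hP (f x) (hΩ x hx)).h2
    calc (D f.symm^[m₀] (f x) : E →L[ℝ] E) * D f x
        = (D f.symm^[m₀] (f x) : E →L[ℝ] E) * D f x * (D f^[m₀] x * D f.symm^[m₀] x) := by
          rw [h1, mul_one]
      _ = (D f.symm^[m₀] (f x) : E →L[ℝ] E) * (D f x * D f^[m₀] x) * D f.symm^[m₀] x := by
          simp only [mul_assoc]
      _ = (D f.symm^[m₀] (f x) : E →L[ℝ] E) * D f^[m₀] (f x) * (D f x * D f.symm^[m₀] x) := by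
          rw [← hcomm x hx]
          simp only [mul_assoc]
      _ = _ := by rw [h2, one_mul]
  have hset : ∀ x ∈ S, {v : E | P x v = v} =
      {v | Tendsto (fun n : ℕ => ((D f^[m₀] x : E →L[ℝ] E) ^ n) v) atTop (𝓝 0)} := fun x hx =>
    Set.ext fun v => (hP x hx).char v
  have hset' : ∀ x ∈ S, {v : E | P x v = 0} =
      {v | Tendsto (fun n : ℕ => ((D f.symm^[m₀] x : E →L[ℝ] E) ^ n) v) atTop (𝓝 0)} :=
    fun x hx => Set.ext fun v => (hP x hx).char' v
  refine ⟨fun x => P x, fun x hx v => ?_, hfin.continuousOn _, fun x hx => ?_, fun x hx => ?_,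
    fun γ => ?_⟩
  · exact congrArg (fun L : E →L[ℝ] E => L v) (hP x hx).hPP
  · change (D f x : E →L[ℝ] E) '' {v : E | P x v = v} = {w : E | P (f x) w = w}
    rw [hset x hx, hset _ (hΩ x hx)]
    exact image_decay (hinv x).1 (hinv x).2 (hcomm x hx)
  · change (D f x : E →L[ℝ] E) '' {v : E | P x v = 0} = {w : E | P (f x) w = 0}
    rw [hset' x hx, hset' _ (hΩ x hx)]
    exact image_decay (hinv x).1 (hinv x).2 (hcomm' x hx)
  · -- the rates
    have hΩn : ∀ x ∈ S, ∀ m, f^[m] x ∈ S := by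
      intro x hx m
      induction m with
      | zero => exact hx
      | succ m ih =>
        rw [Function.iterate_succ_apply']
        exact hΩ _ ih
    have hΩs : ∀ x ∈ S, f.symm x ∈ S := by
      intro x hx
      have h1 : f.symm x = f^[m₀ - 1] x := by
        have h2 : f (f^[m₀ - 1] x) = x := by
          rw [← Function.iterate_succ_apply' f (m₀ - 1) x]
          have e1 : (m₀ - 1).succ = m₀ := by omega
          rw [e1]
          exact hfix x hx
        calc f.symm x = f.symm (f (f^[m₀ - 1] x)) := by rw [h2]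
          _ = _ := f.symm_apply_apply _
      rw [h1]
      exact hΩn x hx _
    have hΩsn : ∀ x ∈ S, ∀ m, f.symm^[m] x ∈ S := by
      intro x hx m
      induction m with
      | zero => exact hx
      | succ m ih =>
        rw [Function.iterate_succ_apply']
        exact hΩs _ ih
    obtain ⟨A, hA, -, -, -, hAn⟩ := exists_common hfin
      (Q := fun y C _ => ∀ v : E, ‖v‖ ≤ C * √(γ.inner y v v) ∧ √(γ.inner y v v) ≤ C * ‖v‖)
      (fun y C C' _ _ hC _ hCC' _ h v => ⟨(h v).1.trans (by gcongr), (h v).2.trans (by gcongr)⟩)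
      (fun y hy => by
        obtain ⟨a, ha, h⟩ := exists_norm_equiv γ y
        exact ⟨a, ha, 1 / 2, by norm_num, by norm_num, h⟩)
    obtain ⟨C₁, hC₁, μ₁, hμ₁, hμ₁1, h₁⟩ := exists_common hfin
      (Q := fun x C ν => ∀ (m : ℕ) (v : E), P x v = v →
        ‖(D f^[m] x : E →L[ℝ] E) v‖ ≤ C * ν ^ m * ‖v‖)
      (fun y C C' ν ν' hC hν hCC' hνν' h m v hv => (h m v hv).trans (by
        have := hC.trans_le hCC'
        gcongr))
      (fun x hx => exists_rate (Dyn.mdiff f hr) hm₀ (hfix x hx) (hP x hx).hc (hP x hx).hμ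
        (hP x hx).hμ1 fun k => ((hP x hx).hb k).1)
    obtain ⟨C₂, hC₂, μ₂, hμ₂, hμ₂1, h₂⟩ := exists_common hfin
      (Q := fun x C ν => ∀ (m : ℕ) (v : E), (1 - P x) v = v →
        ‖(D f.symm^[m] x : E →L[ℝ] E) v‖ ≤ C * ν ^ m * ‖v‖)
      (fun y C C' ν ν' hC hν hCC' hνν' h m v hv => (h m v hv).trans (by
        have := hC.trans_le hCC'
        gcongr))
      (fun x hx => exists_rate (Dyn.mdiff_symm f hr) hm₀ (symm_iterate_fix f (hfix x hx))
        (hP x hx).hc (hP x hx).hμ (hP x hx).hμ1 fun k => ((hP x hx).hb k).2)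
    have gen : ∀ (x y : M) (hx : x ∈ S) (hy : y ∈ S) (L : E →L[ℝ] E)
        (m : ℕ) (v : E) (C ν : ℝ) (hC : 0 < C) (hν : 0 < ν)
        (hCC' : C ≤ max C₁ C₂) (hνν' : ν ≤ max μ₁ μ₂) (h : ‖L v‖ ≤ C * ν ^ m * ‖v‖),
        √(γ.inner y (L v) (L v)) ≤ (A * A * max C₁ C₂) * (max μ₁ μ₂) ^ m * √(γ.inner x v v) := by
      intro x y hx hy L m v C ν hC hν hCC' hνν' h
      have hmC : 0 < max C₁ C₂ := lt_max_of_lt_left hC₁
      have hmμ : 0 < max μ₁ μ₂ := lt_max_of_lt_left hμ₁
      calc √(γ.inner y (L v) (L v)) ≤ A * ‖L v‖ := (hAn y hy (L v)).2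
        _ ≤ A * (C * ν ^ m * ‖v‖) := by gcongr
        _ ≤ A * (max C₁ C₂ * (max μ₁ μ₂) ^ m * (A * √(γ.inner x v v))) := by
          gcongr
          exact (hAn x hx v).1
        _ = _ := by ring
    refine ⟨A * A * max C₁ C₂, by positivity, max μ₁ μ₂, lt_max_of_lt_left hμ₁, max_lt hμ₁1 hμ₂1,
      fun x hx => ⟨fun m v hv => ?_, fun m v hv => ?_⟩⟩
    · exact gen x _ hx (hΩn x hx m) (D f^[m] x) m v C₁ μ₁ hC₁ hμ₁ (le_max_left _ _)
        (le_max_left _ _) (h₁ x hx m v hv)
    · refine gen x _ hx (hΩsn x hx m) (D f.symm^[m] x) m v C₂ μ₂ hC₂ hμ₂ (le_max_right _ _)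
        (le_max_right _ _) (h₂ x hx m v ?_)
      have hv' : P x v = 0 := hv
      have e : ((1 : E →L[ℝ] E) - P x) v = (1 : E →L[ℝ] E) v - P x v := rfl
      rw [e, hv', sub_zero]
      rfl

end OmSt

namespace OmSt

variable {E : Type*} [NormedAddCommGroup E] [NormedSpace ℝ E] [FiniteDimensional ℝ E]
  {M : Type*} [MetricSpace M] [CompactSpace M] [ChartedSpace E M] [IsManifold 𝓘(ℝ, E) ∞ M]
  {r : ℕ∞}

/-- **The metric version of the main theorem.** -/
theorem main_metric3 (hr : 1 ≤ r) (f : Dyn E M r) (hf : OmegaStable f) :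
    AxiomA f ↔ ∀ x, Recurrent f x → x ∉ Function.periodicPts f →
      IsHyperbolicSet f (closure (range fun n : ℕ => f^[n] x)) := by
  constructor
  · exact fun h x hx _ => (main_metric2 hr f hf).1 h x hx
  · intro h
    refine (main_metric2 hr f hf).2 fun x hx => ?_
    by_cases hxp : x ∈ Function.periodicPts f
    · obtain ⟨N, hN, hfN, hconj⟩ := hf
      have hS : Stab N := ⟨hN, fun g hg g' hg' =>
        ((hconj g hg).symm (Dyn.isOpenMap f) f.continuous).trans (Dyn.isOpenMap f) f.continuous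
          (hconj g' hg')⟩
      obtain ⟨m, hm, hxm⟩ := id hxp
      have hxm : f^[m] x = x := hxm
      have hfin : (range fun n : ℕ => f^[n] x).Finite := by
        refine ((Set.finite_lt_nat m).image fun n => f^[n] x).subset ?_
        rintro _ ⟨n, rfl⟩
        refine ⟨n % m, Nat.mod_lt _ hm, ?_⟩
        have h1 : Function.IsPeriodicPt f m x := hxm
        change f^[n % m] x = f^[n] x
        exact h1.iterate_mod_apply n
      rw [hfin.isClosed.closure_eq]
      refine isHyperbolicSet_of_finite hr f hfin ?_ ?_ fun y hy k hk hyk =>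
        hS.isHyp hr hfN hk hyk
      · rintro _ ⟨n, rfl⟩
        refine ⟨m, hm, ?_⟩
        change f^[m] (f^[n] x) = f^[n] x
        rw [← Function.iterate_add_apply, add_comm, Function.iterate_add_apply, hxm]
      · rintro _ ⟨n, rfl⟩
        exact ⟨n + 1, Function.iterate_succ_apply' f n x⟩
    · exact h x hx hxp

end OmSt
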