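import Pool.Agent.OmSt2.Shad
import Pool.Agent.OmSt.Chain2

/-!
# The transitive hull of a chain transitive set with shadowing
-/

open Set Filter Topology Metric

set_option linter.unusedSectionVars false

namespace OmSt

variable {X : Type*} [MetricSpace X] [CompactSpace X]

/-- Expansivity near `Λ` and shadowing of the pseudo-orbits in `Λ`. -/
structure Sh (f : X ≃ₜ X) (Λ : Set X) : Prop where
  exp : ∃ ε > 0, ∀ x y, (∀ n : ℤ, ∃ z ∈ Λ, dist (zi f.toEquiv n x) z ≤ ε) →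
    (∀ n : ℤ, dist (zi f.toEquiv n x) (zi f.toEquiv n y) ≤ ε) → x = y
  shadow : ∀ ε > 0, ∃ δ > 0, ∀ p : ℤ → X, (∀ n, p n ∈ Λ) →
    (∀ n, dist (f (p n)) (p (n + 1)) ≤ δ) → ∃ x, ∀ n, dist (zi f.toEquiv n x) (p n) ≤ ε

/-- Invariance under all iterates. -/
def ZInv (f : X ≃ₜ X) (Λ : Set X) : Prop := ∀ x ∈ Λ, ∀ k : ℤ, zi f.toEquiv k x ∈ Λ

/-- There is a `δ`-chain from `x` to `y` in `Λ`. -/
def Chn (f : X ≃ₜ X) (Λ : Set X) (δ : ℝ) (x y : X) : Prop :=
  ∃ (c : ℕ → X) (L : ℕ), 0 < L ∧ c 0 = x ∧ c L = y ∧ (∀ i ≤ L, c i ∈ Λ) ∧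
    ∀ i < L, dist (f (c i)) (c (i + 1)) ≤ δ

/-- Existence of limits. -/
theorem exists_lim (z : ℕ → X) : ∃ a, Tendsto z (hyperfilter ℕ) (𝓝 a) := by
  obtain ⟨a, -, ha⟩ := isCompact_univ.ultrafilter_le_nhds ((hyperfilter ℕ : Ultrafilter ℕ).map z)
    (by simp)
  exact ⟨a, ha⟩

/-- Uniform expansivity. -/
theorem Sh.unif {f : X ≃ₜ X} {Λ : Set X} (hcl : IsClosed Λ) (h : Sh f Λ) :
    ∃ ε > 0, (∀ x y, (∀ n : ℤ, ∃ z ∈ Λ, dist (zi f.toEquiv n x) z ≤ ε) →
      (∀ n : ℤ, dist (zi f.toEquiv n x) (zi f.toEquiv n y) ≤ ε) → x = y) ∧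
      ∀ η > 0, ∃ m : ℕ, ∀ x y,
        (∀ n : ℤ, |n| ≤ m → ∃ z ∈ Λ, dist (zi f.toEquiv n x) z ≤ ε) →
        (∀ n : ℤ, |n| ≤ m → dist (zi f.toEquiv n x) (zi f.toEquiv n y) ≤ ε) → dist x y ≤ η := by
  obtain ⟨ε, hε, h1⟩ := h.exp
  refine ⟨ε, hε, h1, fun η hη => ?_⟩
  by_contra hcon
  push Not at hcon
  choose x y hxy1 hxy2 hxy3 using hcon
  obtain ⟨a, ha⟩ := exists_lim x
  obtain ⟨b, hb⟩ := exists_lim y
  have hev : ∀ n : ℤ, ∀ᶠ m : ℕ in (hyperfilter ℕ : Filter ℕ), |n| ≤ m := by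
    intro n
    have h5 : ∀ᶠ k : ℕ in (hyperfilter ℕ : Filter ℕ), n.natAbs ≤ k :=
      Nat.hyperfilter_le_atTop (eventually_ge_atTop _)
    filter_upwards [h5] with k hk
    rw [Int.abs_eq_natAbs]
    exact_mod_cast hk
  have hab : a = b := by
    refine h1 a b (fun n => ?_) (fun n => ?_)
    · have h2 : ∀ m : ℕ, ∃ z, |n| ≤ m → z ∈ Λ ∧ dist (zi f.toEquiv n (x m)) z ≤ ε := by
        intro m
        by_cases hm : |n| ≤ m
        · obtain ⟨z, hz, hz'⟩ := hxy1 m n hm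
          exact ⟨z, fun _ => ⟨hz, hz'⟩⟩
        · exact ⟨x m, fun h => absurd h hm⟩
      choose z hz using h2
      obtain ⟨c, hc⟩ := exists_lim z
      refine ⟨c, ?_, ?_⟩
      · refine hcl.mem_of_tendsto hc ?_
        filter_upwards [hev n] with m hm
        exact (hz m hm).1
      · have h3 : Tendsto (fun m => dist (zi f.toEquiv n (x m)) (z m)) (hyperfilter ℕ)
            (𝓝 (dist (zi f.toEquiv n a) c)) :=
          (((continuous_zi f n).tendsto a).comp ha).dist hc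
        refine le_of_tendsto h3 ?_
        filter_upwards [hev n] with m hm
        exact (hz m hm).2
    · have h3 : Tendsto (fun m => dist (zi f.toEquiv n (x m)) (zi f.toEquiv n (y m)))
          (hyperfilter ℕ) (𝓝 (dist (zi f.toEquiv n a) (zi f.toEquiv n b))) :=
        (((continuous_zi f n).tendsto a).comp ha).dist (((continuous_zi f n).tendsto b).comp hb)
      refine le_of_tendsto h3 ?_
      filter_upwards [hev n] with m hm
      exact hxy2 m n hm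
  have h4 : η ≤ dist a b :=
    ge_of_tendsto' (ha.dist hb) (fun m => (hxy3 m).le)
  rw [hab, dist_self] at h4
  linarith

/-- Points whose orbits follow pseudo-orbits in `Λ`. -/
def Hull (f : X ≃ₜ X) (Λ : Set X) (δ ε : ℝ) : Set X :=
  {x | ∃ p : ℤ → X, (∀ n, p n ∈ Λ) ∧ (∀ n, dist (f (p n)) (p (n + 1)) ≤ δ) ∧
    ∀ n, dist (zi f.toEquiv n x) (p n) ≤ ε}

theorem zi_succ' (f : X ≃ₜ X) (n : ℤ) (x : X) :
    zi f.toEquiv (n + 1) x = f (zi f.toEquiv n x) := by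
  rw [add_comm, zi_add]
  have := zi_nat f.toEquiv 1 (zi f.toEquiv n x)
  simpa using this

theorem subset_hull {f : X ≃ₜ X} {Λ : Set X} (hinv : ZInv f Λ) {δ ε : ℝ} (hδ : 0 ≤ δ)
    (hε : 0 ≤ ε) : Λ ⊆ Hull f Λ δ ε := fun x hx =>
  ⟨fun n => zi f.toEquiv n x, fun n => hinv x hx n,
    fun n => by
      change dist (f (zi f.toEquiv n x)) (zi f.toEquiv (n + 1) x) ≤ δ
      rw [zi_succ', dist_self]
      exact hδ, fun n => by rw [dist_self]; exact hε⟩

theorem hull_inv {f : X ≃ₜ X} {Λ : Set X} {δ ε : ℝ} : ZInv f (Hull f Λ δ ε) := by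
  rintro x ⟨p, h1, h2, h3⟩ k
  refine ⟨fun n => p (n + k), fun n => h1 _, fun n => ?_, fun n => ?_⟩
  · have := h2 (n + k)
    have e1 : n + k + 1 = n + 1 + k := by ring
    rwa [e1] at this
  · rw [← zi_add]
    exact h3 _

theorem isClosed_hull {f : X ≃ₜ X} {Λ : Set X} (hcl : IsClosed Λ) {δ ε : ℝ} :
    IsClosed (Hull f Λ δ ε) := by
  refine isClosed_of_closure_subset fun x hx => ?_
  rw [mem_closure_iff_seq_limit] at hx
  obtain ⟨u, hu, hux⟩ := hx
  choose p h1 h2 h3 using hu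
  have hux' : Tendsto u (hyperfilter ℕ) (𝓝 x) := hux.mono_left Nat.hyperfilter_le_atTop
  choose q hq using fun n : ℤ => exists_lim (fun k => p k n)
  refine ⟨q, fun n => hcl.mem_of_tendsto (hq n) (Eventually.of_forall fun k => h1 k n),
    fun n => ?_, fun n => ?_⟩
  · exact le_of_tendsto' (((f.continuous.tendsto _).comp (hq n)).dist (hq (n + 1)))
      (fun k => h2 k n)
  · exact le_of_tendsto' ((((continuous_zi f n).tendsto x).comp hux').dist (hq n))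
      (fun k => h3 k n)

/-- Transitivity of the hull. -/
theorem hull_trans {f : X ≃ₜ X} {Λ : Set X} {ε δ : ℝ}
    (hunif : ∀ η > 0, ∃ m : ℕ, ∀ x y,
        (∀ n : ℤ, |n| ≤ m → ∃ z ∈ Λ, dist (zi f.toEquiv n x) z ≤ 2 * ε) →
        (∀ n : ℤ, |n| ≤ m → dist (zi f.toEquiv n x) (zi f.toEquiv n y) ≤ 2 * ε) → dist x y ≤ η)
    (hε : 0 < ε)
    (hsh : ∀ p : ℤ → X, (∀ n, p n ∈ Λ) →
      (∀ n, dist (f (p n)) (p (n + 1)) ≤ δ) → ∃ x, ∀ n, dist (zi f.toEquiv n x) (p n) ≤ ε)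
    (hch : ∀ x ∈ Λ, ∀ y ∈ Λ, Chn f Λ δ x y) {x y : X} (hx : x ∈ Hull f Λ δ ε)
    (hy : y ∈ Hull f Λ δ ε) {η : ℝ} (hη : 0 < η) (N : ℕ) :
    ∃ z ∈ Hull f Λ δ ε, ∃ n ≥ N, dist x z ≤ η ∧ dist y (f^[n] z) ≤ η := by
  obtain ⟨m₀, hm₀⟩ := hunif η hη
  obtain ⟨p, hp1, hp2, hp3⟩ := hx
  obtain ⟨q, hq1, hq2, hq3⟩ := hy
  set m : ℕ := max m₀ N with hm
  have hm1 : m₀ ≤ m := le_max_left _ _
  have hm2 : N ≤ m := le_max_right _ _
  obtain ⟨c, L, hL, hc0, hcL, hc1, hc2⟩ := hch (p m) (hp1 m) (q (-m)) (hq1 _)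
  set s : ℤ → X := fun n => if n < m then p n else if n < m + L then c (n - m).toNat else
    q (n - (2 * m + L)) with hs
  have hs1 : ∀ n : ℤ, n < m → s n = p n := fun n hn => by simp [hs, hn]
  have hs2 : ∀ n : ℤ, m ≤ n → n < m + L → s n = c (n - m).toNat := fun n hn hn' => by
    simp [hs, not_lt.2 hn, hn']
  have hs3 : ∀ n : ℤ, (m : ℤ) + L ≤ n → s n = q (n - (2 * m + L)) := fun n hn => by
    have : ¬ n < m := by
      have : (0 : ℤ) ≤ L := by positivity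
      omega
    simp [hs, this, not_lt.2 hn]
  have hs1' : ∀ n : ℤ, n ≤ m → s n = p n := by
    intro n hn
    rcases hn.lt_or_eq with h | h
    · exact hs1 n h
    · subst h
      rw [hs2 _ le_rfl (by omega), sub_self]
      exact hc0
  have hsΛ : ∀ n, s n ∈ Λ := by
    intro n
    rcases lt_or_ge n (m : ℤ) with h | h
    · rw [hs1 n h]; exact hp1 n
    · rcases lt_or_ge n ((m : ℤ) + L) with h' | h'
      · rw [hs2 n h h']; exact hc1 _ (by omega)
      · rw [hs3 n h']; exact hq1 _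
  have hsj : ∀ n, dist (f (s n)) (s (n + 1)) ≤ δ := by
    intro n
    rcases lt_or_ge n (m : ℤ) with h | h
    · rw [hs1 n h, hs1' (n + 1) (by omega)]; exact hp2 n
    · rcases lt_or_ge n ((m : ℤ) + L) with h' | h'
      · rw [hs2 n h h']
        rcases lt_or_ge (n + 1) ((m : ℤ) + L) with h'' | h''
        · rw [hs2 (n + 1) (by omega) h'']
          have e1 : (n + 1 - m).toNat = (n - m).toNat + 1 := by omega
          rw [e1]
          exact hc2 _ (by omega)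
        · have e0 : n + 1 = m + L := by omega
          rw [hs3 (n + 1) h'']
          have e1 : n + 1 - (2 * m + L) = -(m : ℤ) := by omega
          have e2 : (n - m).toNat + 1 = L := by omega
          rw [e1, ← hcL]
          have := hc2 (n - m).toNat (by omega)
          rwa [e2] at this
      · rw [hs3 n h', hs3 (n + 1) (by omega)]
        have e1 : n + 1 - (2 * m + L) = n - (2 * m + L) + 1 := by ring
        rw [e1]
        exact hq2 _
  obtain ⟨z, hz⟩ := hsh s hsΛ hsj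
  refine ⟨z, ⟨s, hsΛ, hsj, hz⟩, 2 * m + L, by omega, ?_, ?_⟩
  · refine hm₀ x z (fun n _ => ⟨p n, hp1 n, (hp3 n).trans (by linarith)⟩) (fun n hn => ?_)
    have h1 := hz n
    rw [hs1' n (by have := abs_le.1 hn; omega)] at h1
    calc dist (zi f.toEquiv n x) (zi f.toEquiv n z)
        ≤ dist (zi f.toEquiv n x) (p n) + dist (zi f.toEquiv n z) (p n) :=
          dist_triangle_right _ _ _
      _ ≤ 2 * ε := by linarith [hp3 n]
  · have e0 : f^[2 * m + L] z = zi f.toEquiv ((2 * m + L : ℕ) : ℤ) z :=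
      (zi_nat f.toEquiv (2 * m + L) z).symm
    rw [e0]
    refine hm₀ y _ (fun n _ => ⟨q n, hq1 n, (hq3 n).trans (by linarith)⟩) (fun n hn => ?_)
    rw [← zi_add]
    have h1 := hz (n + ((2 * m + L : ℕ) : ℤ))
    rw [hs3 _ (by have := abs_le.1 hn; push_cast; omega)] at h1
    have e1 : n + ((2 * m + L : ℕ) : ℤ) - (2 * m + L) = n := by push_cast; ring
    rw [e1] at h1
    calc _ ≤ dist (zi f.toEquiv n y) (q n) +
          dist (zi f.toEquiv (n + ((2 * m + L : ℕ) : ℤ)) z) (q n) := dist_triangle_right _ _ _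
      _ ≤ 2 * ε := by linarith [hq3 n]

/-- The Baire argument: a transitive closed set is the limit set of a recurrent point. -/
theorem exists_recurrent_of_trans {f : X ≃ₜ X} {H : Set X} (hH : IsClosed H) (hne : H.Nonempty)
    (hinv : MapsTo f H H)
    (htr : ∀ U V : Set X, IsOpen U → IsOpen V → (U ∩ H).Nonempty → (V ∩ H).Nonempty →
      ∀ N : ℕ, ∃ n ≥ N, ∃ x ∈ U ∩ H, f^[n] x ∈ V) :
    ∃ z, Recurrent f z ∧ omegaL f z = H := by
  classical
  have : CompactSpace H := isCompact_iff_compactSpace.1 hH.isCompact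
  have : Nonempty H := hne.to_subtype
  have : SecondCountableTopology X := inferInstance
  set 𝓑 := TopologicalSpace.countableBasis X with h𝓑
  have hb := TopologicalSpace.isBasis_countableBasis X
  have : Countable 𝓑 := (TopologicalSpace.countable_countableBasis X).to_subtype
  set O : ℕ × 𝓑 → Set H := fun a =>
    {z | ((a.2 : Set X) ∩ H).Nonempty → ∃ n ≥ a.1, f^[n] (z : X) ∈ (a.2 : Set X)} with hO
  have hOo : ∀ a, IsOpen (O a) := by
    intro a
    by_cases ha : ((a.2 : Set X) ∩ H).Nonempty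
    · have : O a = ⋃ n ≥ a.1, {z : H | f^[n] (z : X) ∈ (a.2 : Set X)} := by
        ext z
        simp [hO, ha]
      rw [this]
      refine isOpen_biUnion fun n _ => ?_
      exact (hb.isOpen a.2.2).preimage ((f.continuous.iterate n).comp continuous_subtype_val)
    · have : O a = univ := by
        ext z
        simp [hO, ha]
      rw [this]
      exact isOpen_univ
  have hOd : ∀ a, Dense (O a) := by
    intro a
    by_cases ha : ((a.2 : Set X) ∩ H).Nonempty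
    · rw [dense_iff_inter_open]
      intro U hU hUne
      obtain ⟨U', hU', rfl⟩ := isOpen_induced_iff.1 hU
      obtain ⟨u, hu⟩ := hUne
      obtain ⟨n, hn, x, hx, hx'⟩ := htr U' a.2 hU' (hb.isOpen a.2.2) ⟨u, hu, u.2⟩ ha a.1
      exact ⟨⟨x, hx.2⟩, hx.1, fun _ => ⟨n, hn, hx'⟩⟩
    · have : O a = univ := by
        ext z
        simp [hO, ha]
      rw [this]
      exact dense_univ
  obtain ⟨z, hz⟩ := (dense_iInter_of_isOpen hOo hOd).nonempty
  rw [mem_iInter] at hz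
  have key : ∀ y ∈ H, ∀ U ∈ 𝓝 y, ∀ N : ℕ, ∃ n ≥ N, f^[n] (z : X) ∈ U := by
    intro y hy U hU N
    obtain ⟨V, hV, hyV, hVU⟩ := hb.mem_nhds_iff.1 hU
    obtain ⟨n, hn, hn'⟩ := hz (N, ⟨V, hV⟩) ⟨y, hyV, hy⟩
    exact ⟨n, hn, hVU hn'⟩
  refine ⟨z, key z z.2, Subset.antisymm (fun y hy => ?_) (fun y hy => ?_)⟩
  · rw [← hH.closure_eq, Metric.mem_closure_iff]
    intro ε hε
    obtain ⟨n, -, hn⟩ := mem_omegaL_iff.1 hy ε hε 0
    exact ⟨_, hinv.iterate n z.2, by rwa [dist_comm]⟩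
  · rw [mem_omegaL_iff]
    intro ε hε N
    exact key y hy _ (ball_mem_nhds y hε) N

/-- **The transitive hull.** -/
theorem exists_hull {f : X ≃ₜ X} {Λ : Set X} (hcl : IsClosed Λ) (hne : Λ.Nonempty)
    (hinv : ZInv f Λ) (hS : Sh f Λ) (hch : ∀ δ > 0, ∀ x ∈ Λ, ∀ y ∈ Λ, Chn f Λ δ x y) :
    ∃ δ > 0, ∃ ε > 0, (∀ x y, (∀ n : ℤ, ∃ z ∈ Λ, dist (zi f.toEquiv n x) z ≤ 2 * ε) →
      (∀ n : ℤ, dist (zi f.toEquiv n x) (zi f.toEquiv n y) ≤ 2 * ε) → x = y) ∧
      ∃ z, Recurrent f z ∧ omegaL f z = Hull f Λ δ ε := by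
  obtain ⟨ε₀, hε₀, hexp, hunif⟩ := hS.unif hcl
  obtain ⟨δ, hδ, hsh⟩ := hS.shadow (ε₀ / 2) (half_pos hε₀)
  have e0 : 2 * (ε₀ / 2) = ε₀ := by ring
  refine ⟨δ, hδ, ε₀ / 2, half_pos hε₀, by rw [e0]; exact hexp, ?_⟩
  refine exists_recurrent_of_trans (isClosed_hull hcl)
    (hne.mono (subset_hull hinv hδ.le (half_pos hε₀).le)) (fun x hx => ?_) ?_
  · have := hull_inv x hx 1
    have e1 : zi f.toEquiv 1 x = f x := by
      have := zi_nat f.toEquiv 1 x
      simpa using this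
    rwa [e1] at this
  · rintro U V hU hV ⟨x, hxU, hx⟩ ⟨y, hyV, hy⟩ N
    obtain ⟨η₁, hη₁, h1⟩ := Metric.isOpen_iff.1 hU x hxU
    obtain ⟨η₂, hη₂, h2⟩ := Metric.isOpen_iff.1 hV y hyV
    obtain ⟨z, hz, n, hn, hz1, hz2⟩ := hull_trans (Λ := Λ) (by rw [e0]; exact hunif)
      (half_pos hε₀) hsh (hch δ hδ) hx hy (η := min η₁ η₂ / 2) (by positivity) N
    have h3 : min η₁ η₂ / 2 < min η₁ η₂ := half_lt_self (lt_min hη₁ hη₂)
    refine ⟨n, hn, z, ⟨h1 ?_, hz⟩, h2 ?_⟩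
    · rw [mem_ball, dist_comm]
      exact (hz1.trans_lt h3).trans_le (min_le_left _ _)
    · rw [mem_ball, dist_comm]
      exact (hz2.trans_lt h3).trans_le (min_le_right _ _)

end OmSt
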