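import Pool.Agent.OmSt2.Conn
import Pool.Agent.OmSt.AxB
import Pool.Agent.OmSt2.Cycle

/-!
# From cycles of pieces to cycles of periodic orbits
-/

open Set Filter Topology Manifold ContDiff Metric Bundle

set_option linter.unusedSectionVars false

namespace OmSt

section Top

variable {X : Type*} [MetricSpace X] [CompactSpace X]

theorem omegaL_zi (f : X ≃ₜ X) (k : ℤ) (x : X) : omegaL f (zi f.toEquiv k x) ⊆ omegaL f x := by
  intro y hy
  rw [mem_omegaL_iff] at hy ⊢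
  intro ε hε N
  obtain ⟨n, hn, hn'⟩ := hy ε hε (N + k.natAbs)
  refine ⟨(n + k).toNat, by omega, ?_⟩
  have e1 : f^[(n + k).toNat] x = f^[n] (zi f.toEquiv k x) := by
    have h1 : f^[(n + k).toNat] x = zi f.toEquiv ((n + k).toNat : ℤ) x := (zi_nat _ _ _).symm
    have h2 : f^[n] (zi f.toEquiv k x) = zi f.toEquiv (n : ℤ) (zi f.toEquiv k x) :=
      (zi_nat _ _ _).symm
    rw [h1, h2, ← zi_add]
    congr 1
    omega
  rw [e1]
  exact hn'

theorem omegaL_symm_zi (f : X ≃ₜ X) (k : ℤ) (x : X) :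
    omegaL f.symm (zi f.toEquiv k x) ⊆ omegaL f.symm x := by
  have h1 := omegaL_zi f.symm (-k) x
  have e1 : zi f.symm.toEquiv (-k) x = zi f.toEquiv k x := by
    obtain ⟨n, rfl | rfl⟩ := k.eq_nat_or_neg
    · rw [zi_nat, zi_neg]
      rfl
    · rw [neg_neg, zi_nat, zi_neg]
      rfl
  rwa [e1] at h1

/-- An orbit with limit sets in periodic orbits is asymptotic to periodic points. -/
theorem exists_limit_periodic {f : X ≃ₜ X} {m : ℕ} (hm : 0 < m) {S : Set X} (hS : S.Finite)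
    (hSm : ∀ p ∈ S, f^[m] p = p) {x : X} (h : omegaL f x ⊆ S) :
    ∃ p ∈ S, Tendsto (fun k : ℕ => f^[m * k] x) atTop (𝓝 p) := by
  refine tendsto_of_finite (g := f^[m]) (f.continuous.iterate m) (fun k => ?_) hS hSm
    (fun ε hε => ?_)
  · rw [mul_add, mul_one, add_comm, Function.iterate_add_apply]
  · obtain ⟨N, hN⟩ := eventually_near_omegaL f x hε
    refine ⟨N, fun k hk => ?_⟩
    obtain ⟨b, hb, hb'⟩ := hN (m * k) (hk.trans (Nat.le_mul_of_pos_left k hm))
    exact ⟨b, h hb, hb'⟩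

theorem exists_asy {f : X ≃ₜ X} {m : ℕ} (hm : 0 < m) {S S' : Set X} (hS : S.Finite)
    (hSm : ∀ p ∈ S, f^[m] p = p) (hS' : S'.Finite) (hSm' : ∀ p ∈ S', f^[m] p = p) {x : X}
    (h : omegaL f.symm x ⊆ S) (h' : omegaL f x ⊆ S') :
    ∃ p ∈ S, ∃ q ∈ S', Asy f.toEquiv m p q x := by
  have hSs : ∀ p ∈ S, f.symm^[m] p = p := by
    intro p hp
    have h1 : f.symm^[m] (f^[m] p) = p :=
      (Function.LeftInverse.iterate f.symm_apply_apply m) p
    rwa [hSm p hp] at h1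
  obtain ⟨p, hp, hpt⟩ := exists_limit_periodic (f := f.symm) hm hS hSs h
  obtain ⟨q, hq, hqt⟩ := exists_limit_periodic hm hS' hSm' h'
  refine ⟨p, hp, q, hq, ?_, ?_⟩
  · rw [tendsto_int_atTop_iff]
    refine hqt.congr fun k => ?_
    have e1 : (m : ℤ) * (k : ℤ) = ((m * k : ℕ) : ℤ) := by push_cast; ring
    rw [e1, zi_nat]
    rfl
  · rw [tendsto_int_atBot_iff]
    refine hpt.congr fun k => ?_
    have e1 : (m : ℤ) * (-(k : ℤ)) = -((m * k : ℕ) : ℤ) := by push_cast; ring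
    rw [e1, zi_neg]
    rfl

/-- Adjustment of the phases. -/
theorem exists_phases {f : X ≃ₜ X} {m : ℕ} {L : Set X} (hL : ZInv f L) {S : ℕ → Set X}
    {q : X} (hq : q ∈ S 0) (n : ℕ) (hSi : ∀ i ≤ n, ZInv f (S i))
    (hSt : ∀ i ≤ n, ∀ u ∈ S i, ∀ v ∈ S i, ∃ k : ℤ, v = zi f.toEquiv k u)
    (h : ∀ i < n, ∃ x, x ∉ L ∧ ∃ u ∈ S i, ∃ v ∈ S (i + 1), IsConn f.toEquiv m u v x) :
    ∃ p x : ℕ → X, (∀ i ≤ n, p i ∈ S i) ∧
      ∀ i < n, x i ∉ L ∧ IsConn f.toEquiv m (p i) (p (i + 1)) (x i) := by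
  classical
  induction n with
  | zero => exact ⟨fun _ => q, fun _ => q, fun i hi => by
      have : i = 0 := by omega
      subst this
      exact hq, fun i hi => by omega⟩
  | succ n ih =>
    obtain ⟨p, x, hp, hx⟩ := ih (fun i hi => hSi i (by omega)) (fun i hi => hSt i (by omega))
      fun i hi => h i (by omega)
    obtain ⟨y, hyL, u, hu, v, hv, hy⟩ := h n (by omega)
    obtain ⟨k, hk⟩ := hSt n (by omega) u hu (p n) (hp n le_rfl)
    refine ⟨fun i => if i = n + 1 then zi f.toEquiv k v else p i,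
      fun i => if i = n then zi f.toEquiv k y else x i, fun i hi => ?_, fun i hi => ?_⟩
    · by_cases h1 : i = n + 1
      · simp only [h1, if_true]
        exact hSi (n + 1) le_rfl v hv k
      · simp only [h1, if_false]
        exact hp i (by omega)
    · by_cases h1 : i = n
      · subst h1
        simp only [if_true, left_eq_add, one_ne_zero, if_false]
        refine ⟨fun hmem => hyL ?_, ⟨?_, fun l hl hyl => hy.np l hl ?_⟩⟩
        · have h2 := hL _ hmem (-k)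
          rwa [← zi_add, neg_add_cancel, zi_zero] at h2
        · rw [hk]
          exact hy.toAsy.translate f k
        · rw [zi_comm] at hyl
          exact zi_injective f.toEquiv k hyl
      · have h2 : i ≠ n + 1 := by omega
        have h3 : i + 1 ≠ n + 1 := by omega
        simp only [h1, h2, h3, if_false]
        exact hx i (by omega)

end Top

variable {E : Type*} [NormedAddCommGroup E] [NormedSpace ℝ E] [FiniteDimensional ℝ E]
  {M : Type*} [MetricSpace M] [CompactSpace M] [ChartedSpace E M] [IsManifold 𝓘(ℝ, E) ∞ M]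
  {r : ℕ∞}

theorem zi_eq_of {g g' : Dyn E M r} {x : M}
    (h : ∀ k : ℤ, g' (zi g.toEquiv k x) = g (zi g.toEquiv k x)) (k : ℤ) :
    zi g'.toEquiv k x = zi g.toEquiv k x := by
  obtain ⟨n, rfl | rfl⟩ := k.eq_nat_or_neg
  · induction n with
    | zero => simp [zi_zero]
    | succ n ih =>
      push_cast
      rw [zi_succ_apply, zi_succ_apply, ih, h]
  · induction n with
    | zero => simp [zi_zero]
    | succ n ih =>
      apply g'.injective
      change g' _ = g' _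
      have e1 : -((n + 1 : ℕ) : ℤ) + 1 = -n := by push_cast; ring
      rw [← zi_succ_apply, h, ← zi_succ_apply, e1, ih]

theorem omegaL_eq_of {g g' : Dyn E M r} {x : M}
    (h : ∀ k : ℤ, zi g'.toEquiv k x = zi g.toEquiv k x) :
    omegaL g' x ⊆ omegaL g x ∧ omegaL g'.symm x ⊆ omegaL g.symm x := by
  refine ⟨omegaL_congr (N₀ := 0) fun n _ => ?_, omegaL_congr (N₀ := 0) fun n _ => ?_⟩
  · have := h n
    rwa [zi_nat_apply, zi_nat_apply] at this
  · have := h (-(n : ℤ))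
    rwa [zi_neg_apply, zi_neg_apply] at this

/-- A cycle of connections which are not in `L`, for a diffeomorphism which agrees with `f`
near `L`. -/
structure LCyc (f g : Dyn E M r) (L : Set M) (m n : ℕ) (p x : ℕ → M) : Prop where
  near : NearEq f g L
  cyc : ZCyc g.toEquiv m n p x
  pL : ∀ i ≤ n, p i ∈ L
  xL : ∀ i < n, x i ∉ L

/-- One step: the connection `x l` is replaced. -/
theorem Stab.connect_step {N : Set (Dyn E M r)} (hN : Stab N) (hr : 1 ≤ r) {s : Finset M}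
    {K : M → Set M} {ρ₀ : ℝ} (hc : Cov E s K ρ₀) {f : Dyn E M r} {L : Set M}
    (hL : IsClosed L) (hLinv : Inv f L) {n : ℕ} {P S : ℕ → Set M} (hPL : ∀ i ≤ n, P i ⊆ L)
    (hP : ∀ i ≤ n, Inv f (P i)) (hPD : ∀ i ≤ n, ∃ κ, DHyp s K f (P i) κ)
    (hPD' : ∀ i ≤ n, ∃ κ, DHyp s K f.symm (P i) κ) (hPct : ∀ i ≤ n, CT f.toHomeomorph (P i))
    (hdis : ∀ i < n, ∀ j < n, (P i ∩ P j).Nonempty → i = j)
    {q : ℕ → M} (hq : ∀ i ≤ n, q i ∈ P i)
    (hS : ∀ i, S i = range fun k : ℤ => zi f.toEquiv k (q i)) (hSc : ∀ i ≤ n, IsClosed (S i))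
    {l : ℕ} (hl : l < n) {g : Dyn E M r} (hg : g ∈ N) (hfg : NearEq f g L) {x : ℕ → M}
    (hxL : ∀ i < n, x i ∉ L)
    (hx : ∀ i < n, omegaL g.symm (x i) ⊆ P i ∧ omegaL g (x i) ⊆ P (i + 1))
    (hxS : ∀ i < l, omegaL g.symm (x i) ⊆ S i ∧ omegaL g (x i) ⊆ S (i + 1)) :
    ∃ g' ∈ N, NearEq f g' L ∧ ∃ x' : ℕ → M, (∀ i < n, x' i ∉ L) ∧
      (∀ i < n, omegaL g'.symm (x' i) ⊆ P i ∧ omegaL g' (x' i) ⊆ P (i + 1)) ∧
      ∀ i < l + 1, omegaL g'.symm (x' i) ⊆ S i ∧ omegaL g' (x' i) ⊆ S (i + 1) := by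
  classical
  have hSP : ∀ i ≤ n, S i ⊆ P i := by
    intro i hi
    rw [hS i]
    rintro _ ⟨k, rfl⟩
    exact hP i hi _ (hq i hi) k
  have hziL : ∀ y ∈ L, ∀ k, zi g.toEquiv k y = zi f.toEquiv k y := fun y hy k =>
    hfg.zi hLinv hy k
  have hPg : ∀ i ≤ n, Inv g (P i) := fun i hi => (hfg.mono (hPL i hi)).inv (hP i hi)
  have hne : ∀ i < n, i ≠ l → ∀ k : ℤ, zi g.toEquiv k (x i) ≠ x l := by
    intro i hi hil k hk
    refine hil (hdis i hi l hl ?_)
    obtain ⟨z, hz⟩ := omegaL_nonempty g.symm (x l)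
    refine ⟨z, (hx i hi).1 ?_, (hx l hl).1 hz⟩
    rw [← hk] at hz
    exact omegaL_symm_zi g.toHomeomorph k (x i) hz
  have haway : ∀ i : ℕ, ∃ U ∈ 𝓝 (x l), i < n → i ≠ l → ∀ k : ℤ, zi g.toEquiv k (x i) ∉ U := by
    intro i
    by_cases hi : i < n ∧ i ≠ l
    · obtain ⟨U, hU, hUk⟩ := exists_away' (f := g.toHomeomorph) hL
        ((hx i hi.1).2.trans (hPL _ (by omega))) ((hx i hi.1).1.trans (hPL _ hi.1.le)) (hxL l hl)
      exact ⟨U, hU, fun _ _ k hk => hne i hi.1 hi.2 k (hUk k hk)⟩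
    · exact ⟨univ, univ_mem, fun h1 h2 => absurd ⟨h1, h2⟩ hi⟩
  choose U hU hUk using haway
  obtain ⟨κ, hκ⟩ := hPD l hl.le
  obtain ⟨κ', hκ'⟩ := hPD' (l + 1) hl
  obtain ⟨g', hg', W, hWc, hWU, hWL, hgW, a, haW, ha1, ha2⟩ := hN.connect hr hc hg hL
    (hPL l hl.le) (hPL (l + 1) hl) (hPg l hl.le) (hPg (l + 1) hl)
    (hκ.near hc hfg (hP l hl.le) (hPL l hl.le))
    (DHyp.near hc (hfg.symm hLinv) (hP (l + 1) hl).symm (hPL (l + 1) hl) hκ')
    ((hPct l hl.le).congr (g := g.toHomeomorph) fun y hy => hfg.eqOn (hPL l hl.le hy))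
    ((hPct (l + 1) hl).congr (g := g.toHomeomorph) fun y hy => hfg.eqOn (hPL (l + 1) hl hy))
    (hq l hl.le) (hq (l + 1) hl) (S := S l) (S' := S (l + 1)) (hSc l hl.le)
    (fun k => by
      rw [hziL _ (hPL l hl.le (hq l hl.le)), hS l]
      exact ⟨k, rfl⟩) (hSP l hl.le) (hSc (l + 1) hl)
    (fun k => by
      rw [hziL _ (hPL (l + 1) hl (hq (l + 1) hl)), hS (l + 1)]
      exact ⟨k, rfl⟩) (hSP (l + 1) hl) (c := x l) (hxL l hl) (hx l hl).1 (hx l hl).2
    (U₀ := ⋂ i ∈ Finset.range n, U i) ((Filter.biInter_finset_mem _).2 fun i _ => hU i)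
  have hzi : ∀ i < n, i ≠ l → ∀ k, zi g'.toEquiv k (x i) = zi g.toEquiv k (x i) := by
    intro i hi hil
    refine zi_eq_of fun k => hgW _ fun hkW => ?_
    have h1 := mem_iInter₂.1 (hWU hkW) i (Finset.mem_range.2 hi)
    exact hUk i hi hil k h1
  refine ⟨g', hg', hfg.step hWc hWL hgW, Function.update x l a, fun i hi => ?_, fun i hi => ?_,
    fun i hi => ?_⟩
  · by_cases hil : i = l
    · subst hil
      rw [Function.update_self]
      exact hWL a haW
    · rw [Function.update_of_ne hil]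
      exact hxL i hi
  · by_cases hil : i = l
    · subst hil
      rw [Function.update_self]
      exact ⟨ha1.trans (hSP i hi.le), ha2.trans (hSP (i + 1) hi)⟩
    · rw [Function.update_of_ne hil]
      have h1 := omegaL_eq_of (hzi i hi hil)
      exact ⟨h1.2.trans (hx i hi).1, h1.1.trans (hx i hi).2⟩
  · by_cases hil : i = l
    · subst hil
      rw [Function.update_self]
      exact ⟨ha1, ha2⟩
    · rw [Function.update_of_ne hil]
      have h1 := omegaL_eq_of (hzi i (by omega) hil)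
      have h2 := hxS i (by omega)
      exact ⟨h1.2.trans h2.1, h1.1.trans h2.2⟩

/-- **A cycle of pieces gives a cycle of periodic orbits, after perturbation.** -/
theorem Stab.exists_lcyc {N : Set (Dyn E M r)} (hN : Stab N) (hr : 1 ≤ r) {f : Dyn E M r}
    (hfN : f ∈ N) (hrec : HypRec f) (hf : PH f.toHomeomorph) {n : ℕ} {P : ℕ → Set M}
    {y : ℕ → M} (h : PCyc f.toHomeomorph n P y) :
    ∃ m > 0, ∃ g ∈ N, ∃ p x, LCyc f g (LL f.toHomeomorph m) m n p x := by
  classical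
  obtain ⟨s, K, ρ₀, hc, -⟩ := exists_cov (M := M) E (U := fun _ => univ) (fun b => univ_mem)
  have hex : ∀ A : Set M, ∃ z : M, Piece f.toHomeomorph A →
      z ∈ A ∧ z ∈ Function.periodicPts f := by
    intro A
    by_cases hA : Piece f.toHomeomorph A
    · obtain ⟨z, hz⟩ := hA.1.nonempty
      obtain ⟨w, -, hw⟩ := mem_closure_iff.1 (hf.dense_periodic hA hz) univ isOpen_univ (mem_univ z)
      exact ⟨w, fun _ => hw⟩
    · exact ⟨y 0, fun h => absurd h hA⟩
  choose q₀ hq₀ using hex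
  set q : ℕ → M := fun i => q₀ (P i) with hq
  have hqP : ∀ i ≤ n, q i ∈ P i := fun i hi => (hq₀ _ (h.piece i hi)).1
  obtain ⟨m, hm, hfix⟩ := exists_common_period (f := f)
    (S := q '' {i | i ≤ n}) ((Set.finite_le_nat n).image q) (by
      rintro _ ⟨i, hi, rfl⟩
      exact (hq₀ _ (h.piece i hi)).2)
  have hqm : ∀ i ≤ n, f^[m] (q i) = q i := fun i hi => hfix _ ⟨i, hi, rfl⟩
  set L : Set M := LL f.toHomeomorph m with hLdef
  have hL : IsClosed L := hf.isClosed_LL hm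
  have hLinv : Inv f L := LL_zinv (f := f.toHomeomorph)
  have hPL : ∀ i ≤ n, P i ⊆ L := fun i hi =>
    piece_subset_LL (h.piece i hi) (hqP i hi) (hqm i hi)
  have hPinv : ∀ i ≤ n, Inv f (P i) := fun i hi => (h.piece i hi).1.zinv
  have hPH : ∀ i ≤ n, IsHyperbolicSet f (P i) := by
    intro i hi
    obtain ⟨z, hz, hzP⟩ := (h.piece i hi).1
    rw [← hzP]
    exact hrec.hyp hz
  have hPc : ∀ i ≤ n, IsClosed (P i) := fun i hi => (h.piece i hi).1.isClosed
  set S : ℕ → Set M := fun i => range fun k : ℤ => zi f.toEquiv k (q i) with hS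
  have hSP : ∀ i ≤ n, S i ⊆ P i := by
    rintro i hi _ ⟨k, rfl⟩
    exact hPinv i hi _ (hqP i hi) k
  have hqzi : ∀ i ≤ n, zi f.toEquiv m (q i) = q i := fun i hi => by
    rw [zi_nat_apply]
    exact hqm i hi
  have hSfin : ∀ i ≤ n, (S i).Finite := fun i hi => finite_range_zi hm (hqzi i hi)
  have key : ∀ l ≤ n, ∃ g ∈ N, NearEq f g L ∧ ∃ x : ℕ → M, (∀ i < n, x i ∉ L) ∧
      (∀ i < n, omegaL g.symm (x i) ⊆ P i ∧ omegaL g (x i) ⊆ P (i + 1)) ∧
      ∀ i < l, omegaL g.symm (x i) ⊆ S i ∧ omegaL g (x i) ⊆ S (i + 1) := by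
    intro l
    induction l with
    | zero =>
      intro _
      refine ⟨f, hfN, NearEq.refl f L, y, fun i hi hyL => ?_, fun i hi => ?_, fun i hi => ?_⟩
      · obtain ⟨A, hA, hyA⟩ := hyL
        exact h.out i hi A hA.1 hyA
      · exact ⟨(h.goes i hi).bwd, (h.goes i hi).fwd⟩
      · omega
    | succ l ih =>
      intro hl
      obtain ⟨g, hg, hfg, x, hx1, hx2, hx3⟩ := ih (by omega)
      exact hN.connect_step hr hc hL hLinv hPL hPinv
        (fun i hi => (hPH i hi).dhyp hc hr (hPc i hi) (hPinv i hi))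
        (fun i hi => (hPH i hi).dhyp_symm hc hr (hPc i hi) (hPinv i hi))
        (fun i hi => (h.piece i hi).1.ct)
        (fun i hi j hj hij => h.inj i hi j hj (hf.piece_eq (h.piece i hi.le) (h.piece j hj.le) hij))
        hqP (fun i => rfl) (fun i hi => (hSfin i hi).isClosed) (by omega) hg hfg hx1 hx2 hx3
  obtain ⟨g, hg, hfg, x, hx1, -, hx3⟩ := key n le_rfl
  have hziL : ∀ y ∈ L, ∀ k, zi g.toEquiv k y = zi f.toEquiv k y := fun y hy k =>
    hfg.zi hLinv hy k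
  have hSm : ∀ i ≤ n, ∀ p ∈ S i, g^[m] p = p := by
    rintro i hi _ ⟨k, rfl⟩
    have h1 : zi f.toEquiv k (q i) ∈ L := hPL i hi (hSP i hi ⟨k, rfl⟩)
    change g^[m] (zi f.toEquiv k (q i)) = zi f.toEquiv k (q i)
    rw [← zi_nat_apply, hziL _ h1, zi_comm, hqzi i hi]
  obtain ⟨p, x', hp, hx'⟩ := exists_phases (f := g.toHomeomorph) (m := m) (L := L)
    (hfg.inv hLinv) (S := S) (q := q 0) ⟨0, by simp [zi_zero]⟩ n
    (by
      rintro i hi _ ⟨k, rfl⟩ j
      have h1 : zi f.toEquiv k (q i) ∈ L := hPL i hi (hSP i hi ⟨k, rfl⟩)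
      have h2 := hziL _ h1 j
      rw [← zi_add] at h2
      exact ⟨j + k, h2.symm⟩)
    (by
      rintro i hi _ ⟨a, rfl⟩ _ ⟨b, rfl⟩
      have h1 : zi f.toEquiv a (q i) ∈ L := hPL i hi (hSP i hi ⟨a, rfl⟩)
      have h2 := hziL _ h1 (b - a)
      rw [← zi_add, sub_add_cancel] at h2
      exact ⟨b - a, h2.symm⟩)
    (fun i hi => by
      obtain ⟨u, hu, v, hv, huv⟩ := exists_asy (f := g.toHomeomorph) hm (hSfin i hi.le)
        (hSm i hi.le) (hSfin (i + 1) hi) (hSm (i + 1) hi) (hx3 i hi).1 (hx3 i hi).2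
      refine ⟨x i, hx1 i hi, u, hu, v, hv, huv, fun k hk hkx => hk ?_⟩
      exact not_periodic_of_omegaL (f := g.toHomeomorph) (L := L)
        ((hx3 i hi).2.trans ((hSP (i + 1) hi).trans (hPL (i + 1) hi))) (hx1 i hi) hkx)
  refine ⟨m, hm, g, hg, p, x', hfg, ⟨hm, h.hn, fun i hi => ?_, ?_, fun i hi => (hx' i hi).2⟩,
    fun i hi => hPL i hi (hSP i hi (hp i hi)), fun i hi => (hx' i hi).1⟩
  · rw [zi_nat_apply]
    exact hSm i hi _ (hp i hi)
  · have h1 : p n ∈ S 0 := by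
      have h2 := hp n le_rfl
      have h3 : S n = S 0 := by
        have : P n = P 0 := h.close
        simp only [hS, hq, this]
      rwa [h3] at h2
    obtain ⟨a, ha⟩ := hp 0 (by omega)
    obtain ⟨b, hb⟩ := h1
    refine ⟨b - a, ?_⟩
    have h2 : p 0 ∈ L := hPL 0 (by omega) (hSP 0 (by omega) (hp 0 (by omega)))
    rw [hziL _ h2, ← ha, ← hb, ← zi_add, sub_add_cancel]

end OmSt
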