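import Pool.Agent.OmSt2.Near

/-!
# Unstable manifolds of periodic points are dense in the unstable set of a hyperbolic set
-/

open Set Filter Topology Manifold ContDiff Metric Bundle

set_option linter.unusedSectionVars false

namespace OmSt

variable {E : Type*} [NormedAddCommGroup E] [NormedSpace ℝ E] [FiniteDimensional ℝ E]
  {M : Type*} [MetricSpace M] [CompactSpace M] [ChartedSpace E M] [IsManifold 𝓘(ℝ, E) ∞ M]
  {r : ℕ∞}

theorem zi_neg_apply (g : Dyn E M r) (n : ℕ) (x : M) :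
    zi g.toEquiv (-(n : ℤ)) x = g.symm^[n] x := zi_neg _ _ _

theorem zi_nat_apply (g : Dyn E M r) (n : ℕ) (x : M) :
    zi g.toEquiv (n : ℤ) x = g^[n] x := zi_nat _ _ _

theorem Cov.exists_left {s : Finset M} {K : M → Set M} {ρ₀ : ℝ}
    (hc : Cov E s K ρ₀) {g : Dyn E M r} (hr : 1 ≤ r) {P : Set M} {κ : ℝ} (hP : Inv g P)
    (hD : DHyp s K g P κ) (hct : CT g.toHomeomorph P) {q : M} (hq : q ∈ P) {S : Set M}
    (hS : IsClosed S) (hqS : ∀ k : ℤ, zi g.toEquiv k q ∈ S) (hSP : S ⊆ P) {c : M}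
    (hcP : omegaL g.symm c ⊆ P) {ε η : ℝ} (hε : 0 < ε) (hη : 0 < η) :
    ∃ a, dist a c ≤ η ∧ (∀ k : ℤ, k < 0 → (∃ z ∈ P, dist (zi g.toEquiv k a) z ≤ ε) ∨
      ∃ j : ℤ, j < 0 ∧ dist (zi g.toEquiv k a) (zi g.toEquiv j c) ≤ ε) ∧ omegaL g.symm a ⊆ S := by
  classical
  have : CompleteSpace E := FiniteDimensional.complete ℝ E
  obtain ⟨ε₁, hε₁, hexp⟩ := exists_pos_of_eventually (hc.expansive hr hP hD)
  obtain ⟨δ, hδ, hsh⟩ := hc.shadow_left hr hP hD (lt_min hε hε₁)
  obtain ⟨δ', hδ', huc, hδδ⟩ := exists_pos_of_eventually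
    ((exists_uc g g.continuous hδ).and (eventually_le_pos hδ))
  obtain ⟨N, hN⟩ := eventually_near_omegaL g.symm c hδ'
  set c' : M := zi g.toEquiv (-(N : ℤ)) c with hc'
  obtain ⟨η', hη', htr⟩ := exists_pos_of_eventually
    (track_fwd g g.continuous N (min ε η) (lt_min hε hη))
  obtain ⟨m, hm⟩ := hsh η' hη'
  have hc'k : ∀ k : ℤ, zi g.toEquiv k c' = zi g.toEquiv (k - N) c := by
    intro k
    rw [hc', ← zi_add, sub_eq_add_neg]
  have hc'P : ∀ k : ℤ, k ≤ 0 → ∃ w ∈ P, dist (zi g.toEquiv k c') w ≤ δ' := by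
    intro k hk
    obtain ⟨n, hn⟩ : ∃ n : ℕ, k - N = -(n : ℤ) := ⟨(k - N).natAbs, by omega⟩
    rw [hc'k, hn, zi_neg_apply]
    obtain ⟨y, hy, hy'⟩ := hN n (by omega)
    exact ⟨y, hcP hy, hy'.le⟩
  obtain ⟨w, hwP, hw⟩ := hc'P (-(m : ℤ) - 1) (by omega)
  obtain ⟨d, T, hT, hd0, hdT, hdP, hdj⟩ := hct δ hδ q hq w hwP
  set p : ℤ → M := fun n => if -(m : ℤ) ≤ n then zi g.toEquiv n c' else
    if -(m : ℤ) - 1 - T ≤ n then d (n + m + 1 + T).toNat else zi g.toEquiv (n + m + 1 + T) q
    with hp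
  have hp1 : ∀ n, -(m : ℤ) ≤ n → p n = zi g.toEquiv n c' := fun n hn => by simp [hp, hn]
  have hp2 : ∀ n, n < -(m : ℤ) → -(m : ℤ) - 1 - T ≤ n → p n = d (n + m + 1 + T).toNat :=
    fun n hn hn' => by
      simp only [hp]
      rw [if_neg (not_le.2 hn), if_pos hn']
  have hp3 : ∀ n, n < -(m : ℤ) - 1 - T → p n = zi g.toEquiv (n + m + 1 + T) q := fun n hn => by
    simp only [hp]
    rw [if_neg (by omega), if_neg (by omega)]
  have hpP : ∀ n, n < -(m : ℤ) → p n ∈ P := by
    intro n hn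
    rcases lt_or_ge n (-(m : ℤ) - 1 - T) with hn' | hn'
    · rw [hp3 n hn']
      exact hP q hq _
    · rw [hp2 n hn hn']
      exact hdP _ (by omega)
  have hgw : ∀ n : ℤ, g (zi g.toEquiv n c') = zi g.toEquiv (n + 1) c' := fun n =>
    (zi_succ_apply g n c').symm
  obtain ⟨x₀, hx₀, hx₀η⟩ := hm p (fun n hn => by
      rcases le_or_gt (-(m : ℤ)) n with h1 | h1
      · rw [hp1 n h1, hp1 (n + 1) (by omega), hgw, dist_self]
        exact hδ.le
      · rcases eq_or_ne n (-(m : ℤ) - 1) with h2 | h2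
        · have e1 : p n = w := by
            rw [hp2 n h1 (by omega), ← hdT]
            congr 1
            omega
          have e2 : p (n + 1) = g (zi g.toEquiv (-(m : ℤ) - 1) c') := by
            rw [hp1 (n + 1) (by omega), hgw, h2]
          rw [e1, e2]
          exact huc _ _ (by rw [dist_comm]; exact hw)
        · rcases le_or_gt (-(m : ℤ) - 1 - T) n with h3 | h3
          · rw [hp2 n h1 h3, hp2 (n + 1) (by omega) (by omega)]
            have e1 : (n + 1 + m + 1 + T).toNat = (n + m + 1 + T).toNat + 1 := by omega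
            rw [e1]
            exact hdj _ (by omega)
          · rcases eq_or_ne n (-(m : ℤ) - 1 - T - 1) with h4 | h4
            · have e1 : p (n + 1) = zi g.toEquiv (n + m + 1 + T + 1) q := by
                rw [hp2 (n + 1) (by omega) (by omega)]
                have e2 : (n + 1 + m + 1 + T).toNat = 0 := by omega
                have e3 : n + m + 1 + T + 1 = 0 := by omega
                rw [e2, e3, hd0, zi_zero]
              rw [e1, hp3 n h3, zi_succ_apply, dist_self]
              exact hδ.le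
            · rw [hp3 n h3, hp3 (n + 1) (by omega)]
              have e1 : n + 1 + m + 1 + T = n + m + 1 + T + 1 := by ring
              rw [e1, zi_succ_apply, dist_self]
              exact hδ.le) (fun n hn => by
      rcases le_or_gt (-(m : ℤ)) n with h1 | h1
      · rw [hp1 n h1]
        obtain ⟨y, hy, hy'⟩ := hc'P n hn
        exact ⟨y, hy, hy'.trans hδδ⟩
      · exact ⟨p n, hpP n h1, by rw [dist_self]; exact hδ.le⟩)
  have hp0 : p 0 = c' := by rw [hp1 0 (by omega), zi_zero]
  have hx₀c : dist (p 0) x₀ ≤ η' := by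
    rw [dist_comm]
    refine hx₀η fun n hn hn' => ?_
    rw [hp1 n hn, hp1 (n + 1) (by omega), hgw]
  have htrack : ∀ k : ℕ, k ≤ N → dist (zi g.toEquiv k c') (zi g.toEquiv k x₀) ≤ min ε η := by
    intro k hk
    have h1 := htr (fun n => zi g.toEquiv n c') 0 x₀ (fun n _ _ => by
      change dist (g (zi g.toEquiv n c')) (zi g.toEquiv (n + 1) c') ≤ η'
      rw [hgw, dist_self]
      exact hη'.le) (by
        change dist (zi g.toEquiv 0 c') x₀ ≤ η'
        rw [zi_zero, ← hp0]
        exact hx₀c) k hk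
    rw [zi_nat_apply g k x₀]
    have e1 : (0 : ℤ) + k = k := by ring
    rw [e1] at h1
    exact h1
  refine ⟨zi g.toEquiv N x₀, ?_, fun k hk => ?_, ?_⟩
  · have h1 := htrack N le_rfl
    rw [hc'k, sub_self, zi_zero, dist_comm] at h1
    exact h1.trans (min_le_right _ _)
  · rw [← zi_add]
    rcases le_or_gt 0 (k + N) with h1 | h1
    · obtain ⟨n, hn⟩ := Int.eq_ofNat_of_zero_le h1
      have h2 := htrack n (by omega)
      refine Or.inr ⟨k, hk, ?_⟩
      rw [hn]
      rw [hc'k, dist_comm] at h2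
      have e1 : (n : ℤ) - N = k := by omega
      rw [e1] at h2
      exact h2.trans (min_le_left _ _)
    · have h2 := hx₀ (k + N) h1.le
      have h3 := h2.trans (min_le_left _ _)
      rcases le_or_gt (-(m : ℤ)) (k + N) with h4 | h4
      · refine Or.inr ⟨k, hk, ?_⟩
        rw [hp1 _ h4, hc'k] at h3
        have e1 : k + (N : ℤ) - N = k := by ring
        rwa [e1] at h3
      · exact Or.inl ⟨_, hpP _ h4, h3⟩
  · intro z hz
    have h1 : ∀ i : ℕ, ∃ n ≥ i, dist (g.symm^[n] (zi g.toEquiv N x₀)) z < 1 / ((i : ℝ) + 1) :=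
      fun i => mem_omegaL_iff.1 hz _ (by positivity) i
    choose n hn hnz using h1
    have hlim0 : Tendsto (fun i : ℕ => 1 / ((i : ℝ) + 1)) atTop (𝓝 0) :=
      tendsto_one_div_add_atTop_nhds_zero_nat
    have hn' : ∀ i, g.symm^[n i] (zi g.toEquiv N x₀) = zi g.toEquiv (N - n i) x₀ := by
      intro i
      rw [← zi_neg_apply, ← zi_add]
      congr 1
      ring
    have hzlim : Tendsto (fun i => zi g.toEquiv (N - n i) x₀) (hyperfilter ℕ) (𝓝 z) := by
      have h2 : Tendsto (fun i => zi g.toEquiv (N - n i) x₀) atTop (𝓝 z) := by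
        rw [tendsto_iff_dist_tendsto_zero]
        refine squeeze_zero (fun i => dist_nonneg) (fun i => ?_) hlim0
        rw [← hn']
        exact (hnz i).le
      exact h2.mono_left Nat.hyperfilter_le_atTop
    obtain ⟨u, hu⟩ := exists_lim (fun i => zi g.toEquiv (N - n i + m + 1 + T) q)
    have huS : u ∈ S := hS.mem_of_tendsto hu (Eventually.of_forall fun i => hqS _)
    have huz : u = z := by
      refine hexp u z (fun j => ⟨_, hP u (hSP huS) j, by rw [dist_self]; exact hε₁.le⟩)
        (fun j => ?_)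
      have h3 : Tendsto (fun i => dist (zi g.toEquiv j (zi g.toEquiv (N - n i + m + 1 + T) q))
          (zi g.toEquiv j (zi g.toEquiv (N - n i) x₀))) (hyperfilter ℕ)
          (𝓝 (dist (zi g.toEquiv j u) (zi g.toEquiv j z))) :=
        (((continuous_zi g.toHomeomorph j).tendsto u).comp hu).dist
          (((continuous_zi g.toHomeomorph j).tendsto z).comp hzlim)
      refine le_of_tendsto h3 ?_
      have h4 : ∀ᶠ i : ℕ in (hyperfilter ℕ : Filter ℕ), j.natAbs + N + m + 1 + T + 1 ≤ i :=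
        Nat.hyperfilter_le_atTop (eventually_ge_atTop _)
      filter_upwards [h4] with i hi
      have h5 : (i : ℤ) ≤ n i := by exact_mod_cast hn i
      have h6 : (j.natAbs : ℤ) + N + m + 1 + T + 1 ≤ i := by exact_mod_cast hi
      have h7 : j ≤ j.natAbs := by omega
      have h8 := hx₀ (j + (N - n i)) (by omega)
      rw [hp3 _ (by omega)] at h8
      rw [← zi_add, ← zi_add, dist_comm]
      have e1 : j + ((N : ℤ) - n i + m + 1 + T) = j + (N - n i) + m + 1 + T := by ring
      rw [e1]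
      exact h8.trans (min_le_right _ _)
    rw [← huz]
    exact huS

end OmSt
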