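import Pool.Agent.OmSt2.Induct

/-!
# Merging two connections, away from a closed invariant set
-/

open Set Filter Topology Manifold ContDiff Metric

set_option linter.unusedSectionVars false

namespace OmSt

variable {E : Type*} [NormedAddCommGroup E] [NormedSpace ℝ E]

theorem Stab.merge' {M : Type*} [FiniteDimensional ℝ E] [MetricSpace M] [CompactSpace M]
    [ChartedSpace E M] [IsManifold 𝓘(ℝ, E) ∞ M] {r : ℕ∞} {N : Set (Dyn E M r)} (hN : Stab N)
    (hr : 1 ≤ r) {f g : Dyn E M r} (hg : g ∈ N) {L : Set M} (hL : IsClosed L)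
    (hLinv : Inv f L) {m n : ℕ} {p x : ℕ → M} (hLC : LCyc f g L m n p x) (hn : 2 ≤ n)
    (hd : ∀ i j, i < j → j < n → ∀ s : ℤ, p j ≠ zi g.toEquiv s (p i)) :
    ∃ g' ∈ N, ∃ p' x' : ℕ → M, LCyc f g' L m (n - 1) p' x' := by
  classical
  have h := hLC.cyc
  have hLg : Inv g L := hLC.near.inv hLinv
  have hziL : ∀ (k : ℤ) (z : M), z ∉ L → zi g.toEquiv k z ∉ L := fun k z hz hmem => hz (by
    have h2 := hLg _ hmem (-k)
    rwa [← zi_add, neg_add_cancel, zi_zero] at h2)
  have hm := h.hm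
  have hmz : (0 : ℤ) < m := by exact_mod_cast hm
  have hqm : g^[m] (p 1) = p 1 := by
    have h1 := h.per 1 (by omega)
    rw [zi_nat] at h1
    exact h1
  obtain ⟨K, hK, hdich⟩ := (isHyp_linAt hr hqm (hN.isHyp hr hg hm hqm)).dich
  have hη : 0 < 1 / (2 * (K + 1)) := by positivity
  have hKη : K * (1 / (2 * (K + 1))) ≤ 1 / 2 := by
    rw [mul_one_div, div_le_div_iff₀ (by positivity) (by norm_num)]
    nlinarith
  obtain ⟨ρ, hρ, hρt, -, hloc1, hloc2⟩ := exists_local hr hqm univ_mem hη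
  set e := chartAt E (p 1) with he
  have hmax : e ∈ IsManifold.maximalAtlas 𝓘(ℝ, E) ∞ M := IsManifold.chart_mem_maximalAtlas (p 1)
  have hqe : p 1 ∈ e.source := mem_chart_source E (p 1)
  set c := e (p 1) with hc
  set φ : E → E := fun z => e (g^[m] (e.symm z)) with hφ
  -- move the connecting points near `p 1`
  have hreg : e.source ∩ e ⁻¹' closedBall c (ρ / 2) ∈ 𝓝 (p 1) :=
    inter_mem (e.open_source.mem_nhds hqe)
      ((e.continuousAt hqe) (closedBall_mem_nhds _ (half_pos hρ)))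
  obtain ⟨k₀, hk₀⟩ := eventually_atTop.1 ((h.conn 0 (by omega)).fwd.eventually hreg)
  obtain ⟨k₁, hk₁⟩ := eventually_atBot.1 ((h.conn 1 (by omega)).bwd.eventually hreg)
  set y : ℕ → M := fun i => if i = 0 then zi g.toEquiv (m * k₀) (x 0) else
    if i = 1 then zi g.toEquiv (m * k₁) (x 1) else x i with hy
  have hy0 : y 0 = zi g.toEquiv (m * k₀) (x 0) := by simp [hy]
  have hy1 : y 1 = zi g.toEquiv (m * k₁) (x 1) := by simp [hy]
  have hcyc : ZCyc g.toEquiv m n p y := by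
    refine ⟨h.hm, h.hn, h.per, h.close, fun i hi => ?_⟩
    simp only [hy]
    split_ifs with h0 h1
    · rw [h0]
      exact (h.conn 0 (by omega)).shift k₀
    · rw [h1]
      exact (h.conn 1 (by omega)).shift k₁
    · exact h.conn i hi
  have hyL : ∀ i < n, y i ∉ L := by
    intro i hi
    simp only [hy]
    split_ifs with h0 h1
    · exact hziL _ _ (hLC.xL 0 (by omega))
    · exact hziL _ _ (hLC.xL 1 (by omega))
    · exact hLC.xL i hi
  have ha : ∀ k : ℤ, 0 ≤ k → zi g.toEquiv (m * k) (y 0) ∈ e.source ∩ e ⁻¹' closedBall c (ρ / 2) := by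
    intro k hk
    have h1 := hk₀ (k + k₀) (by linarith)
    rw [mul_add, zi_add, ← hy0] at h1
    exact h1
  have hb : ∀ k : ℤ, k ≤ 0 → zi g.toEquiv (m * k) (y 1) ∈ e.source ∩ e ⁻¹' closedBall c (ρ / 2) := by
    intro k hk
    have h1 := hk₁ (k + k₁) (by linarith)
    rw [mul_add, zi_add, ← hy1] at h1
    exact h1
  have hae : y 0 ∈ e.source := by
    have := (ha 0 le_rfl).1
    rwa [mul_zero, zi_zero] at this
  have hbe : y 1 ∈ e.source := by
    have := (hb 0 le_rfl).1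
    rwa [mul_zero, zi_zero] at this
  -- separation
  have hab : y 0 ≠ y 1 := by
    intro heq
    have h1 := hcyc.distinct (f := g.toHomeomorph) hd (i := 0) (j := 1) (by omega) (by omega)
      (k := 0) (by rw [zi_zero]; exact heq)
    omega
  obtain ⟨O₀, O₁, hO₀, hO₁, haO, hbO, hO⟩ := t2_separation hab
  obtain ⟨U₀, hU₀, haU₀, hUO₀, hU₀y, hU₀p⟩ := hcyc.exists_open (f := g.toHomeomorph) hd
    (l := 0) (by omega) (inter_mem (hO₀.mem_nhds haO)
      (hL.isOpen_compl.mem_nhds (hyL 0 (by omega))))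
  obtain ⟨U₁, hU₁, hbU₁, hUO₁, hU₁y, hU₁p⟩ := hcyc.exists_open (f := g.toHomeomorph) hd
    (l := 1) (by omega) (inter_mem (hO₁.mem_nhds hbO)
      (hL.isOpen_compl.mem_nhds (hyL 1 (by omega))))
  obtain ⟨W₀, hW₀, hW₀c, hWU₀, ε₀, hε₀, hgap₀⟩ := exists_gap hU₀ haU₀
  obtain ⟨W₁, hW₁, hW₁c, hWU₁, ε₁, hε₁, hgap₁⟩ := exists_gap hU₁ hbU₁
  have hWdis : ∀ z, z ∈ W₀ → z ∈ W₁ → False := fun z h0 h1 =>
    hO.le_bot ⟨(hUO₀ (hWU₀ h0)).1, (hUO₁ (hWU₁ h1)).1⟩
  have haW₁ : y 0 ∉ W₁ := fun h1 => hWdis _ (mem_of_mem_nhds hW₀) h1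
  have hbW₀ : y 1 ∉ W₀ := fun h1 => hWdis _ h1 (mem_of_mem_nhds hW₁)
  -- the families of perturbations
  obtain ⟨Ψ₀, ρ₀, hρ₀, hρ₀t, hρ₀W, hΨ₀W, hΨ₀⟩ := exists_localFam hmax (e.map_source hae) (W := W₀)
    (by rwa [e.left_inv hae])
  obtain ⟨Ψ₁, ρ₁, hρ₁, hρ₁t, hρ₁W, hΨ₁W, hΨ₁⟩ := exists_localFam hmax (e.map_source hbe) (W := W₁)
    (by rwa [e.left_inv hbe])
  set L₀ : (E × E) →L[ℝ] (E × (E →L[ℝ] E)) :=
    (ContinuousLinearMap.inl ℝ E (E →L[ℝ] E)).comp (ContinuousLinearMap.fst ℝ E E) with hL₀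
  set L₁ : (E × E) →L[ℝ] (E × (E →L[ℝ] E)) :=
    (ContinuousLinearMap.inl ℝ E (E →L[ℝ] E)).comp (ContinuousLinearMap.snd ℝ E E) with hL₁
  have hL₀a : ∀ v, L₀ v = (v.1, 0) := fun v => rfl
  have hL₁a : ∀ v, L₁ v = (v.2, 0) := fun v => rfl
  set Φ : Fam E M (E × E) := (Ψ₀.reparam L₀).comp (Ψ₁.reparam L₁) with hΦ
  have hΦa : ∀ v z, Φ.toFun v z = Ψ₀.toFun (L₀ v) (Ψ₁.toFun (L₁ v) z) := fun v z => rfl
  have hL₀t : Tendsto L₀ (𝓝 0) (𝓝 0) := by
    have := L₀.continuous.tendsto 0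
    rwa [map_zero] at this
  have hL₁t : Tendsto L₁ (𝓝 0) (𝓝 0) := by
    have := L₁.continuous.tendsto 0
    rwa [map_zero] at this
  have hev := (Φ.eventually_mem g hN.isOpen hg).and ((hL₀t.eventually hΨ₀).and (hL₁t.eventually hΨ₁))
  obtain ⟨ε₂, hε₂, hball⟩ := Metric.nhds_basis_ball.mem_iff.1 hev
  -- uniform continuity
  obtain ⟨ε₃, hε₃, huc⟩ : ∃ ε₃ > 0, ∀ z ∈ closedBall c ρ, ∀ z' ∈ closedBall c ρ, dist z z' < ε₃ →
      ∀ s < m, dist (g^[s] (e.symm z)) (g^[s] (e.symm z')) < min ε₀ ε₁ := by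
    have h1 : ∀ s : ℕ, ∀ᶠ ε : ℝ in 𝓝[>] 0, ∀ z ∈ closedBall c ρ, ∀ z' ∈ closedBall c ρ,
        dist z z' < ε → dist (g^[s] (e.symm z)) (g^[s] (e.symm z')) < min ε₀ ε₁ := by
      intro s
      have hcont : ContinuousOn (fun z => g^[s] (e.symm z)) (closedBall c ρ) :=
        (g.continuous.iterate s).comp_continuousOn (e.continuousOn_symm.mono hρt)
      have h2 := (isCompact_closedBall c ρ).uniformContinuousOn_of_continuous hcont
      obtain ⟨δ, hδ, h3⟩ := Metric.uniformContinuousOn_iff.1 h2 (min ε₀ ε₁) (lt_min hε₀ hε₁)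
      have h4 : ∀ᶠ ε : ℝ in 𝓝[>] 0, ε ∈ Iio δ :=
        Filter.Eventually.filter_mono nhdsWithin_le_nhds (Iio_mem_nhds hδ)
      filter_upwards [h4] with ε hε z hz z' hz' hzz
      exact h3 z hz z' hz' (hzz.trans hε)
    have h2 : ∀ᶠ ε : ℝ in 𝓝[>] 0, ∀ s ∈ Finset.range m, ∀ z ∈ closedBall c ρ,
        ∀ z' ∈ closedBall c ρ, dist z z' < ε →
        dist (g^[s] (e.symm z)) (g^[s] (e.symm z')) < min ε₀ ε₁ := by
      rw [Filter.eventually_all_finset]
      exact fun s _ => h1 s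
    obtain ⟨ε, h3, hε⟩ := (h2.and self_mem_nhdsWithin).exists
    exact ⟨ε, hε, fun z hz z' hz' hzz s hs => h3 s (Finset.mem_range.2 hs) z hz z' hz' hzz⟩
  -- the transit
  set α : ℤ → E := fun k => e (zi g.toEquiv (m * k) (y 0)) with hα
  set β : ℤ → E := fun k => e (zi g.toEquiv (m * k) (y 1)) with hβ
  have hstepm : ∀ (k : ℤ) (z : M), g^[m] (zi g.toEquiv (m * k) z) = zi g.toEquiv (m * (k + 1)) z := by
    intro k z
    have e1 : (m : ℤ) * (k + 1) = m + m * k := by ring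
    rw [e1, zi_add, zi_nat]
    rfl
  have hαs : ∀ k, 0 ≤ k → φ (α k) = α (k + 1) := by
    intro k hk
    simp only [hφ, hα]
    rw [e.left_inv (ha k hk).1, hstepm]
  have hβs : ∀ k, k < 0 → φ (β k) = β (k + 1) := by
    intro k hk
    simp only [hφ, hβ]
    rw [e.left_inv (hb k hk.le).1, hstepm]
  have hαt : Tendsto α atTop (𝓝 c) :=
    (e.continuousAt hqe).tendsto.comp (hcyc.conn 0 (by omega)).fwd
  have hβt : Tendsto β atBot (𝓝 c) :=
    (e.continuousAt hqe).tendsto.comp (hcyc.conn 1 (by omega)).bwd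
  set ε : ℝ := min (min (ε₂ / 2) (ε₃ / 2)) ρ₁ with hε
  have hεpos : 0 < ε := by positivity
  obtain ⟨j, ⟨z, hz1, hz2, hz3, hz4⟩, hj⟩ := ((exists_transit hdich hK hη.le hKη hρ hloc2
    (fun k hk => (ha k hk).2) hαs hαt (fun k hk => (hb k hk).2) hβs hβt hεpos).and
    (eventually_ge_atTop 1)).exists
  have hjz : (1 : ℤ) ≤ j := by exact_mod_cast hj
  have hz0 : ‖z 0 - e (y 0)‖ ≤ ε := by
    have := hz1 0 le_rfl (by linarith)
    simp only [hα, mul_zero, zi_zero] at this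
    exact this
  have hz2j : ‖z (2 * j) - e (y 1)‖ ≤ ε := by
    have := hz2 (2 * j) (by linarith) le_rfl
    simp only [hβ, sub_self, mul_zero, zi_zero] at this
    exact this
  set v : E × E := (z 0 - e (y 0), e (y 1) - z (2 * j)) with hv
  have hvn : ‖v‖ ≤ ε := by
    rw [hv, Prod.norm_mk, norm_sub_rev (e (y 1))]
    exact max_le hz0 hz2j
  have hvball : v ∈ ball (0 : E × E) ε₂ := by
    rw [mem_ball, dist_zero_right]
    have : ε ≤ ε₂ / 2 := (min_le_left _ _).trans (min_le_left _ _)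
    linarith
  obtain ⟨hgN, hf0, hf1⟩ := hball hvball
  set ψ := Φ.toFun v with hψ
  have hψW : ∀ z ∉ W₀ ∪ W₁, ψ z = z := by
    intro z hz
    rw [hψ, hΦa, hΨ₁W _ z (fun h => hz (Or.inr h)), hΨ₀W _ z (fun h => hz (Or.inl h))]
  have hψ0 : ψ (y 0) = e.symm (z 0) := by
    rw [hψ, hΦa, hΨ₁W _ _ haW₁]
    have h1 := (hf0 (e (y 0)) (mem_closedBall_self hρ₀.le)).1
    rw [e.left_inv hae, hL₀a] at h1
    rw [hL₀a, h1]
    congr 1
    simp [hv]
  have hψ1 : ψ (e.symm (z (2 * j))) = y 1 := by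
    have hmem : z (2 * j) ∈ closedBall (e (y 1)) ρ₁ := by
      rw [mem_closedBall, dist_eq_norm]
      exact hz2j.trans (min_le_right _ _)
    have h1 := (hf1 (z (2 * j)) hmem).1
    rw [hψ, hΦa, h1, hL₁a]
    have e1 : z (2 * j) + ((v.2, (0 : E →L[ℝ] E)).1 + (v.2, (0 : E →L[ℝ] E)).2
        (z (2 * j) - e (y 1))) = e (y 1) := by
      simp [hv]
    rw [e1, e.left_inv hbe, hΨ₀W _ _ hbW₀]
  -- the transit in the manifold
  have hZ : ∀ i : ℤ, 0 ≤ i → i < 2 * j → g^[m] (e.symm (z i)) = e.symm (z (i + 1)) := by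
    intro i hi hij
    rw [hz4 i hi hij]
    change _ = e.symm (e (g^[m] (e.symm (z i))))
    rw [e.left_inv (hloc1 _ (hz3 i)).1]
  have hZi : ∀ i : ℕ, (i : ℤ) ≤ 2 * j → zi g.toEquiv (m * i) (e.symm (z 0)) = e.symm (z i) := by
    intro i
    induction i with
    | zero => intro _; simp [zi_zero]
    | succ i ih =>
      intro hi
      push_cast at hi ⊢
      rw [← hstepm, ih (by linarith), hZ i (by positivity) (by linarith)]
  have htrack : ∀ t : ℤ, 0 < t → t < m * ((2 * j : ℕ) : ℤ) →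
      zi g.toEquiv t (e.symm (z 0)) ∉ W₀ ∪ W₁ := by
    intro t ht htm hmem
    push_cast at htm
    have hdm := Int.mul_ediv_add_emod t m
    have hs0 := Int.emod_nonneg t hmz.ne'
    have hsm := Int.emod_lt_of_pos t hmz
    have hi0 : 0 ≤ t / m := Int.ediv_nonneg ht.le hmz.le
    have hi1 : t / m < 2 * j := by
      rw [Int.ediv_lt_iff_lt_mul hmz]
      linarith
    obtain ⟨i, hi⟩ := Int.eq_ofNat_of_zero_le hi0
    obtain ⟨s, hs⟩ := Int.eq_ofNat_of_zero_le hs0
    have hsm' : s < m := by omega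
    have hts : t = s + m * i := by rw [← hi, ← hs]; linarith
    have e1 : zi g.toEquiv t (e.symm (z 0)) = g^[s] (e.symm (z i)) := by
      rw [hts, zi_add, hZi i (by rw [← hi]; exact hi1.le), zi_nat]
      rfl
    rw [e1] at hmem
    have hε3 : ε < ε₃ := by
      have : ε ≤ ε₃ / 2 := (min_le_left _ _).trans (min_le_right _ _)
      linarith
    by_cases hij : (i : ℤ) ≤ j
    · have h1 := hz1 i (by positivity) hij
      have hαm : α i ∈ closedBall c ρ :=
        closedBall_subset_closedBall (by linarith) (ha i (by positivity)).2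
      have h2 := huc (α i) hαm (z i) (hz3 i) (by
        rw [dist_comm, dist_eq_norm]
        exact h1.trans_lt hε3) s hsm'
      have e2 : g^[s] (e.symm (α i)) = zi g.toEquiv t (y 0) := by
        simp only [hα]
        rw [e.left_inv (ha i (by positivity)).1, hts, zi_add, zi_nat]
        rfl
      rw [e2] at h2
      rcases hmem with h3 | h3
      · have := hU₀y 0 (by omega) t (hgap₀ _ _ (h2.trans_le (min_le_left _ _)) h3)
        omega
      · have := hU₁y 0 (by omega) t (hgap₁ _ _ (h2.trans_le (min_le_right _ _)) h3)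
        omega
    · rw [not_le] at hij
      have hi2 : (i : ℤ) ≤ 2 * j := by rw [← hi]; exact hi1.le
      have h1 := hz2 i hij hi2
      have hβm : β (i - 2 * j) ∈ closedBall c ρ :=
        closedBall_subset_closedBall (by linarith) (hb _ (by linarith)).2
      have h2 := huc (β (i - 2 * j)) hβm (z i) (hz3 i) (by
        rw [dist_comm, dist_eq_norm]
        exact h1.trans_lt hε3) s hsm'
      have e2 : g^[s] (e.symm (β (i - 2 * j))) = zi g.toEquiv (t - m * (2 * j)) (y 1) := by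
        simp only [hβ]
        have e3 : t - m * (2 * j) = s + m * (i - 2 * j) := by rw [hts]; ring
        rw [e.left_inv (hb _ (by linarith)).1, e3, zi_add, zi_nat]
        rfl
      rw [e2] at h2
      rcases hmem with h3 | h3
      · have := hU₀y 1 (by omega) _ (hgap₀ _ _ (h2.trans_le (min_le_left _ _)) h3)
        omega
      · have := hU₁y 1 (by omega) _ (hgap₁ _ _ (h2.trans_le (min_le_right _ _)) h3)
        linarith [this.2]
  have hnot : ∀ i < n, ∀ k : ℤ, (i = 0 → k ≠ 0) → (i = 1 → k ≠ 0) →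
      zi g.toEquiv k (y i) ∉ W₀ ∪ W₁ := by
    rintro i hi k h0 h1 (h2 | h2)
    · have := hU₀y i hi k (hWU₀ h2)
      exact h0 this.1 this.2
    · have := hU₁y i hi k (hWU₁ h2)
      exact h1 this.1 this.2
  have hconn : IsConn (pert g ψ).toEquiv m (p 0) (p 2) (y 0) := by
    refine track (σ := g.toEquiv) (ψ := ψ) (fun z => zi_pert_one g ψ z) (W := W₀ ∪ W₁) hψW hm
      (hcyc.conn 0 (by omega)) (hcyc.conn 1 (by omega)) (h.per 0 (by omega))
      (fun k hk => hnot 0 (by omega) k (fun _ => hk) (fun h => by omega))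
      (fun k hk => hnot 1 (by omega) k (fun h => by omega) (fun _ => hk))
      (z := e.symm (z 0)) (T := 2 * j) (by omega) hψ0 ?_ htrack
    have h1 := hZi (2 * j) (by push_cast; exact le_rfl)
    rw [h1]
    push_cast
    exact hψ1
  have hper : ∀ i ≤ n, ∀ k : ℤ, zi (pert g ψ).toEquiv k (p i) = zi g.toEquiv k (p i) := by
    intro i hi k
    refine zi_pert (fun l => hψW _ ?_) k
    rintro (h2 | h2)
    · exact hU₀p i hi l (hWU₀ h2)
    · exact hU₁p i hi l (hWU₁ h2)
  refine ⟨pert g ψ, hgN, fun i => if i = 0 then p 0 else p (i + 1),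
    fun i => if i = 0 then y 0 else y (i + 1), hLC.near.step (hW₀c.union hW₁c)
      (fun z hz hzL => ?_) (fun z hz => by rw [pert_apply, hψW z hz]),
      ⟨hm, by omega, fun i hi => ?_, ?_, fun i hi => ?_⟩, fun i hi => ?_, fun i hi => ?_⟩
  · rcases hz with hz | hz
    · exact (hUO₀ (hWU₀ hz)).2 hzL
    · exact (hUO₁ (hWU₁ hz)).2 hzL
  · by_cases h0 : i = 0
    · simp only [h0, if_true]
      rw [hper 0 (by omega)]
      exact h.per 0 (by omega)
    · simp only [h0, if_false]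
      rw [hper (i + 1) (by omega)]
      exact h.per (i + 1) (by omega)
  · obtain ⟨s, hs⟩ := h.close
    refine ⟨s, ?_⟩
    have e1 : n - 1 ≠ 0 := by omega
    have e2 : n - 1 + 1 = n := by omega
    simp only [e1, if_false, if_true, e2]
    rw [hper 0 (by omega)]
    exact hs
  · by_cases h0 : i = 0
    · simp only [h0, if_true, zero_add, one_ne_zero, if_false]
      exact hconn
    · have e1 : i + 1 ≠ 0 := by omega
      simp only [h0, e1, if_false]
      refine (hcyc.conn (i + 1) (by omega)).congr fun k => zi_pert (fun l => hψW _ ?_) k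
      exact hnot (i + 1) (by omega) l (fun h => by omega) (fun h => by omega)
  · by_cases h0 : i = 0
    · simp only [h0, if_true]
      exact hLC.pL 0 (by omega)
    · simp only [h0, if_false]
      exact hLC.pL (i + 1) (by omega)
  · by_cases h0 : i = 0
    · simp only [h0, if_true]
      exact hyL 0 (by omega)
    · simp only [h0, if_false]
      exact hyL (i + 1) (by omega)

end OmSt
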