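import Pool.Agent.OmSt2.PHyp

/-!
# Diffeomorphisms which agree near a closed set
-/

open Set Filter Topology Manifold ContDiff Metric Bundle

set_option linter.unusedSectionVars false

namespace OmSt

section Top

variable {X : Type*} [MetricSpace X] [CompactSpace X]

/-- Near a point which is not in the closed set `L`, an orbit with limit sets in `L` has at most
one point. -/
theorem exists_away' {f : X ≃ₜ X} {L : Set X} (hL : IsClosed L) {x c : X}
    (h1 : omegaL f x ⊆ L) (h2 : omegaL f.symm x ⊆ L) (hc : c ∉ L) :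
    ∃ U ∈ 𝓝 c, ∀ k : ℤ, zi f.toEquiv k x ∈ U → zi f.toEquiv k x = c := by
  obtain ⟨δ, hδ, hδU⟩ := Metric.isOpen_iff.1 hL.isOpen_compl c hc
  obtain ⟨N₁, hN₁⟩ := eventually_near_omegaL f x (half_pos hδ)
  obtain ⟨N₂, hN₂⟩ := eventually_near_omegaL f.symm x (half_pos hδ)
  set F : Set X := (fun k : ℤ => zi f.toEquiv k x) '' Set.Icc (-(N₂ : ℤ)) N₁ \ {c} with hF
  have hFfin : F.Finite := ((Set.finite_Icc _ _).image _).subset sdiff_subset
  refine ⟨ball c (δ / 2) ∩ Fᶜ, inter_mem (ball_mem_nhds _ (half_pos hδ))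
    (hFfin.isClosed.isOpen_compl.mem_nhds (fun h => h.2 rfl)), fun k hk => ?_⟩
  have key : ∀ y ∈ L, ∀ z, dist z y < δ / 2 → z ∉ ball c (δ / 2) := by
    intro y hy z hzy hz
    refine hδU (?_ : y ∈ ball c δ) hy
    rw [mem_ball] at hz ⊢
    calc dist y c ≤ dist z y + dist z c := dist_triangle_left _ _ _
      _ < δ := by linarith
  by_contra hne
  have h3 : -(N₂ : ℤ) ≤ k := by
    by_contra hcon
    obtain ⟨n, hn⟩ : ∃ n : ℕ, k = -(n : ℤ) := ⟨k.natAbs, by omega⟩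
    obtain ⟨y, hy, hy'⟩ := hN₂ n (by omega)
    refine key y (h2 hy) _ hy' ?_
    have := hk.1
    rwa [hn, zi_neg] at this
  have h4 : k ≤ N₁ := by
    by_contra hcon
    obtain ⟨n, hn⟩ : ∃ n : ℕ, k = (n : ℤ) := ⟨k.natAbs, by omega⟩
    obtain ⟨y, hy, hy'⟩ := hN₁ n (by omega)
    refine key y (h1 hy) _ hy' ?_
    have := hk.1
    rwa [hn, zi_nat] at this
  exact hk.2 ⟨⟨k, ⟨h3, h4⟩, rfl⟩, hne⟩

/-- Chain transitivity. -/
def CT (f : X ≃ₜ X) (P : Set X) : Prop := ∀ δ > 0, ∀ x ∈ P, ∀ y ∈ P, Chn f P δ x y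

theorem CT.symm {f : X ≃ₜ X} {P : Set X} (h : CT f P) : CT f.symm P := by
  intro δ hδ x hx y hy
  obtain ⟨δ', hδ', huc⟩ := exists_pos_of_eventually (exists_uc f.symm f.symm.continuous hδ)
  obtain ⟨c, L, hL, hc0, hcL, hcP, hcj⟩ := h δ' hδ' y hy x hx
  refine ⟨fun i => c (L - i), L, hL, by simpa using hcL, by simpa using hc0,
    fun i _ => hcP _ (by omega), fun i hi => ?_⟩
  have h1 := huc _ _ (hcj (L - (i + 1)) (by omega))
  rw [f.symm_apply_apply] at h1
  have e1 : L - (i + 1) + 1 = L - i := by omega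
  rw [e1, dist_comm] at h1
  exact h1

theorem CT.congr {f g : X ≃ₜ X} {P : Set X} (h : CT f P) (hfg : EqOn g f P) : CT g P := by
  intro δ hδ x hx y hy
  obtain ⟨c, L, hL, hc0, hcL, hcP, hcj⟩ := h δ hδ x hx y hy
  refine ⟨c, L, hL, hc0, hcL, hcP, fun i hi => ?_⟩
  rw [hfg (hcP i hi.le)]
  exact hcj i hi

theorem Elt.ct {f : X ≃ₜ X} {K : Set X} (h : Elt f K) : CT f K := fun _ hδ _ hx _ hy =>
  h.chn hδ hx hy

end Top

variable {E : Type*} [NormedAddCommGroup E] [NormedSpace ℝ E] [FiniteDimensional ℝ E]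
  {M : Type*} [MetricSpace M] [CompactSpace M] [ChartedSpace E M] [IsManifold 𝓘(ℝ, E) ∞ M]
  {r : ℕ∞}

/-- `g` agrees with `f` in a neighbourhood of `L`. -/
def NearEq (f g : Dyn E M r) (L : Set M) : Prop := ∃ U, IsOpen U ∧ L ⊆ U ∧ EqOn g f U

theorem NearEq.refl (f : Dyn E M r) (L : Set M) : NearEq f f L :=
  ⟨univ, isOpen_univ, subset_univ _, fun _ _ => rfl⟩

theorem NearEq.mono {f g : Dyn E M r} {L L' : Set M} (h : NearEq f g L) (hL : L' ⊆ L) :
    NearEq f g L' := by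
  obtain ⟨U, hU, hLU, h1⟩ := h
  exact ⟨U, hU, hL.trans hLU, h1⟩

theorem NearEq.eqOn {f g : Dyn E M r} {L : Set M} (h : NearEq f g L) : EqOn g f L := by
  obtain ⟨U, hU, hLU, h1⟩ := h
  exact h1.mono hLU

/-- A further perturbation, away from `L`. -/
theorem NearEq.step {f g g' : Dyn E M r} {L : Set M} (h : NearEq f g L) {W : Set M}
    (hW : IsClosed W) (hWL : ∀ y ∈ W, y ∉ L) (hg : ∀ y ∉ W, g' y = g y) : NearEq f g' L := by
  obtain ⟨U, hU, hLU, h1⟩ := h
  refine ⟨U ∩ Wᶜ, hU.inter hW.isOpen_compl, fun y hy => ⟨hLU hy, fun hyW => hWL y hyW hy⟩,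
    fun y hy => ?_⟩
  rw [hg y hy.2]
  exact h1 hy.1

theorem NearEq.zi {f g : Dyn E M r} {L : Set M} (h : NearEq f g L) (hL : Inv f L) {x : M}
    (hx : x ∈ L) (k : ℤ) : zi g.toEquiv k x = zi f.toEquiv k x := by
  obtain ⟨n, rfl | rfl⟩ := k.eq_nat_or_neg
  · induction n with
    | zero => simp [zi_zero]
    | succ n ih =>
      push_cast
      rw [zi_succ_apply, zi_succ_apply, ih]
      exact h.eqOn (hL x hx _)
  · induction n with
    | zero => simp [zi_zero]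
    | succ n ih =>
      apply g.injective
      change g _ = g _
      rw [← zi_succ_apply, h.eqOn (hL x hx _), ← zi_succ_apply]
      have e1 : -((n + 1 : ℕ) : ℤ) + 1 = -n := by push_cast; ring
      rw [e1, ih]

theorem NearEq.inv {f g : Dyn E M r} {L : Set M} (h : NearEq f g L) (hL : Inv f L) : Inv g L :=
  fun x hx k => by
    rw [h.zi hL hx]
    exact hL x hx k

theorem NearEq.symm {f g : Dyn E M r} {L : Set M} (h : NearEq f g L) (hL : Inv f L) :
    NearEq f.symm g.symm L := by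
  obtain ⟨U, hU, hLU, h1⟩ := h
  refine ⟨f '' U, f.toHomeomorph.isOpenMap U hU, fun y hy => ?_, ?_⟩
  · have h2 := hL y hy (-1)
    have e1 : OmSt.zi f.toEquiv (-1) y = f.symm y := by
      have := zi_neg f.toEquiv 1 y
      simpa using this
    rw [e1] at h2
    exact ⟨f.symm y, hLU h2, f.apply_symm_apply y⟩
  · rintro _ ⟨x, hx, rfl⟩
    rw [f.symm_apply_apply, ← h1 hx, g.symm_apply_apply]

theorem DHyp.near {s : Finset M} {K : M → Set M} {ρ₀ : ℝ} (hc : Cov E s K ρ₀) {f g : Dyn E M r}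
    {L Λ : Set M} {κ : ℝ} (h : NearEq f g L) (hΛ : Inv f Λ) (hΛL : Λ ⊆ L)
    (hD : DHyp s K f Λ κ) : DHyp s K g Λ κ := by
  refine ⟨hD.1, fun x hx i hi => ?_⟩
  have hzi : ∀ n, zi g.toEquiv n x = zi f.toEquiv n x := (h.mono hΛL).zi hΛ hx
  simp only [hzi] at hi ⊢
  obtain ⟨U, hU, hLU, h1⟩ := h
  convert hD.2 x hx i hi using 2 with n
  refine Filter.EventuallyEq.fderiv_eq ?_
  have hsrc : zi f.toEquiv n x ∈ (chartAt E (i n)).source := hc.src _ (hi n).1 (hi n).2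
  have h2 : ContinuousAt (chartAt E (i n)).symm (chartAt E (i n) (zi f.toEquiv n x)) :=
    (chartAt E (i n)).continuousAt_symm ((chartAt E (i n)).map_source hsrc)
  have h3 : ∀ᶠ z in 𝓝 (chartAt E (i n) (zi f.toEquiv n x)), (chartAt E (i n)).symm z ∈ U := by
    refine h2.eventually (hU.mem_nhds ?_)
    rw [(chartAt E (i n)).left_inv hsrc]
    exact hLU (hΛL (hΛ x hx n))
  filter_upwards [h3] with z hz
  unfold chG
  rw [h1 hz]

end OmSt
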