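import Pool.Agent.OmSt2.Merge3

/-!
# Uniform dichotomies along a single orbit; homoclinic orbits
-/

open Set Filter Topology Manifold ContDiff Metric

set_option linter.unusedSectionVars false

namespace OmSt

section Top

variable {X : Type*} [MetricSpace X] [CompactSpace X] {f : X ≃ₜ X}

/-- The full orbit. -/
def Orb (f : X ≃ₜ X) (x : X) : Set X := range fun k : ℤ => zi f.toEquiv k x

theorem mem_Orb (f : X ≃ₜ X) (x : X) (k : ℤ) : zi f.toEquiv k x ∈ Orb f x := ⟨k, rfl⟩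

theorem self_mem_Orb (f : X ≃ₜ X) (x : X) : x ∈ Orb f x := ⟨0, zi_zero _ _⟩

theorem Orb_zinv (f : X ≃ₜ X) (x : X) : ZInv f (Orb f x) := by
  rintro _ ⟨j, rfl⟩ k
  exact ⟨k + j, zi_add _ _ _ _⟩

theorem Chn.orbit {Λ : Set X} {δ : ℝ} (hδ : 0 ≤ δ) {x : X} {n : ℕ} (hn : 0 < n)
    (h : ∀ j, f^[j] x ∈ Λ) : Chn f Λ δ x (f^[n] x) :=
  ⟨fun j => f^[j] x, n, hn, rfl, rfl, fun i _ => h i, fun i _ => by
    change dist (f (f^[i] x)) (f^[i + 1] x) ≤ δ
    rw [Function.iterate_succ_apply', dist_self]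
    exact hδ⟩

theorem Chn.jump {Λ : Set X} {δ : ℝ} {x y : X} (hx : x ∈ Λ) (hy : y ∈ Λ)
    (h : dist (f x) y ≤ δ) : Chn f Λ δ x y :=
  ⟨fun j => if j = 0 then x else y, 1, one_pos, by simp, by simp, fun i _ => by
    by_cases hi : i = 0
    · simpa [hi] using hx
    · simpa [hi] using hy, fun i hi => by
    have : i = 0 := by omega
    subst this
    simpa using h⟩

/-- A homoclinic orbit together with the periodic orbit. -/
structure HomO (f : X ≃ₜ X) (m : ℕ) (q a : X) : Prop where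
  hm : 0 < m
  hq : f^[m] q = q
  fwd : omegaL f a ⊆ Orb f q
  bwd : omegaL f.symm a ⊆ Orb f q

variable {m : ℕ} {q a : X}

theorem HomO.fin (h : HomO f m q a) : (Orb f q).Finite :=
  finite_range_zi h.hm (by rw [zi_nat]; exact h.hq)

theorem HomO.isClosed (h : HomO f m q a) : IsClosed (Orb f q ∪ Orb f a) := by
  rw [← isOpen_compl_iff, isOpen_iff_mem_nhds]
  intro y hy
  have hy1 : y ∉ Orb f q := fun h => hy (Or.inl h)
  have hy2 : y ∉ Orb f a := fun h => hy (Or.inr h)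
  obtain ⟨U, hU, hUk⟩ := exists_away' h.fin.isClosed h.fwd h.bwd hy1
  filter_upwards [hU, h.fin.isClosed.isOpen_compl.mem_nhds hy1] with z hz hz1 hz2
  rcases hz2 with hz2 | ⟨k, hk⟩
  · exact hz1 hz2
  · refine hy2 ⟨k, hUk k ?_⟩
    have hk : zi f.toEquiv k a = z := hk
    rw [hk]
    exact hz

theorem HomO.zinv : ZInv f (Orb f q ∪ Orb f a) := by
  rintro x (hx | hx) k
  · exact Or.inl (Orb_zinv f q x hx k)
  · exact Or.inr (Orb_zinv f a x hx k)

theorem HomO.iter_mem {x : X} (hx : x ∈ Orb f q ∪ Orb f a) (j : ℕ) :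
    f^[j] x ∈ Orb f q ∪ Orb f a := by
  have h2 := HomO.zinv x hx (j : ℤ)
  rw [zi_nat] at h2
  exact h2

theorem HomO.zi_q (h : HomO f m q a) (k : ℤ) : zi f.toEquiv (m * k) q = q :=
  zi_mul_fix (by exact h.hq) k

theorem HomO.per_chn (h : HomO f m q a) {δ : ℝ} (hδ : 0 < δ) (k l : ℤ) :
    Chn f (Orb f q ∪ Orb f a) δ (zi f.toEquiv k q) (zi f.toEquiv l q) := by
  have hmz : (0 : ℤ) < m := by exact_mod_cast h.hm
  obtain ⟨n, hn⟩ : ∃ n : ℕ, (n : ℤ) = l - k + m * (|l - k| + 1) := by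
    refine ⟨(l - k + m * (|l - k| + 1)).toNat, Int.toNat_of_nonneg ?_⟩
    have h1 := neg_abs_le (l - k)
    have h2 : 0 ≤ |l - k| := abs_nonneg _
    nlinarith
  have hn0 : 0 < n := by
    have h1 := neg_abs_le (l - k)
    have h2 : 0 ≤ |l - k| := abs_nonneg _
    have : (0 : ℤ) < n := by
      rw [hn]
      nlinarith
    exact_mod_cast this
  have h1 := Chn.orbit (f := f) (Λ := Orb f q ∪ Orb f a) hδ.le (x := zi f.toEquiv k q) hn0
    (fun j => HomO.iter_mem (Or.inl (mem_Orb f q k)) j)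
  have h2 : f^[n] (zi f.toEquiv k q) = zi f.toEquiv l q := by
    have h3 : f^[n] (zi f.toEquiv k q) = zi f.toEquiv (n : ℤ) (zi f.toEquiv k q) :=
      (zi_nat _ _ _).symm
    have e1 : l - k + (m : ℤ) * (|l - k| + 1) + k = l + m * (|l - k| + 1) := by ring
    rw [h3, ← zi_add, hn, e1, zi_add, h.zi_q]
  rwa [h2] at h1

theorem HomO.chn_to (h : HomO f m q a) {δ : ℝ} (hδ : 0 < δ) {x : X}
    (hx : x ∈ Orb f q ∪ Orb f a) : Chn f (Orb f q ∪ Orb f a) δ x q := by
  rcases hx with ⟨k, rfl⟩ | ⟨k, rfl⟩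
  · have := h.per_chn hδ k 0
    rwa [zi_zero] at this
  · obtain ⟨N, hN⟩ := eventually_near_omegaL f a hδ
    obtain ⟨n, hn⟩ : ∃ n : ℕ, (n : ℤ) = |k| + N + 2 - k := by
      refine ⟨(|k| + N + 2 - k).toNat, Int.toNat_of_nonneg ?_⟩
      have := le_abs_self k
      omega
    have h1 : f^[n + 1] (zi f.toEquiv k a) = f^[(|k| + N + 3).toNat] a := by
      have h3 : f^[n + 1] (zi f.toEquiv k a) = zi f.toEquiv ((n + 1 : ℕ) : ℤ) (zi f.toEquiv k a) :=
        (zi_nat _ _ _).symm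
      have h4 : f^[(|k| + N + 3).toNat] a = zi f.toEquiv ((|k| + N + 3).toNat : ℤ) a :=
        (zi_nat _ _ _).symm
      rw [h3, h4, ← zi_add]
      congr 1
      have := abs_nonneg k
      push_cast
      omega
    obtain ⟨z, hz, hz'⟩ := hN (|k| + N + 3).toNat (by have := abs_nonneg k; omega)
    obtain ⟨l, rfl⟩ := h.fwd hz
    have hmem : ∀ j, f^[j] (zi f.toEquiv k a) ∈ Orb f q ∪ Orb f a := fun j =>
      HomO.iter_mem (Or.inr (mem_Orb f a k)) j
    have hn0 : 0 < n := by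
      have := le_abs_self k
      omega
    refine (Chn.orbit hδ.le hn0 hmem).trans ((Chn.jump (hmem n) (Or.inl (mem_Orb f q l)) ?_).trans
      ?_)
    · rw [← Function.iterate_succ_apply' f n]
      have : (Nat.succ n) = n + 1 := rfl
      rw [this, h1]
      exact hz'.le
    · have := h.per_chn hδ l 0
      rwa [zi_zero] at this

theorem HomO.chn_from (h : HomO f m q a) {δ : ℝ} (hδ : 0 < δ) {x : X}
    (hx : x ∈ Orb f q ∪ Orb f a) : Chn f (Orb f q ∪ Orb f a) δ q x := by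
  rcases hx with ⟨k, rfl⟩ | ⟨k, rfl⟩
  · have := h.per_chn hδ 0 k
    rwa [zi_zero] at this
  · obtain ⟨N, hN⟩ := eventually_near_omegaL f.symm a hδ
    obtain ⟨n, hn⟩ : ∃ n : ℕ, (n : ℤ) = |k| + N + 1 := by
      refine ⟨(|k| + N + 1).toNat, Int.toNat_of_nonneg ?_⟩
      have := abs_nonneg k
      omega
    obtain ⟨z, hz, hz'⟩ := hN n (by have := abs_nonneg k; omega)
    obtain ⟨l, rfl⟩ := h.bwd hz
    have h1 : f.symm^[n] a = zi f.toEquiv (-(n : ℤ)) a := (zi_neg _ _ _).symm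
    have hmem : f.symm^[n] a ∈ Orb f q ∪ Orb f a := by
      rw [h1]
      exact Or.inr (mem_Orb f a _)
    obtain ⟨j, hj⟩ : ∃ j : ℕ, (j : ℤ) = k + n := by
      refine ⟨(k + n).toNat, Int.toNat_of_nonneg ?_⟩
      have := neg_abs_le k
      omega
    have hj0 : 0 < j := by
      have := neg_abs_le k
      omega
    have h2 : f^[j] (f.symm^[n] a) = zi f.toEquiv k a := by
      have h3 : f^[j] (f.symm^[n] a) = zi f.toEquiv (j : ℤ) (f.symm^[n] a) := (zi_nat _ _ _).symm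
      rw [h3, h1, ← zi_add, hj]
      congr 1
      ring
    have h4 : Chn f (Orb f q ∪ Orb f a) δ (f.symm^[n] a) (zi f.toEquiv k a) := by
      have := Chn.orbit (f := f) hδ.le hj0 (x := f.symm^[n] a) (Λ := Orb f q ∪ Orb f a)
        (fun i => HomO.iter_mem hmem i)
      rwa [h2] at this
    refine ((h.per_chn hδ 0 (l - 1)).trans ?_).trans h4 |> fun h5 => by rwa [zi_zero] at h5
    refine Chn.jump (Or.inl (mem_Orb f q _)) hmem ?_
    rw [← zi_succ', sub_add_cancel, dist_comm]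
    exact hz'.le

theorem HomO.ct (h : HomO f m q a) : CT f (Orb f q ∪ Orb f a) := fun _ hδ _ hx _ hy =>
  (h.chn_to hδ hx).trans (h.chn_from hδ hy)

end Top

end OmSt
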