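import Pool.Agent.OmSt2.RM2
import Pool.Agent.OmSt2.Count

/-!
# The standing hypotheses for diffeomorphisms with hyperbolic recurrence
-/

open Set Filter Topology Manifold ContDiff Metric Bundle

set_option linter.unusedSectionVars false

namespace OmSt

theorem closure_orbit_eq {X : Type*} [MetricSpace X] [CompactSpace X] {f : X ≃ₜ X} {z : X}
    (h : Recurrent f z) : closure (range fun n : ℕ => f^[n] z) = omegaL f z := by
  refine subset_antisymm (closure_minimal ?_ (isClosed_omegaL _ _)) fun y hy => ?_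
  · rintro _ ⟨n, rfl⟩
    exact (trans_omegaL f z).iterate_mem f (mem_omegaL_self h) n
  · rw [Metric.mem_closure_iff]
    intro ε hε
    obtain ⟨n, -, hn⟩ := mem_omegaL_iff.1 hy ε hε 0
    exact ⟨_, ⟨n, rfl⟩, by rwa [dist_comm]⟩

variable {E : Type*} [NormedAddCommGroup E] [NormedSpace ℝ E] [FiniteDimensional ℝ E]
  {M : Type*} [MetricSpace M] [CompactSpace M] [ChartedSpace E M] [IsManifold 𝓘(ℝ, E) ∞ M]
  {r : ℕ∞}

theorem sh_of_dhyp {s : Finset M} {K : M → Set M} {ρ₀ : ℝ} (hc : Cov E s K ρ₀) {g : Dyn E M r}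
    (hr : 1 ≤ r) {Λ : Set M} {κ : ℝ} (hΛ : Inv g Λ) (hD : DHyp s K g Λ κ) :
    Sh g.toHomeomorph Λ := by
  have : CompleteSpace E := FiniteDimensional.complete ℝ E
  obtain ⟨ε, hε, h1⟩ := exists_pos_of_eventually (hc.expansive hr hΛ hD)
  exact ⟨⟨ε, hε, h1⟩, fun ε hε => hc.shadow hr hΛ hD hε⟩

theorem IsHyperbolicSet.dhyp {s : Finset M} {K : M → Set M} {ρ₀ : ℝ} (hc : Cov E s K ρ₀)
    {f : Dyn E M r} (hr : 1 ≤ r) {Λ : Set M} (h : IsHyperbolicSet f Λ) (hcl : IsClosed Λ)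
    (hΛ : Inv f Λ) : ∃ κ, DHyp s K f Λ κ := by
  obtain ⟨γ⟩ := exists_rmetric (E := E) (M := M)
  obtain ⟨P, c, μ, hP⟩ := h.hypF hcl γ
  obtain ⟨s', K', ρ₀', κ', hc', hD⟩ := hP.exists_dhyp hr hΛ
  exact DHyp.change hc' hc hr hD

theorem zi_symm (f : Dyn E M r) (k : ℤ) (x : M) : zi f.symm.toEquiv k x = zi f.toEquiv (-k) x := by
  obtain ⟨n, rfl | rfl⟩ := k.eq_nat_or_neg
  · rw [zi_nat, zi_neg]
    rfl
  · rw [neg_neg, zi_nat, zi_neg]
    rfl

theorem Inv.symm {f : Dyn E M r} {Λ : Set M} (h : Inv f Λ) : Inv f.symm Λ := fun x hx k => by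
  rw [zi_symm]
  exact h x hx _

theorem IsHyperbolicSet.dhyp_symm {s : Finset M} {K : M → Set M} {ρ₀ : ℝ} (hc : Cov E s K ρ₀)
    {f : Dyn E M r} (hr : 1 ≤ r) {Λ : Set M} (h : IsHyperbolicSet f Λ) (hcl : IsClosed Λ)
    (hΛ : Inv f Λ) : ∃ κ, DHyp s K f.symm Λ κ := by
  obtain ⟨γ⟩ := exists_rmetric (E := E) (M := M)
  obtain ⟨P, c, μ, hP⟩ := h.hypF hcl γ
  have hP' := hP.symm hr fun x hx => by
    have := hΛ x hx (-1)
    have e1 : zi f.toEquiv (-1) x = f.symm x := by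
      have := zi_neg f.toEquiv 1 x
      simpa using this
    rwa [e1] at this
  obtain ⟨s', K', ρ₀', κ', hc', hD⟩ := hP'.exists_dhyp hr hΛ.symm
  exact DHyp.change hc' hc hr hD

/-- The hypothesis of the theorem. -/
def HypRec (f : Dyn E M r) : Prop :=
  ∀ x, Recurrent f x → IsHyperbolicSet f (closure (range fun n : ℕ => f^[n] x))

theorem inv_omegaL (f : Dyn E M r) (z : M) : Inv f (omegaL f z) :=
  omegaL_zinv f.toHomeomorph z

theorem HypRec.hyp {f : Dyn E M r} (h : HypRec f) {z : M} (hz : Recurrent f z) :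
    IsHyperbolicSet f (omegaL f z) := by
  have h1 := h z hz
  have h2 : closure (range fun n : ℕ => f^[n] z) = omegaL f z :=
    closure_orbit_eq (f := f.toHomeomorph) hz
  rwa [h2] at h1

theorem HypRec.ph {f : Dyn E M r} (h : HypRec f) (hr : 1 ≤ r)
    (hfin : ∀ n > 0, {x | f^[n] x = x}.Finite) : PH f.toHomeomorph := by
  obtain ⟨s, K, ρ₀, hc, -⟩ := exists_cov (M := M) E (U := fun _ => univ) (fun b => univ_mem)
  refine ⟨fun z z' hz hz' => ?_, hfin⟩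
  obtain ⟨κ, hκ⟩ := (h.hyp hz).dhyp hc hr (isClosed_omegaL _ _) (inv_omegaL f z)
  obtain ⟨κ', hκ'⟩ := (h.hyp hz').dhyp hc hr (isClosed_omegaL _ _) (inv_omegaL f z')
  refine sh_of_dhyp hc hr ?_ (hκ.union hκ')
  rintro x (hx | hx) k
  · exact Or.inl (inv_omegaL f z x hx k)
  · exact Or.inr (inv_omegaL f z' x hx k)

end OmSt
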