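import Pool.Agent.OmSt2.Hull
import Pool.Agent.OmSt.Chain3

/-!
# Maximal recurrent orbit closures
-/

open Set Filter Topology Metric

set_option linter.unusedSectionVars false

namespace OmSt

variable {X : Type*} [MetricSpace X] [CompactSpace X]

/-- The limit sets of the recurrent points. -/
def Elt (f : X ≃ₜ X) (K : Set X) : Prop := ∃ z, Recurrent f z ∧ omegaL f z = K

/-- The standing hypotheses. -/
structure PH (f : X ≃ₜ X) : Prop where
  hsh : ∀ z z', Recurrent f z → Recurrent f z' → Sh f (omegaL f z ∪ omegaL f z')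
  hfin : ∀ n > 0, {x | f^[n] x = x}.Finite

/-- Maximal limit sets of recurrent points. -/
def Piece (f : X ≃ₜ X) (P : Set X) : Prop := Elt f P ∧ ∀ K, Elt f K → P ⊆ K → K = P

theorem mem_omegaL_self {f : X ≃ₜ X} {z : X} (h : Recurrent f z) : z ∈ omegaL f z :=
  mem_omegaL_iff.2 fun ε hε N => h _ (ball_mem_nhds z hε) N

theorem recurrent_of_mem {f : X ≃ₜ X} {z : X} (h : z ∈ omegaL f z) : Recurrent f z := by
  intro U hU N
  obtain ⟨ε, hε, hεU⟩ := Metric.mem_nhds_iff.1 hU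
  obtain ⟨n, hn, hn'⟩ := mem_omegaL_iff.1 h ε hε N
  exact ⟨n, hn, hεU hn'⟩

theorem omegaL_zinv (f : X ≃ₜ X) (z : X) : ZInv f (omegaL f z) := fun x hx k =>
  forall_zi (σ := f.toEquiv) (fun k => (trans_omegaL f z).iterate_mem f hx k)
    (fun k => (trans_omegaL f z).iterate_symm_mem f hx k) k

theorem omegaL_subset {f : X ≃ₜ X} {K : Set X} (hK : IsClosed K) (hinv : MapsTo f K K) {x : X}
    (hx : x ∈ K) : omegaL f x ⊆ K := by
  intro y hy
  rw [← hK.closure_eq, Metric.mem_closure_iff]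
  intro ε hε
  obtain ⟨n, -, hn⟩ := mem_omegaL_iff.1 hy ε hε 0
  exact ⟨_, hinv.iterate n hx, by rwa [dist_comm]⟩

theorem ZInv.mapsTo {f : X ≃ₜ X} {K : Set X} (h : ZInv f K) : MapsTo f K K := by
  intro x hx
  have h1 := h x hx 1
  have e1 : zi f.toEquiv 1 x = f x := by
    have := zi_nat f.toEquiv 1 x
    simpa using this
  rwa [e1] at h1

theorem Elt.isClosed {f : X ≃ₜ X} {K : Set X} (h : Elt f K) : IsClosed K := by
  obtain ⟨z, -, rfl⟩ := h
  exact isClosed_omegaL _ _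

theorem Elt.nonempty {f : X ≃ₜ X} {K : Set X} (h : Elt f K) : K.Nonempty := by
  obtain ⟨z, -, rfl⟩ := h
  exact omegaL_nonempty _ _

theorem Elt.zinv {f : X ≃ₜ X} {K : Set X} (h : Elt f K) : ZInv f K := by
  obtain ⟨z, -, rfl⟩ := h
  exact omegaL_zinv _ _

theorem Elt.trans {f : X ≃ₜ X} {K : Set X} (h : Elt f K) : Trans f K := by
  obtain ⟨z, -, rfl⟩ := h
  exact trans_omegaL _ _

theorem Chn.mono {f : X ≃ₜ X} {Λ Λ' : Set X} {δ : ℝ} {x y : X} (h : Chn f Λ δ x y)
    (hΛ : Λ ⊆ Λ') : Chn f Λ' δ x y := by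
  obtain ⟨c, L, h1, h2, h3, h4, h5⟩ := h
  exact ⟨c, L, h1, h2, h3, fun i hi => hΛ (h4 i hi), h5⟩

theorem Chn.trans {f : X ≃ₜ X} {Λ : Set X} {δ : ℝ} {x y z : X} (h : Chn f Λ δ x y)
    (h' : Chn f Λ δ y z) : Chn f Λ δ x z := by
  obtain ⟨c, L, h1, h2, h3, h4, h5⟩ := h
  obtain ⟨c', L', h1', h2', h3', h4', h5'⟩ := h'
  have key : ∀ i, i ≤ L → (if i < L then c i else c' (i - L)) = c i := by
    intro i hi
    split_ifs with h
    · rfl
    · have : i = L := by omega
      subst this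
      rw [Nat.sub_self, h2', h3]
  refine ⟨fun i => if i < L then c i else c' (i - L), L + L', by omega, ?_, ?_, fun i hi => ?_,
    fun i hi => ?_⟩
  · simp [h1, h2]
  · have : ¬ L + L' < L := by omega
    simp [this, h3']
  · dsimp only
    split_ifs with h
    · exact h4 i h.le
    · exact h4' _ (by omega)
  · dsimp only
    by_cases h : i < L
    · rw [key i h.le, key (i + 1) h]
      exact h5 i h
    · have h' : ¬ i + 1 < L := by omega
      rw [if_neg h, if_neg h']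
      have e1 : i + 1 - L = i - L + 1 := by omega
      rw [e1]
      exact h5' _ (by omega)

/-- Limit sets of recurrent points are chain transitive. -/
theorem Elt.chn {f : X ≃ₜ X} {K : Set X} (h : Elt f K) {δ : ℝ} (hδ : 0 < δ) {x y : X}
    (hx : x ∈ K) (hy : y ∈ K) : Chn f K δ x y := by
  obtain ⟨z, hz, rfl⟩ := h
  obtain ⟨δ', hδ', huc⟩ := exists_pos_of_eventually (exists_uc f f.continuous hδ)
  obtain ⟨a, -, ha⟩ := mem_omegaL_iff.1 hx δ' hδ' 0
  obtain ⟨b, hb, hb'⟩ := mem_omegaL_iff.1 hy δ hδ (a + 2)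
  have horb : ∀ k, f^[k] z ∈ omegaL f z := fun k =>
    (trans_omegaL f z).iterate_mem f (mem_omegaL_self hz) k
  obtain ⟨L, rfl⟩ : ∃ L, b = a + L := ⟨b - a, by omega⟩
  have hL : 2 ≤ L := by omega
  refine ⟨fun i => if i = 0 then x else if i < L then f^[a + i] z else y, L, by omega, by simp,
    ?_, fun i _ => ?_, fun i hi => ?_⟩
  · have : L ≠ 0 := by omega
    simp [this]
  · dsimp only
    split_ifs
    · exact hx
    · exact horb _
    · exact hy
  · dsimp only
    rcases Nat.eq_zero_or_pos i with h0 | h0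
    · subst h0
      have h1 : (0 : ℕ) + 1 < L := by omega
      rw [if_pos rfl, if_neg (by omega), if_pos h1, zero_add, Function.iterate_succ_apply']
      exact huc _ _ (by rw [dist_comm]; exact ha.le)
    · rw [if_neg h0.ne', if_pos hi, if_neg (by omega), ← Function.iterate_succ_apply' f]
      rcases Nat.lt_or_ge (i + 1) L with h1 | h1
      · rw [if_pos h1]
        have : (a + i).succ = a + (i + 1) := by omega
        rw [this, dist_self]
        exact hδ.le
      · rw [if_neg (by omega)]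
        have : (a + i).succ = a + L := by omega
        rw [this]
        exact hb'.le

variable {f : X ≃ₜ X}

theorem PH.sh_elt (hf : PH f) {K : Set X} (h : Elt f K) : Sh f K := by
  obtain ⟨z, hz, rfl⟩ := h
  have := hf.hsh z z hz hz
  rwa [union_self] at this

/-- Intersecting limit sets are contained in a larger one. -/
theorem PH.exists_union (hf : PH f) {K₁ K₂ : Set X} (h₁ : Elt f K₁) (h₂ : Elt f K₂)
    (h : (K₁ ∩ K₂).Nonempty) : ∃ K₃, Elt f K₃ ∧ K₁ ⊆ K₃ ∧ K₂ ⊆ K₃ := by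
  obtain ⟨w, hw1, hw2⟩ := h
  have hinv : ZInv f (K₁ ∪ K₂) := by
    rintro x (hx | hx) k
    · exact Or.inl (h₁.zinv x hx k)
    · exact Or.inr (h₂.zinv x hx k)
  have hS : Sh f (K₁ ∪ K₂) := by
    obtain ⟨z₁, hz₁, rfl⟩ := h₁
    obtain ⟨z₂, hz₂, rfl⟩ := h₂
    exact hf.hsh z₁ z₂ hz₁ hz₂
  have hto : ∀ δ > 0, ∀ x ∈ K₁ ∪ K₂, Chn f (K₁ ∪ K₂) δ x w := by
    rintro δ hδ x (hx | hx)
    · exact (h₁.chn hδ hx hw1).mono subset_union_left
    · exact (h₂.chn hδ hx hw2).mono subset_union_right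
  have hfrom : ∀ δ > 0, ∀ x ∈ K₁ ∪ K₂, Chn f (K₁ ∪ K₂) δ w x := by
    rintro δ hδ x (hx | hx)
    · exact (h₁.chn hδ hw1 hx).mono subset_union_left
    · exact (h₂.chn hδ hw2 hx).mono subset_union_right
  obtain ⟨δ, hδ, ε, hε, -, z, hz, hzH⟩ := exists_hull (h₁.isClosed.union h₂.isClosed)
    (h₁.nonempty.mono subset_union_left) hinv hS
    (fun δ hδ x hx y hy => (hto δ hδ x hx).trans (hfrom δ hδ y hy))
  have hsub := subset_hull (f := f) hinv hδ.le hε.le
  exact ⟨Hull f (K₁ ∪ K₂) δ ε, ⟨z, hz, hzH⟩, subset_union_left.trans hsub,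
    subset_union_right.trans hsub⟩

/-- Every limit set of a recurrent point is contained in a piece. -/
theorem PH.exists_piece (hf : PH f) {K : Set X} (hK : Elt f K) : ∃ P, Piece f P ∧ K ⊆ P := by
  obtain ⟨z₀, hz₀K⟩ := hK.nonempty
  set 𝒰 : Set (Set X) := {K | Elt f K ∧ z₀ ∈ K} with h𝒰
  have hK𝒰 : K ∈ 𝒰 := ⟨hK, hz₀K⟩
  set H : Set X := closure (⋃₀ 𝒰) with hH
  have hsub : ∀ L ∈ 𝒰, L ⊆ H := fun L hL => (subset_sUnion_of_mem hL).trans subset_closure
  have hElt : Elt f H := by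
    refine exists_recurrent_of_trans isClosed_closure
      ⟨z₀, hsub K hK𝒰 hz₀K⟩ (MapsTo.closure (fun x hx => ?_) f.continuous) ?_
    · obtain ⟨L, hL, hxL⟩ := hx
      exact ⟨L, hL, hL.1.zinv.mapsTo hxL⟩
    · rintro U V hU hV ⟨u, huU, hu⟩ ⟨v, hvV, hv⟩ N
      obtain ⟨u', hu'U, K₁, hK₁, hu'⟩ := mem_closure_iff.1 hu U hU huU
      obtain ⟨v', hv'V, K₂, hK₂, hv'⟩ := mem_closure_iff.1 hv V hV hvV
      obtain ⟨K₃, ⟨z, hz, rfl⟩, h1, h2⟩ := hf.exists_union hK₁.1 hK₂.1 ⟨z₀, hK₁.2, hK₂.2⟩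
      obtain ⟨η₁, hη₁, h3⟩ := Metric.isOpen_iff.1 hU u' hu'U
      obtain ⟨η₂, hη₂, h4⟩ := Metric.isOpen_iff.1 hV v' hv'V
      obtain ⟨a, -, ha⟩ := mem_omegaL_iff.1 (h1 hu') η₁ hη₁ 0
      obtain ⟨b, hb, hb'⟩ := mem_omegaL_iff.1 (h2 hv') η₂ hη₂ (a + N)
      refine ⟨b - a, by omega, f^[a] z, ⟨h3 ha, hsub (omegaL f z) ⟨⟨z, hz, rfl⟩, h1 hK₁.2⟩
        ((trans_omegaL f z).iterate_mem f (mem_omegaL_self hz) a)⟩, ?_⟩
      rw [← Function.iterate_add_apply, Nat.sub_add_cancel (by omega)]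
      exact h4 hb'
  refine ⟨H, ⟨hElt, fun L hL hHL => ?_⟩, hsub K hK𝒰⟩
  exact subset_antisymm (hsub L ⟨hL, hHL (hsub K hK𝒰 hz₀K)⟩) hHL

theorem PH.subset_piece (hf : PH f) {K P : Set X} (hK : Elt f K) (hP : Piece f P)
    (h : (K ∩ P).Nonempty) : K ⊆ P := by
  obtain ⟨K₃, h3, h4, h5⟩ := hf.exists_union hK hP.1 h
  rw [hP.2 K₃ h3 h5] at h4
  exact h4

theorem PH.piece_eq (hf : PH f) {P Q : Set X} (hP : Piece f P) (hQ : Piece f Q)
    (h : (P ∩ Q).Nonempty) : P = Q :=
  subset_antisymm (hf.subset_piece hP.1 hQ h) (hf.subset_piece hQ.1 hP (by rwa [inter_comm]))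

theorem PH.exists_piece_of_recurrent (hf : PH f) {x : X} (hx : Recurrent f x) :
    ∃ P, Piece f P ∧ x ∈ P := by
  obtain ⟨P, hP, h⟩ := hf.exists_piece ⟨x, hx, rfl⟩
  exact ⟨P, hP, h (mem_omegaL_self hx)⟩

theorem PH.hull_piece (hf : PH f) {P : Set X} (hP : Piece f P) : ∃ δ > 0, ∃ ε > 0,
    (∀ x y, (∀ n : ℤ, ∃ z ∈ P, dist (zi f.toEquiv n x) z ≤ 2 * ε) →
      (∀ n : ℤ, dist (zi f.toEquiv n x) (zi f.toEquiv n y) ≤ 2 * ε) → x = y) ∧
      Hull f P δ ε = P := by
  obtain ⟨δ, hδ, ε, hε, h1, z, hz, hzH⟩ := exists_hull hP.1.isClosed hP.1.nonempty hP.1.zinv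
    (hf.sh_elt hP.1) (fun δ hδ x hx y hy => hP.1.chn hδ hx hy)
  exact ⟨δ, hδ, ε, hε, h1, hP.2 _ ⟨z, hz, hzH⟩ (subset_hull hP.1.zinv hδ.le hε.le)⟩

/-- Pieces are isolated. -/
theorem PH.isolated (hf : PH f) {P : Set X} (hP : Piece f P) : ∃ U : Set X, IsClosed U ∧
    P ⊆ interior U ∧ ∀ y, (∀ k : ℕ, f^[k] y ∈ U) → (∀ k : ℕ, f.symm^[k] y ∈ U) → y ∈ P := by
  obtain ⟨δ, hδ, ε, hε, -, h1⟩ := hf.hull_piece hP
  obtain ⟨β, hβ, huc, h2, h3⟩ := exists_pos_of_eventually
    ((exists_uc f f.continuous (half_pos hδ)).and ((eventually_le_pos (half_pos hδ)).and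
      (eventually_le_pos hε)))
  refine ⟨cthickening β P, isClosed_cthickening, ?_, fun y hy1 hy2 => ?_⟩
  · refine interior_maximal (thickening_subset_cthickening β P) isOpen_thickening |>.trans'
      (self_subset_thickening hβ P)
  · rw [← h1]
    have hP' : IsCompact P := hP.1.isClosed.isCompact
    have h4 : ∀ n : ℤ, ∃ p ∈ P, dist (zi f.toEquiv n y) p ≤ β := by
      intro n
      have h5 := forall_zi (σ := f.toEquiv) hy1 hy2 n
      rw [hP'.cthickening_eq_biUnion_closedBall hβ.le] at h5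
      obtain ⟨p, hp, hp'⟩ := mem_iUnion₂.1 h5
      exact ⟨p, hp, hp'⟩
    choose p hp hp' using h4
    refine ⟨p, hp, fun n => ?_, fun n => (hp' n).trans h3⟩
    have h6 := huc _ _ (hp' n)
    have h7 := hp' (n + 1)
    rw [zi_succ'] at h7
    calc dist (f (p n)) (p (n + 1)) ≤ dist (f (zi f.toEquiv n y)) (f (p n)) +
          dist (f (zi f.toEquiv n y)) (p (n + 1)) := dist_triangle_left _ _ _
      _ ≤ δ / 2 + δ / 2 := add_le_add h6 (h7.trans h2)
      _ = δ := by ring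

/-- Periodic points are dense in the pieces. -/
theorem PH.dense_periodic (hf : PH f) {P : Set X} (hP : Piece f P) :
    P ⊆ closure (P ∩ Function.periodicPts f) := by
  obtain ⟨δ, hδ, ε, hε, hexp, h1⟩ := hf.hull_piece hP
  intro x hx
  rw [Metric.mem_closure_iff]
  intro η hη
  obtain ⟨δ', hδ', hsh⟩ := (hf.sh_elt hP.1).shadow (min ε (η / 2)) (by positivity)
  obtain ⟨c, L, hL, hc0, hcL, hcP, hcj⟩ := hP.1.chn (lt_min hδ' hδ) hx hx
  have hLz : (0 : ℤ) < L := by exact_mod_cast hL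
  set p : ℤ → X := fun n => c (n % L).toNat with hp
  have hmod : ∀ n : ℤ, (n % L).toNat < L := fun n => by
    have h2 := Int.emod_nonneg n hLz.ne'
    have h3 := Int.emod_lt_of_pos n hLz
    omega
  have hpj : ∀ n, dist (f (p n)) (p (n + 1)) ≤ min δ' δ := by
    intro n
    have h2 := Int.emod_nonneg n hLz.ne'
    have h3 := Int.emod_lt_of_pos n hLz
    have h4 := hcj (n % L).toNat (hmod n)
    by_cases h5 : n % L + 1 < L
    · have e1 : (n + 1) % L = n % L + 1 := by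
        rw [Int.add_emod, Int.emod_eq_of_lt (a := n % L + 1 % L)]
        · rcases (by omega : (L : ℤ) = 1 ∨ 1 < (L : ℤ)) with h6 | h6
          · omega
          · rw [Int.emod_eq_of_lt (by norm_num) h6]
        · have := Int.emod_nonneg 1 hLz.ne'
          omega
        · rcases (by omega : (L : ℤ) = 1 ∨ 1 < (L : ℤ)) with h6 | h6
          · omega
          · rw [Int.emod_eq_of_lt (a := 1) (by norm_num) h6]
            exact h5
      have e2 : ((n + 1) % L).toNat = (n % L).toNat + 1 := by omega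
      simp only [hp]
      rw [e2]
      exact h4
    · have h6 : n % L + 1 = L := by omega
      have e1 : (n + 1) % L = 0 := by
        rw [← Int.emod_add_mul_ediv n L]
        have : n % L + L * (n / L) + 1 = 0 + L * (n / L + 1) := by linarith
        rw [this]
        simp
      have e2 : (n % L).toNat + 1 = L := by omega
      simp only [hp]
      rw [e1, Int.toNat_zero, hc0, ← hcL]
      rwa [e2] at h4
  obtain ⟨y, hy⟩ := hsh p (fun n => hcP _ (hmod n).le) (fun n => (hpj n).trans (min_le_left _ _))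
  have hyy : y = zi f.toEquiv L y := by
    refine hexp y _ (fun n => ⟨p n, hcP _ (hmod n).le, (hy n).trans ?_⟩) (fun n => ?_)
    · linarith [min_le_left ε (η / 2)]
    · have h2 := hy (n + L)
      have e1 : p (n + L) = p n := by simp [hp]
      rw [e1, zi_add] at h2
      calc dist (zi f.toEquiv n y) (zi f.toEquiv n (zi f.toEquiv L y))
          ≤ dist (zi f.toEquiv n y) (p n) + dist (zi f.toEquiv n (zi f.toEquiv L y)) (p n) :=
            dist_triangle_right _ _ _
        _ ≤ min ε (η / 2) + min ε (η / 2) := add_le_add (hy n) h2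
        _ ≤ 2 * ε := by linarith [min_le_left ε (η / 2)]
  refine ⟨y, ⟨?_, L, hL, ?_⟩, ?_⟩
  · rw [← h1]
    exact ⟨p, fun n => hcP _ (hmod n).le, fun n => (hpj n).trans (min_le_right _ _),
      fun n => (hy n).trans (min_le_left _ _)⟩
  · have h2 : zi f.toEquiv L y = f^[L] y := zi_nat f.toEquiv L y
    exact (h2.symm.trans hyy.symm)
  · have h2 := hy 0
    have e1 : p 0 = x := by simp [hp, hc0]
    rw [zi_zero, e1, dist_comm] at h2
    linarith [min_le_right ε (η / 2)]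

/-- There are countably many pieces. -/
theorem PH.countable (hf : PH f) : {P | Piece f P}.Countable := by
  have hcount : (Function.periodicPts f).Countable := by
    have : Function.periodicPts f = ⋃ n : ℕ, {x | f^[n + 1] x = x} := by
      ext x
      simp only [mem_iUnion]
      constructor
      · rintro ⟨n, hn, hn'⟩
        refine ⟨n - 1, ?_⟩
        change f^[n - 1 + 1] x = x
        rw [Nat.sub_add_cancel hn]
        exact hn'
      · rintro ⟨n, hn⟩
        exact ⟨n + 1, Nat.succ_pos n, hn⟩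
    rw [this]
    exact countable_iUnion fun n => (hf.hfin (n + 1) (Nat.succ_pos n)).countable
  have hne : ∀ P, Piece f P → ∃ q, q ∈ P ∩ Function.periodicPts f := by
    intro P hP
    obtain ⟨x, hx⟩ := hP.1.nonempty
    obtain ⟨q, hq, -⟩ := Metric.mem_closure_iff.1 (hf.dense_periodic hP hx) 1 one_pos
    exact ⟨q, hq⟩
  rcases isEmpty_or_nonempty X with hX | hX
  · exact (Set.subsingleton_of_subsingleton).countable
  choose! q hq using hne
  exact (show MapsTo q {P | Piece f P} (Function.periodicPts f) from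
    fun P hP => (hq P hP).2).countable_of_injOn (fun P hP Q hQ hPQ =>
      hf.piece_eq hP hQ ⟨q P, (hq P hP).1, hPQ ▸ (hq Q hQ).1⟩) hcount

end OmSt
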