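import Pool.Agent.OmSt2.Split

/-!
# Existence of Riemannian metrics, comparison of norms
-/

open Set Filter Topology Manifold ContDiff Metric Bundle

set_option linter.unusedSectionVars false

namespace OmSt

variable {E : Type*} [NormedAddCommGroup E] [NormedSpace ℝ E]

theorem exists_form [FiniteDimensional ℝ E] : ∃ G : E →L[ℝ] E →L[ℝ] ℝ,
    (∀ v w, G v w = G w v) ∧ ∀ v, v ≠ 0 → 0 < G v v := by
  let T : E →L[ℝ] EuclideanSpace ℝ (Fin (Module.finrank ℝ E)) := (toEuclidean : E ≃L[ℝ] _)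
  refine ⟨(innerSL ℝ (E := EuclideanSpace ℝ (Fin (Module.finrank ℝ E)))).bilinearComp T T,
    fun v w => ?_, fun v hv => ?_⟩
  · simp only [ContinuousLinearMap.bilinearComp_apply]
    exact real_inner_comm (T w) (T v)
  · simp only [ContinuousLinearMap.bilinearComp_apply]
    have h1 : T v ≠ 0 := by
      intro h
      apply hv
      have h2 : (toEuclidean : E ≃L[ℝ] _) v = 0 := h
      simpa using h2
    exact real_inner_self_pos.2 h1

theorem exists_coercive [FiniteDimensional ℝ E] (G : E →L[ℝ] E →L[ℝ] ℝ)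
    (hG : ∀ v, v ≠ 0 → 0 < G v v) : ∃ c > 0, ∀ v, c * ‖v‖ ^ 2 ≤ G v v := by
  have hcont : Continuous fun v : E => G v v := by fun_prop
  rcases (sphere (0 : E) 1).eq_empty_or_nonempty with he | hne
  · refine ⟨1, one_pos, fun v => ?_⟩
    by_cases hv : v = 0
    · simp [hv]
    · exfalso
      have : ‖v‖⁻¹ • v ∈ sphere (0 : E) 1 := by
        rw [mem_sphere_zero_iff_norm, norm_smul, norm_inv, norm_norm,
          inv_mul_cancel₀ (norm_ne_zero_iff.2 hv)]
      rw [he] at this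
      exact this
  · obtain ⟨w, hw, hmin⟩ := (isCompact_sphere (0 : E) 1).exists_isMinOn hne hcont.continuousOn
    have hw0 : w ≠ 0 := by
      intro h
      rw [mem_sphere_zero_iff_norm, h, norm_zero] at hw
      exact zero_ne_one hw
    refine ⟨G w w, hG w hw0, fun v => ?_⟩
    by_cases hv : v = 0
    · simp [hv]
    · have hn : ‖v‖ ≠ 0 := norm_ne_zero_iff.2 hv
      have h1 : ‖v‖⁻¹ • v ∈ sphere (0 : E) 1 := by
        rw [mem_sphere_zero_iff_norm, norm_smul, norm_inv, norm_norm, inv_mul_cancel₀ hn]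
      have h2 : G w w ≤ G (‖v‖⁻¹ • v) (‖v‖⁻¹ • v) := hmin h1
      have h3 : G (‖v‖⁻¹ • v) (‖v‖⁻¹ • v) * ‖v‖ ^ 2 = G v v := by
        simp only [map_smul, smul_apply, smul_eq_mul]
        field_simp
      rw [← h3]
      gcongr

theorem isVonNBounded_of_pos [FiniteDimensional ℝ E] (G : E →L[ℝ] E →L[ℝ] ℝ)
    (hG : ∀ v, v ≠ 0 → 0 < G v v) : Bornology.IsVonNBounded ℝ {v : E | G v v < 1} := by
  obtain ⟨c, hc, h⟩ := exists_coercive G hG
  rw [NormedSpace.isVonNBounded_iff, isBounded_iff_forall_norm_le]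
  refine ⟨1 / c + 1, fun v hv => ?_⟩
  have hv : G v v < 1 := hv
  have h1 := h v
  have h2 : ‖v‖ ^ 2 ≤ 1 / c := by
    rw [le_div_iff₀ hc]
    linarith
  have h3 : 0 ≤ ‖v‖ := norm_nonneg v
  nlinarith

variable {M : Type*} [TopologicalSpace M] [ChartedSpace E M] [IsManifold 𝓘(ℝ, E) ∞ M]

theorem cla_eq {b y : M} (hy : y ∈ (chartAt E b).source) :
    ((trivializationAt E (TangentSpace 𝓘(ℝ, E)) b).continuousLinearMapAt ℝ y : E →L[ℝ] E) =
      (Dc b y : E →L[ℝ] E) := by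
  have h := TangentBundle.continuousLinearMapAt_trivializationAt (I := 𝓘(ℝ, E)) (M := M) hy
  refine h.trans ?_
  unfold Dc
  have e : (extChartAt 𝓘(ℝ, E) b : M → E) = chartAt E b := by
    ext x
    simp
  rw [e]

theorem sym_eq {b y : M} (hy : y ∈ (chartAt E b).source) :
    ((trivializationAt E (TangentSpace 𝓘(ℝ, E)) b).symmL ℝ y : E →L[ℝ] E) =
      (Dc' b y : E →L[ℝ] E) := by
  have h := TangentBundle.symmL_trivializationAt (I := 𝓘(ℝ, E)) (M := M) hy
  refine h.trans ?_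
  unfold Dc'
  have e : (extChartAt 𝓘(ℝ, E) b : M → E) = chartAt E b := by
    ext x
    simp
  have e' : ((extChartAt 𝓘(ℝ, E) b).symm : E → M) = (chartAt E b).symm := by
    ext x
    simp
  rw [e, e']
  have e2 : range (𝓘(ℝ, E)) = univ := by simp
  rw [e2, mfderivWithin_univ]

theorem triv_lin (x₀ y : M) (c : ℝ) :
    Trivialization.linearMapAt ℝ (trivializationAt ℝ (Bundle.Trivial M ℝ) x₀) y c = c := by
  simp

theorem inC₂ {b y : M} (hy : y ∈ (chartAt E b).source) (φ : E →L[ℝ] E →L[ℝ] ℝ) (v w : E) :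
    ContinuousLinearMap.inCoordinates E (fun x : M => TangentSpace 𝓘(ℝ, E) x) (E →L[ℝ] ℝ)
      (fun x : M => TangentSpace 𝓘(ℝ, E) x →L[ℝ] ℝ) b y b y φ v w =
      φ (Dc' b y v) (Dc' b y w) := by
  have hy' : y ∈ (trivializationAt E (TangentSpace 𝓘(ℝ, E)) b).baseSet := hy
  have e2 := inCoordinates_apply_eq₂ (𝕜 := ℝ) (F₁ := E)
    (E₁ := fun x : M => TangentSpace 𝓘(ℝ, E) x)
    (F₂ := E) (E₂ := fun x : M => TangentSpace 𝓘(ℝ, E) x) (F₃ := ℝ)
    (E₃ := Bundle.Trivial M ℝ) (x₀ := b) (x := y) (ϕ := φ) (v := v) (w := w) hy' hy'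
    (Set.mem_univ _)
  refine e2.trans ((triv_lin _ _ _).trans ?_)
  rw [← Trivialization.symmL_apply (R := ℝ) _ hy', ← Trivialization.symmL_apply (R := ℝ) _ hy']
  rw [← sym_eq hy]
  rfl

theorem exists_rmetric [FiniteDimensional ℝ E] [T2Space M] [CompactSpace M] :
    Nonempty (RMetric E M) := by
  obtain ⟨G, hG1, hG2⟩ := exists_form (E := E)
  have key := exists_contMDiffSection_forall_mem_convex_of_local (I := 𝓘(ℝ, E)) (M := M)
    (n := (⊤ : ℕ∞)) (F_fiber := E →L[ℝ] E →L[ℝ] ℝ)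
    (V := fun x : M => TangentSpace 𝓘(ℝ, E) x →L[ℝ] TangentSpace 𝓘(ℝ, E) x →L[ℝ] ℝ)
    (t := fun x => {φ | (∀ v w, φ v w = φ w v) ∧ ∀ v, v ≠ 0 → 0 < φ v v}) ?_ ?_
  · obtain ⟨s, hs⟩ := key
    refine ⟨⟨s, fun b => (hs b).1, fun b => (hs b).2, fun b => ?_, s.contMDiff⟩⟩
    let G' : E →L[ℝ] E →L[ℝ] ℝ := s b
    exact isVonNBounded_of_pos G' (hs b).2
  · intro x φ hφ ψ hψ a b ha hb hab
    refine ⟨fun v w => ?_, fun v hv => ?_⟩
    · change a * φ v w + b * ψ v w = a * φ w v + b * ψ w v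
      rw [hφ.1 v w, hψ.1 v w]
    · change 0 < a * φ v v + b * ψ v v
      have h1 := hφ.2 v hv
      have h2 := hψ.2 v hv
      rcases ha.eq_or_lt with rfl | ha
      · have : b = 1 := by linarith
        rw [this]
        linarith
      · have : 0 ≤ b * ψ v v := by positivity
        have : 0 < a * φ v v := by positivity
        linarith
  · intro x₀
    let S : M → E →L[ℝ] E →L[ℝ] ℝ := fun y => G.bilinearComp (Dc x₀ y) (Dc x₀ y)
    let S' : ∀ y : M, TangentSpace 𝓘(ℝ, E) y →L[ℝ] TangentSpace 𝓘(ℝ, E) y →L[ℝ] ℝ := S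
    refine ⟨(chartAt E x₀).source, (chartAt E x₀).open_source.mem_nhds (mem_chart_source E x₀),
      S', ?_, fun y hy => ⟨fun v w => ?_, fun v hv => ?_⟩⟩
    · rw [(trivializationAt (E →L[ℝ] E →L[ℝ] ℝ) (fun x : M => TangentSpace 𝓘(ℝ, E) x →L[ℝ]
        TangentSpace 𝓘(ℝ, E) x →L[ℝ] ℝ) x₀).contMDiffOn_section_iff (chartAt E x₀).open_source ?_]
      · refine (contMDiffOn_const (c := G)).congr fun y hy => ?_
        ext v w
        refine (inC₂ hy (S y) v w).trans ?_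
        have e1 := (Dc_mul hy).1
        change G (((Dc x₀ y : E →L[ℝ] E) * Dc' x₀ y : E →L[ℝ] E) v)
          (((Dc x₀ y : E →L[ℝ] E) * Dc' x₀ y : E →L[ℝ] E) w) = _
        rw [e1]
        rfl
      · intro y hy
        exact ⟨hy, hy, Set.mem_univ _⟩
    · exact hG1 _ _
    · refine hG2 _ fun h => hv ?_
      have h3 : (Dc x₀ y : E →L[ℝ] E) v = 0 := h
      calc v = (Dc' x₀ y * Dc x₀ y : E →L[ℝ] E) v := by rw [(Dc_mul hy).2]; rfl
        _ = Dc' x₀ y ((Dc x₀ y : E →L[ℝ] E) v) := rfl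
        _ = 0 := by rw [h3, map_zero]

end OmSt
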