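import Pool.Agent.OmSt2.Cov
import Pool.Agent.OmSt2.Dich3
import Pool.Agent.OmSt.Away
import Pool.Agent.OmSt.Horse2

/-!
# Shadowing near hyperbolic sets
-/

open Set Filter Topology Manifold ContDiff Metric

set_option linter.unusedSectionVars false

namespace OmSt

section Track

variable {X : Type*} [MetricSpace X] [CompactSpace X]

theorem exists_uc (f : X → X) (hf : Continuous f) {ε : ℝ} (hε : 0 < ε) :
    ∀ᶠ δ in 𝓝[>] (0 : ℝ), ∀ a b, dist a b ≤ δ → dist (f a) (f b) ≤ ε := by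
  have huc : UniformContinuous f := CompactSpace.uniformContinuous_of_continuous hf
  obtain ⟨δ, hδ, h1⟩ := Metric.uniformContinuous_iff.1 huc ε hε
  have h2 : ∀ᶠ δ' in 𝓝[>] (0 : ℝ), δ' ∈ Iio δ :=
    Filter.Eventually.filter_mono nhdsWithin_le_nhds (Iio_mem_nhds hδ)
  filter_upwards [h2] with δ' hδ' a b hab
  exact (h1 (hab.trans_lt hδ')).le

theorem eventually_le_pos {ε : ℝ} (hε : 0 < ε) : ∀ᶠ δ in 𝓝[>] (0 : ℝ), δ ≤ ε := by
  have h2 : ∀ᶠ δ' in 𝓝[>] (0 : ℝ), δ' ∈ Iio ε :=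
    Filter.Eventually.filter_mono nhdsWithin_le_nhds (Iio_mem_nhds hε)
  filter_upwards [h2] with δ hδ
  exact hδ.le

/-- From a small right neighbourhood of zero to a single number. -/
theorem exists_pos_of_eventually {P : ℝ → Prop} (h : ∀ᶠ δ in 𝓝[>] (0 : ℝ), P δ) :
    ∃ δ > 0, P δ := by
  obtain ⟨δ, h1, h2⟩ := (h.and self_mem_nhdsWithin).exists
  exact ⟨δ, h2, h1⟩

theorem track_fwd (f : X → X) (hf : Continuous f) (G : ℕ) : ∀ ε > 0, ∀ᶠ δ in 𝓝[>] (0 : ℝ),
    ∀ (p : ℤ → X) (n₀ : ℤ) (x : X), (∀ n, n₀ ≤ n → n < n₀ + G → dist (f (p n)) (p (n + 1)) ≤ δ) →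
      dist (p n₀) x ≤ δ → ∀ k : ℕ, k ≤ G → dist (p (n₀ + k)) (f^[k] x) ≤ ε := by
  induction G with
  | zero =>
    intro ε hε
    filter_upwards [eventually_le_pos hε] with δ hδ p n₀ x _ hx k hk
    have : k = 0 := by omega
    subst this
    simpa using hx.trans hδ
  | succ G ih =>
    intro ε hε
    obtain ⟨ε', hε', h1⟩ := exists_pos_of_eventually (exists_uc f hf (half_pos hε))
    filter_upwards [ih (min ε' ε) (lt_min hε' hε), eventually_le_pos (half_pos hε)]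
      with δ h2 h3 p n₀ x hj hx k hk
    have h4 := h2 p n₀ x (fun n hn hn' => hj n hn (by push_cast; linarith)) hx
    rcases Nat.lt_or_ge k (G + 1) with hk' | hk'
    · exact (h4 k (by omega)).trans (min_le_right _ _)
    · have : k = G + 1 := by omega
      subst this
      have h5 := h1 _ _ ((h4 G le_rfl).trans (min_le_left _ _))
      have h6 := hj (n₀ + G) (by linarith [(Nat.cast_nonneg G : (0 : ℤ) ≤ G)])
        (by push_cast; linarith)
      rw [Function.iterate_succ_apply']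
      have e1 : n₀ + ((G + 1 : ℕ) : ℤ) = n₀ + G + 1 := by push_cast; ring
      rw [e1]
      calc dist (p (n₀ + G + 1)) (f (f^[G] x))
          ≤ dist (f (p (n₀ + G))) (p (n₀ + G + 1)) + dist (f (p (n₀ + G))) (f (f^[G] x)) :=
            dist_triangle_left _ _ _
        _ ≤ ε / 2 + ε / 2 := add_le_add (h6.trans h3) h5
        _ = ε := by ring

/-- Pseudo-orbits follow orbits for a given time. -/
theorem exists_track (f : X ≃ₜ X) (G : ℕ) {ε : ℝ} (hε : 0 < ε) : ∀ᶠ δ in 𝓝[>] (0 : ℝ),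
    ∀ (p : ℤ → X) (n₀ : ℤ) (x : X),
      (∀ n, n₀ - G ≤ n → n < n₀ + G → dist (f (p n)) (p (n + 1)) ≤ δ) →
      dist (p n₀) x ≤ δ → ∀ k : ℤ, |k| ≤ G → dist (p (n₀ + k)) (zi f.toEquiv k x) ≤ ε := by
  obtain ⟨δ₁, hδ₁, h1⟩ := exists_pos_of_eventually (track_fwd f.symm f.symm.continuous G ε hε)
  filter_upwards [track_fwd f f.continuous G ε hε, exists_uc f.symm f.symm.continuous hδ₁,
    eventually_le_pos hδ₁] with δ h2 h3 h4 p n₀ x hj hx k hk
  obtain ⟨l, rfl | rfl⟩ := k.eq_nat_or_neg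
  · rw [zi_nat]
    refine h2 p n₀ x (fun n hn hn' => hj n (by linarith [(Nat.cast_nonneg G : (0 : ℤ) ≤ G)]) hn')
      hx l ?_
    rw [abs_of_nonneg (by positivity)] at hk
    exact_mod_cast hk
  · rw [zi_neg]
    have h5 := h1 (fun n => p (-n)) (-n₀) x (fun n hn hn' => ?_) (by simpa using hx.trans h4) l (by
      rw [abs_neg, abs_of_nonneg (by positivity)] at hk
      exact_mod_cast hk)
    · have e1 : -(-n₀ + (l : ℤ)) = n₀ + -(l : ℤ) := by ring
      rw [e1] at h5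
      exact h5
    · have h6 := hj (-n - 1) (by linarith) (by linarith)
      have e1 : -n - 1 + 1 = -n := by ring
      rw [e1] at h6
      have h7 := h3 _ _ h6
      rw [f.symm_apply_apply] at h7
      have e2 : -(n + 1) = -n - 1 := by ring
      rw [e2, dist_comm]
      exact h7

end Track

variable {E : Type*} [NormedAddCommGroup E] [NormedSpace ℝ E]
  {M : Type*} [MetricSpace M] [ChartedSpace E M] {r : ℕ∞}

/-- The orbits of the points of `Λ` have uniform exponential dichotomies, in the charts of the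
family. -/
def DHyp (s : Finset M) (K : M → Set M) (g : Dyn E M r) (Λ : Set M) (κ : ℝ) : Prop :=
  0 ≤ κ ∧ ∀ x ∈ Λ, ∀ i : ℤ → M, (∀ n, i n ∈ s ∧ zi g.toEquiv n x ∈ K (i n)) →
    Dich (fun n => fderiv ℝ (chG g (i n) (i (n + 1))) (chartAt E (i n) (zi g.toEquiv n x))) κ

theorem DHyp.mono {s : Finset M} {K : M → Set M} {g : Dyn E M r} {Λ Λ' : Set M} {κ : ℝ}
    (h : DHyp s K g Λ κ) (hΛ : Λ' ⊆ Λ) : DHyp s K g Λ' κ := ⟨h.1, fun x hx => h.2 x (hΛ hx)⟩

theorem DHyp.union {s : Finset M} {K : M → Set M} {g : Dyn E M r} {Λ Λ' : Set M} {κ κ' : ℝ}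
    (h : DHyp s K g Λ κ) (h' : DHyp s K g Λ' κ') : DHyp s K g (Λ ∪ Λ') (max κ κ') := by
  refine ⟨h.1.trans (le_max_left _ _), fun x hx i hi => ?_⟩
  rcases hx with hx | hx
  · exact (h.2 x hx i hi).mono (le_max_left _ _)
  · exact (h'.2 x hx i hi).mono (le_max_right _ _)

/-- Invariant sets. -/
def Inv (g : Dyn E M r) (Λ : Set M) : Prop := ∀ x ∈ Λ, ∀ k : ℤ, zi g.toEquiv k x ∈ Λ

theorem zi_one_apply (g : Dyn E M r) (x : M) : zi g.toEquiv 1 x = g x := by
  have := zi_nat g.toEquiv 1 x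
  simpa using this

theorem zi_succ_apply (g : Dyn E M r) (n : ℤ) (x : M) :
    zi g.toEquiv (n + 1) x = g (zi g.toEquiv n x) := by
  rw [add_comm, zi_add, zi_one_apply]

variable [IsManifold 𝓘(ℝ, E) ∞ M] [CompactSpace M]

/-- Pseudo-orbits near a hyperbolic set have dichotomies. -/
theorem Cov.dich_near [CompleteSpace E] {s : Finset M} {K : M → Set M} {ρ₀ : ℝ}
    (hc : Cov E s K ρ₀) {g : Dyn E M r} (hr : 1 ≤ r) {Λ : Set M} {κ : ℝ} (hΛ : Inv g Λ)
    (hD : DHyp s K g Λ κ) : ∀ᶠ δ in 𝓝[>] (0 : ℝ), ∀ p i : ℤ → M,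
      (∀ n, i n ∈ s ∧ closedBall (p n) ρ₀ ⊆ K (i n)) →
      (∀ n, dist (g (p n)) (p (n + 1)) ≤ δ) → (∀ n, ∃ x ∈ Λ, dist (p n) x ≤ δ) →
      Dich (fun n => fderiv ℝ (chG g (i n) (i (n + 1))) (chartAt E (i n) (p n))) (2 * κ) := by
  classical
  have hκ := hD.1
  obtain ⟨G, hG⟩ := exists_nat_gt (8 * (κ + 1))
  have hG0 : 0 < G := by
    have : (0 : ℝ) < G := lt_trans (by positivity) hG
    exact_mod_cast this
  have hGr : (0 : ℝ) < G := by exact_mod_cast hG0
  set ε : ℝ := 1 / (8 * (κ + 1)) with hε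
  have hε0 : 0 < ε := by positivity
  have hGε : 4 * κ * (1 / G + ε) ≤ 1 := by
    have h1 : (1 : ℝ) / G ≤ 1 / (8 * (κ + 1)) := one_div_le_one_div_of_le (by positivity) hG.le
    calc 4 * κ * (1 / G + ε) ≤ 4 * κ * (1 / (8 * (κ + 1)) + 1 / (8 * (κ + 1))) := by gcongr
      _ = κ / (κ + 1) := by field_simp; ring
      _ ≤ 1 := (div_le_one (by positivity)).2 (by linarith)
  obtain ⟨δ₀, hδ₀, h0⟩ := exists_pos_of_eventually (hc.fderiv_close (g := g) hr hε0)
  have hρ₀ := hc.pos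
  filter_upwards [exists_track g.toHomeomorph G (lt_min hδ₀ hρ₀), eventually_le_pos hρ₀]
    with δ h1 h2 p i hi hj hnear
  choose x hx hxp using fun j : ℤ => hnear (j * G)
  choose idx hidx1 hidx2 using hc.leb
  have hidx3 : ∀ y : M, y ∈ K (idx y) := fun y => hidx2 y (mem_closedBall_self hρ₀.le)
  -- comparison orbits
  have hy : ∀ j k : ℤ, |k| ≤ G →
      dist (p (j * G + k)) (zi g.toEquiv k (x j)) ≤ min δ₀ ρ₀ := fun j =>
    h1 p (j * G) (x j) (fun n _ _ => hj n) (hxp j)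
  set x' : ℤ → M := fun j => zi g.toEquiv (-(j * G)) (x j) with hx'
  have hx'n : ∀ j n : ℤ, zi g.toEquiv n (x' j) = zi g.toEquiv (n - j * G) (x j) := by
    intro j n
    rw [hx', ← zi_add, sub_eq_add_neg]
  have hclose : ∀ j n : ℤ, |n - j * G| ≤ G → dist (p n) (zi g.toEquiv n (x' j)) ≤ min δ₀ ρ₀ := by
    intro j n hn
    have h3 := hy j (n - j * G) hn
    rw [hx'n]
    have e1 : j * (G : ℤ) + (n - j * G) = n := by ring
    rw [e1] at h3
    exact h3
  set J : ℤ → ℤ → M := fun j n => if |n - j * G| ≤ G then i n else idx (zi g.toEquiv n (x' j))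
    with hJ
  have hJin : ∀ j n : ℤ, |n - j * G| ≤ G → J j n = i n := fun j n hn => by simp [hJ, hn]
  have hJadm : ∀ j n, J j n ∈ s ∧ zi g.toEquiv n (x' j) ∈ K (J j n) := by
    intro j n
    by_cases hn : |n - j * G| ≤ G
    · rw [hJin j n hn]
      refine ⟨(hi n).1, (hi n).2 ?_⟩
      rw [mem_closedBall, dist_comm]
      exact (hclose j n hn).trans (min_le_right _ _)
    · have : J j n = idx (zi g.toEquiv n (x' j)) := by simp [hJ, hn]
      rw [this]
      exact ⟨hidx1 _, hidx3 _⟩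
  refine Dich.glue hG0 (𝒜 := fun j n => fderiv ℝ (chG g (J j n) (J j (n + 1)))
    (chartAt E (J j n) (zi g.toEquiv n (x' j)))) (fun j => hD.2 _ (hΛ _ (hx j) _) _ (hJadm j)) hκ
    hGε (fun j n => ?_)
  by_cases hn : (G : ℤ) ≤ |n - j * G|
  · rw [tent_eq_zero hG0 hn, zero_mul]
    exact hε0.le
  · rw [not_le] at hn
    have hn0 : |n - j * G| ≤ G := hn.le
    have hn1 : |n + 1 - j * G| ≤ G := by
      rw [abs_lt] at hn
      rw [abs_le]
      constructor <;> linarith [hn.1, hn.2]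
    rw [hJin j n hn0, hJin j (n + 1) hn1]
    have a1 : p n ∈ K (i n) := (hi n).2 (mem_closedBall_self hρ₀.le)
    have a2 : g (p n) ∈ K (i (n + 1)) := (hi (n + 1)).2 (mem_closedBall.2 ((hj n).trans h2))
    have a3 : zi g.toEquiv n (x' j) ∈ K (i n) := by
      have := (hJadm j n).2
      rwa [hJin j n hn0] at this
    have a4 : g (zi g.toEquiv n (x' j)) ∈ K (i (n + 1)) := by
      have h3 := (hJadm j (n + 1)).2
      rwa [hJin j (n + 1) hn1, zi_succ_apply] at h3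
    have h4 := h0 (i n) (hi n).1 (i (n + 1)) (hi (n + 1)).1 (p n) a1 a2 _ a3 a4
      ((hclose j n hn0).trans (min_le_left _ _))
    calc tent G (n - j * G) * _ ≤ 1 * ε :=
          mul_le_mul (tent_le_one _ _) h4 (norm_nonneg _) zero_le_one
      _ = ε := one_mul _

/-- **Expansivity.** -/
theorem Cov.expansive [CompleteSpace E] {s : Finset M} {K : M → Set M} {ρ₀ : ℝ}
    (hc : Cov E s K ρ₀) {g : Dyn E M r} (hr : 1 ≤ r) {Λ : Set M} {κ : ℝ} (hΛ : Inv g Λ)
    (hD : DHyp s K g Λ κ) : ∀ᶠ δ in 𝓝[>] (0 : ℝ), ∀ x y : M,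
      (∀ n : ℤ, ∃ z ∈ Λ, dist (zi g.toEquiv n x) z ≤ δ) →
      (∀ n : ℤ, dist (zi g.toEquiv n x) (zi g.toEquiv n y) ≤ δ) → x = y := by
  have hκ := hD.1
  have hη : 0 < 1 / (4 * (κ + 1)) := by positivity
  have hκη : 2 * κ * (1 / (4 * (κ + 1))) ≤ 1 / 2 := by
    rw [mul_one_div, div_le_div_iff₀ (by positivity) (by norm_num)]
    nlinarith
  obtain ⟨ρ, hρ, h0⟩ := exists_pos_of_eventually (hc.approx (g := g) hr hη)
  choose idx hidx1 hidx2 using hc.leb
  filter_upwards [hc.dich_near hr hΛ hD, hc.chart_close hρ, self_mem_nhdsWithin]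
    with δ h1 h2 hδ0 x y hx hxy
  have hδ0 : 0 < δ := hδ0
  set p : ℤ → M := fun n => zi g.toEquiv n x with hp
  have hpK : ∀ n, p n ∈ K (idx (p n)) := fun n => hidx2 _ (mem_closedBall_self hc.pos.le)
  have hgp : ∀ n, g (p n) = p (n + 1) := fun n => (zi_succ_apply g n x).symm
  have hdich := h1 p (fun n => idx (p n)) (fun n => ⟨hidx1 _, hidx2 _⟩)
    (fun n => by rw [hgp, dist_self]; exact hδ0.le) hx
  have hcl : ∀ n, zi g.toEquiv n y ∈ (chartAt E (idx (p n))).source ∧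
      ‖chartAt E (idx (p n)) (zi g.toEquiv n y) - chartAt E (idx (p n)) (p n)‖ ≤ ρ := fun n =>
    h2 _ (hidx1 _) _ (hpK n) _ (by rw [dist_comm]; exact hxy n)
  have hsrc : ∀ n, p n ∈ (chartAt E (idx (p n))).source := fun n => hc.src _ (hidx1 _) (hpK n)
  have h3 := hdich.newton_unique (by positivity) (F := fun n => chG g (idx (p n)) (idx (p (n + 1))))
    (y := fun n => chartAt E (idx (p n)) (p n)) (ρ := ρ) hη.le hκη
    (fun n u hu u' hu' => (h0 _ (hidx1 _) _ (hidx1 _) (p n) (hpK n) (by rw [hgp]; exact hpK _)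
      u hu).2.2 u' hu')
    (z := fun n => chartAt E (idx (p n)) (p n))
    (z' := fun n => chartAt E (idx (p n)) (zi g.toEquiv n y))
    (fun n => by rw [sub_self, norm_zero]; exact hρ.le) (fun n => (hcl n).2)
    (fun n => by
      unfold chG
      rw [(chartAt E (idx (p n))).left_inv (hsrc n), hgp])
    (fun n => by
      unfold chG
      rw [(chartAt E (idx (p n))).left_inv (hcl n).1, zi_succ_apply])
  have h4 := congrFun h3 0
  have h5 := (chartAt E (idx (p 0))).injOn (hsrc 0) (hcl 0).1 h4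
  simpa [hp, zi_zero] using h5

/-- **One-sided shadowing.** -/
theorem Cov.shadow_left [CompleteSpace E] {s : Finset M} {K : M → Set M} {ρ₀ : ℝ}
    (hc : Cov E s K ρ₀) {g : Dyn E M r} (hr : 1 ≤ r) {Λ : Set M} {κ : ℝ} (hΛ : Inv g Λ)
    (hD : DHyp s K g Λ κ) {ε : ℝ} (hε : 0 < ε) : ∃ δ > 0, ∀ η > 0, ∃ m : ℕ, ∀ p : ℤ → M,
      (∀ n < 0, dist (g (p n)) (p (n + 1)) ≤ δ) → (∀ n ≤ 0, ∃ x ∈ Λ, dist (p n) x ≤ δ) →
      ∃ x₀ : M, (∀ n ≤ 0, dist (zi g.toEquiv n x₀) (p n) ≤ ε) ∧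
        ((∀ n : ℤ, -(m : ℤ) ≤ n → n < 0 → g (p n) = p (n + 1)) → dist x₀ (p 0) ≤ η) := by
  classical
  have hκ := hD.1
  have hη₁ : 0 < 1 / (16 * (κ + 1)) := by positivity
  have hκη : 2 * κ * (1 / (16 * (κ + 1))) ≤ 1 / 2 := by
    rw [mul_one_div, div_le_div_iff₀ (by positivity) (by norm_num)]
    nlinarith
  have hκη' : 8 * (2 * κ) * (1 / (16 * (κ + 1))) ≤ 1 := by
    rw [mul_one_div, div_le_one (by positivity)]
    nlinarith
  obtain ⟨ρ, hρ, h0⟩ := exists_pos_of_eventually (hc.approx (g := g) hr hη₁)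
  obtain ⟨ρ', hρ', h0'⟩ := exists_pos_of_eventually (hc.symm_close hε)
  choose idx hidx1 hidx2 using hc.leb
  obtain ⟨b, hb, hbound⟩ := hc.exists_bound (g := g) hr
  obtain ⟨τ, hτ0, hτ1, hw⟩ := exists_weight (E := E) (K := 2 * κ) (b := b) (by positivity)
    (by linarith)
  set e : ℝ := min ρ ρ' / (4 * κ + 1) with he
  have he0 : 0 < e := by positivity
  have he1 : 2 * (2 * κ) * e ≤ min ρ ρ' := by
    rw [he, mul_div_assoc', div_le_iff₀ (by positivity)]
    have : 0 < min ρ ρ' := by positivity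
    nlinarith
  obtain ⟨δ₁, hδ₁, h1, h2, h3⟩ := exists_pos_of_eventually
    ((hc.dich_near hr hΛ hD).and ((hc.chart_close he0).and (eventually_le_pos hc.pos)))
  obtain ⟨δ, hδ, h4, h5⟩ := exists_pos_of_eventually
    ((exists_uc g g.continuous hδ₁).and (eventually_le_pos hδ₁))
  refine ⟨δ, hδ, fun η hη => ?_⟩
  obtain ⟨ρ'', hρ'', h0''⟩ := exists_pos_of_eventually (hc.symm_close hη)
  obtain ⟨m, hm⟩ : ∃ m : ℕ, 8 * (2 * κ) * (τ ^ m * e) ≤ ρ'' := by
    have h6 : Tendsto (fun m : ℕ => 8 * (2 * κ) * (τ ^ m * e)) atTop (𝓝 0) := by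
      have := ((tendsto_pow_atTop_nhds_zero_of_lt_one hτ0.le hτ1).mul_const e).const_mul
        (8 * (2 * κ))
      simpa using this
    exact (h6.eventually (Iic_mem_nhds hρ'')).exists
  refine ⟨m, fun p hj hnear => ?_⟩
  obtain ⟨x₁, hx₁, hx₁p⟩ := hnear 0 le_rfl
  set p' : ℤ → M := fun n => if n ≤ 0 then p n else zi g.toEquiv n x₁ with hp'
  have hp'n : ∀ n, n ≤ 0 → p' n = p n := fun n hn => by simp [hp', hn]
  have hp'p : ∀ n, 0 < n → p' n = zi g.toEquiv n x₁ := fun n hn => by simp [hp', not_le.2 hn]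
  have hj' : ∀ n, dist (g (p' n)) (p' (n + 1)) ≤ δ₁ := by
    intro n
    rcases lt_trichotomy n 0 with hn | hn | hn
    · rw [hp'n n hn.le, hp'n (n + 1) (by omega)]
      exact (hj n hn).trans h5
    · subst hn
      rw [hp'n 0 le_rfl, hp'p (0 + 1) (by norm_num), zero_add, zi_one_apply]
      exact h4 _ _ hx₁p
    · rw [hp'p n hn, hp'p (n + 1) (by omega), zi_succ_apply, dist_self]
      exact hδ₁.le
  have hnear' : ∀ n, ∃ x ∈ Λ, dist (p' n) x ≤ δ₁ := by
    intro n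
    rcases le_or_gt n 0 with hn | hn
    · rw [hp'n n hn]
      obtain ⟨x, hx, hxn⟩ := hnear n hn
      exact ⟨x, hx, hxn.trans h5⟩
    · rw [hp'p n hn]
      exact ⟨_, hΛ x₁ hx₁ n, by rw [dist_self]; exact hδ₁.le⟩
  set i : ℤ → M := fun n => idx (p' n) with hi
  have his : ∀ n, i n ∈ s := fun n => hidx1 _
  have hiK : ∀ n, closedBall (p' n) ρ₀ ⊆ K (i n) := fun n => hidx2 _
  have hpK : ∀ n, p' n ∈ K (i n) := fun n => hiK n (mem_closedBall_self hc.pos.le)
  have hgpK : ∀ n, g (p' n) ∈ K (i (n + 1)) := fun n =>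
    hiK (n + 1) (mem_closedBall.2 ((hj' n).trans h3))
  have hdich := h1 p' i (fun n => ⟨his n, hiK n⟩) hj' hnear'
  set y : ℤ → E := fun n => chartAt E (i n) (p' n) with hy
  set B : ℤ → E →L[ℝ] E := fun n => fderiv ℝ (chG g (i n) (i (n + 1))) (y n) with hB
  set F : ℤ → E → E := fun n u => if n < 0 then chG g (i n) (i (n + 1)) u
    else y (n + 1) + B n (u - y n) with hF
  have hFn : ∀ n, n < 0 → F n = chG g (i n) (i (n + 1)) := fun n hn => by
    funext u
    simp [hF, hn]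
  have hFp : ∀ n, 0 ≤ n → ∀ u, F n u = y (n + 1) + B n (u - y n) := fun n hn u => by
    simp [hF, not_lt.2 hn]
  have happ : ∀ n, ∀ u ∈ closedBall (y n) ρ, u ∈ (chartAt E (i n)).target ∧
        g ((chartAt E (i n)).symm u) ∈ (chartAt E (i (n + 1))).source ∧
        ∀ u' ∈ closedBall (y n) ρ, ‖chG g (i n) (i (n + 1)) u - chG g (i n) (i (n + 1)) u' -
          B n (u - u')‖ ≤ 1 / (16 * (κ + 1)) * ‖u - u'‖ := fun n =>
    h0 _ (his n) _ (his _) (p' n) (hpK n) (hgpK n)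
  have hLip : ∀ n, ∀ u ∈ closedBall (y n) ρ, ∀ u' ∈ closedBall (y n) ρ,
      ‖F n u - F n u' - B n (u - u')‖ ≤ 1 / (16 * (κ + 1)) * ‖u - u'‖ := by
    intro n u hu u' hu'
    rcases lt_or_ge n 0 with hn | hn
    · rw [hFn n hn]
      exact (happ n u hu).2.2 u' hu'
    · rw [hFp n hn, hFp n hn]
      have : y (n + 1) + B n (u - y n) - (y (n + 1) + B n (u' - y n)) - B n (u - u') = 0 := by
        simp only [map_sub]
        abel
      rw [this, norm_zero]
      positivity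
  have hsrc : ∀ n, p' n ∈ (chartAt E (i n)).source := fun n => hc.src _ (his n) (hpK n)
  have herr0 : ∀ n, F n (y n) - y (n + 1) = if n < 0 then
      chartAt E (i (n + 1)) (g (p' n)) - chartAt E (i (n + 1)) (p' (n + 1)) else 0 := by
    intro n
    split_ifs with hn
    · rw [hFn n hn]
      simp only [chG, hy]
      rw [(chartAt E (i n)).left_inv (hsrc n)]
    · rw [hFp n (not_lt.1 hn), sub_self, map_zero, add_zero, sub_self]
  have herr : ∀ n, ‖F n (y n) - y (n + 1)‖ ≤ e := by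
    intro n
    rw [herr0]
    split_ifs with hn
    · exact (h2 _ (his (n + 1)) _ (hpK (n + 1)) _ (hj' n)).2
    · rw [norm_zero]
      exact he0.le
  obtain ⟨z, hz1, hz2⟩ := hdich.newton (by positivity) (F := F) (y := y) (ρ := ρ)
    (e := e) hη₁.le hκη hLip herr (he1.trans (min_le_left _ _))
  have hz1' : ∀ n, ‖z n - y n‖ ≤ min ρ ρ' := fun n => (hz1 n).trans he1
  have hzρ : ∀ n, z n ∈ closedBall (y n) ρ := fun n => by
    rw [mem_closedBall, dist_eq_norm]
    exact (hz1' n).trans (min_le_left _ _)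
  have hzρ' : ∀ n, z n ∈ closedBall (y n) ρ' := fun n => by
    rw [mem_closedBall, dist_eq_norm]
    exact (hz1' n).trans (min_le_right _ _)
  have hstep : ∀ n, n < 0 → g ((chartAt E (i n)).symm (z n)) =
      (chartAt E (i (n + 1))).symm (z (n + 1)) := by
    intro n hn
    rw [hz2 n, hFn n hn]
    change _ = (chartAt E (i (n + 1))).symm
      (chartAt E (i (n + 1)) (g ((chartAt E (i n)).symm (z n))))
    rw [(chartAt E (i (n + 1))).left_inv (happ n _ (hzρ n)).2.1]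
  have hback : ∀ k : ℕ, zi g.toEquiv (-(k : ℤ)) ((chartAt E (i 0)).symm (z 0)) =
      (chartAt E (i (-(k : ℤ)))).symm (z (-(k : ℤ))) := by
    intro k
    induction k with
    | zero => simp [zi_zero]
    | succ k ih =>
      have h6 := hstep (-((k + 1 : ℕ) : ℤ)) (by push_cast; linarith [(Nat.cast_nonneg k : (0 : ℤ) ≤ k)])
      have e1 : -((k + 1 : ℕ) : ℤ) + 1 = -(k : ℤ) := by push_cast; ring
      rw [e1, ← ih, ← e1, zi_succ_apply] at h6
      exact (g.injective h6).symm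
  refine ⟨(chartAt E (i 0)).symm (z 0), fun n hn => ?_, fun hex => ?_⟩
  · obtain ⟨k, hk⟩ : ∃ k : ℕ, n = -(k : ℤ) := ⟨n.natAbs, by omega⟩
    rw [hk, hback k, ← hk, ← hp'n n hn]
    exact (h0' _ (his n) _ (hpK n) _ (hzρ' n)).2
  · have h6 : ‖z 0 - y 0‖ ≤ 8 * (2 * κ) * (τ ^ m * e) := by
      refine hw B hdich (fun n => hbound _ (his n) _ (his (n + 1)) _ (hpK n) (hgpK n))
        (fun n => z n - y n) _ (1 / (16 * (κ + 1))) (fun n => ‖F n (y n) - y (n + 1)‖) _
        hz1' hη₁.le hκη' (fun n => ?_) (fun n => ?_)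
      · have e1 : z (n + 1) - y (n + 1) - B n (z n - y n) =
            (F n (z n) - F n (y n) - B n (z n - y n)) + (F n (y n) - y (n + 1)) := by
          rw [hz2 n]
          abel
        rw [e1]
        exact (norm_add_le _ _).trans (add_le_add
          (hLip n _ (hzρ n) _ (mem_closedBall_self hρ.le)) le_rfl)
      · by_cases hn : n < 0 ∧ n < -(m : ℤ)
        · have h7 : m ≤ n.natAbs := by omega
          have h8 : τ ^ n.natAbs ≤ τ ^ m := pow_le_pow_of_le_one hτ0.le hτ1.le h7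
          exact mul_le_mul h8 (herr n) (norm_nonneg _) (by positivity)
        · have h7 : F n (y n) - y (n + 1) = 0 := by
            rw [herr0]
            split_ifs with hn0
            · have h8 := hex n (by by_contra h; exact hn ⟨hn0, not_le.1 h⟩) hn0
              rw [hp'n n hn0.le, hp'n (n + 1) (by omega), h8, sub_self]
            · rfl
          rw [h7, norm_zero, mul_zero]
          positivity
    have h7 := (h0'' _ (his 0) _ (hpK 0) (z 0) (by
      rw [mem_closedBall, dist_eq_norm]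
      exact h6.trans hm)).2
    rw [hp'n 0 le_rfl] at h7
    exact h7

/-- **Shadowing** of pseudo-orbits in a hyperbolic set. -/
theorem Cov.shadow [CompleteSpace E] {s : Finset M} {K : M → Set M} {ρ₀ : ℝ}
    (hc : Cov E s K ρ₀) {g : Dyn E M r} (hr : 1 ≤ r) {Λ : Set M} {κ : ℝ} (hΛ : Inv g Λ)
    (hD : DHyp s K g Λ κ) {ε : ℝ} (hε : 0 < ε) : ∃ δ > 0, ∀ p : ℤ → M,
      (∀ n, p n ∈ Λ) → (∀ n, dist (g (p n)) (p (n + 1)) ≤ δ) →
      ∃ x : M, ∀ n, dist (zi g.toEquiv n x) (p n) ≤ ε := by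
  obtain ⟨δ, hδ, h1⟩ := hc.shadow_left hr hΛ hD hε
  refine ⟨δ, hδ, fun p hp hj => ?_⟩
  obtain ⟨m, h2⟩ := h1 1 one_pos
  choose x hx _ using fun k : ℕ => h2 (fun n => p (n + k))
    (fun n _ => by
      have := hj (n + k)
      have e1 : n + (k : ℤ) + 1 = n + 1 + k := by ring
      rw [e1] at this
      exact this) (fun n _ => ⟨p (n + k), hp _, by rw [dist_self]; exact hδ.le⟩)
  set w : ℕ → M := fun k => zi g.toEquiv (-(k : ℤ)) (x k) with hw
  have hwk : ∀ (k : ℕ) (n : ℤ), n ≤ k → dist (zi g.toEquiv n (w k)) (p n) ≤ ε := by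
    intro k n hn
    have h3 := hx k (n - k) (by linarith)
    rw [hw]
    simp only
    rw [← zi_add]
    have e1 : n - (k : ℤ) + k = n := by ring
    rw [e1] at h3
    exact h3
  obtain ⟨x₀, -, hx₀⟩ := isCompact_univ.ultrafilter_le_nhds
    ((hyperfilter ℕ : Ultrafilter ℕ).map w) (by simp)
  have hx₀ : Tendsto w (hyperfilter ℕ) (𝓝 x₀) := hx₀
  refine ⟨x₀, fun n => ?_⟩
  have h4 : Tendsto (fun k => dist (zi g.toEquiv n (w k)) (p n)) (hyperfilter ℕ)
      (𝓝 (dist (zi g.toEquiv n x₀) (p n))) :=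
    (((continuous_zi g.toHomeomorph n).tendsto x₀).comp hx₀).dist tendsto_const_nhds
  refine le_of_tendsto h4 ?_
  have h5 : ∀ᶠ k : ℕ in (hyperfilter ℕ : Filter ℕ), n.natAbs ≤ k :=
    Nat.hyperfilter_le_atTop (eventually_ge_atTop _)
  filter_upwards [h5] with k hk
  exact hwk k n (by omega)

end OmSt
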