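import Pool.Agent.OmSt2.Shad

/-!
# Invariant splittings give dichotomies; change of charts
-/

open Set Filter Topology Manifold ContDiff Metric

set_option linter.unusedSectionVars false

namespace OmSt

section Alg

variable {E : Type*} [NormedAddCommGroup E] [NormedSpace ℝ E]

/-- Products of consecutive inverse coefficients. -/
noncomputable def prdB (A : ℤ → E →L[ℝ] E) (n : ℤ) : ℕ → E →L[ℝ] E
  | 0 => 1
  | j + 1 => prdB A n j * A (n + j)

theorem prd_zero (A : ℤ → E →L[ℝ] E) (n : ℤ) : prd A n 0 = 1 := rfl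

theorem prd_succ (A : ℤ → E →L[ℝ] E) (n : ℤ) (j : ℕ) :
    prd A n (j + 1) = A (n + j) * prd A n j := rfl

theorem prdB_zero (A : ℤ → E →L[ℝ] E) (n : ℤ) : prdB A n 0 = 1 := rfl

theorem prdB_succ (A : ℤ → E →L[ℝ] E) (n : ℤ) (j : ℕ) :
    prdB A n (j + 1) = prdB A n j * A (n + j) := rfl

theorem prd_succ' (A : ℤ → E →L[ℝ] E) (n : ℤ) (j : ℕ) :
    prd A n (j + 1) = prd A (n + 1) j * A n := by
  induction j with
  | zero => simp [prd]
  | succ j ih =>
    rw [prd_succ, ih, prd_succ A (n + 1) j, mul_assoc]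
    congr 2
    push_cast
    ring

theorem prdB_succ' (A : ℤ → E →L[ℝ] E) (n : ℤ) (j : ℕ) :
    prdB A n (j + 1) = A n * prdB A (n + 1) j := by
  induction j with
  | zero => simp [prdB]
  | succ j ih =>
    rw [prdB_succ, ih, prdB_succ A (n + 1) j, mul_assoc]
    congr 3
    push_cast
    ring

/-- Invariant splittings with exponential bounds give dichotomies. -/
theorem dich_of_split [CompleteSpace E] {T T' P G G' : ℤ → E →L[ℝ] E} {c μ : ℝ} (hc : 0 ≤ c)
    (hμ0 : 0 ≤ μ) (hμ1 : μ < 1) (hT1 : ∀ n, T n * T' n = 1) (hT2 : ∀ n, T' n * T n = 1)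
    (hP : ∀ n, P (n + 1) * T n = T n * P n)
    (hG1 : ∀ n, G n * G' n = 1) (hG2 : ∀ n, G' n * G n = 1)
    (hS : ∀ (n : ℤ) (k : ℕ), ‖G (n + k) * prd T n k * P n * G' n‖ ≤ c * μ ^ k)
    (hU : ∀ (n : ℤ) (k : ℕ), ‖G n * prdB T' n k * (1 - P (n + k)) * G' (n + k)‖ ≤ c * μ ^ k) :
    Dich (fun n => G (n + 1) * T n * G' n) (2 * c * ∑' k : ℕ, μ ^ k) := by
  refine dich_of_green (S := fun n k => G n * prd T (n - k) k * P (n - k) * G' (n - k))
    (U := fun n k => G n * prdB T' n k * (1 - P (n + k)) * G' (n + k)) hc hμ0 hμ1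
    (fun n k => ?_) hU (fun n => ?_) (fun n k => ?_) (fun n k => ?_) (fun n k => ?_)
    (fun n k => ?_)
  · have := hS (n - k) k
    rwa [sub_add_cancel] at this
  · simp only [Nat.cast_zero, sub_zero, add_zero, prd_zero, prdB_zero, mul_one]
    rw [← add_mul, ← mul_add, add_sub_cancel, mul_one, hG1]
  · have e1 : n + 1 - ((k + 1 : ℕ) : ℤ) = n - k := by push_cast; ring
    rw [e1, prd_succ, sub_add_cancel]
    calc G (n + 1) * T n * G' n * (G n * prd T (n - k) k * P (n - k) * G' (n - k))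
        = G (n + 1) * T n * (G' n * G n) * prd T (n - k) k * P (n - k) * G' (n - k) := by
          simp only [mul_assoc]
      _ = G (n + 1) * (T n * prd T (n - k) k) * P (n - k) * G' (n - k) := by
          rw [hG2, mul_one]
          simp only [mul_assoc]
  · have e1 : n + ((k + 1 : ℕ) : ℤ) = n + 1 + k := by push_cast; ring
    rw [e1, prdB_succ']
    calc G (n + 1) * T n * G' n * (G n * (T' n * prdB T' (n + 1) k) * (1 - P (n + 1 + k)) *
          G' (n + 1 + k))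
        = G (n + 1) * (T n * (G' n * G n) * T' n) * prdB T' (n + 1) k * (1 - P (n + 1 + k)) *
          G' (n + 1 + k) := by
          simp only [mul_assoc]
      _ = _ := by
          rw [hG2, mul_one, hT1, mul_one]
  · have e1 : n - ((k + 1 : ℕ) : ℤ) = n - 1 - k := by push_cast; ring
    have e2 : n - 1 - (k : ℤ) + 1 = n - k := by ring
    rw [e1, prd_succ', e2]
    calc G n * (prd T (n - k) k * T (n - 1 - k)) * P (n - 1 - k) * G' (n - 1 - k)
        = G n * prd T (n - k) k * (T (n - 1 - k) * P (n - 1 - k)) * G' (n - 1 - k) := by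
          simp only [mul_assoc]
      _ = G n * prd T (n - k) k * (P (n - k) * T (n - 1 - k)) * G' (n - 1 - k) := by
          rw [← hP (n - 1 - k), e2]
      _ = G n * prd T (n - k) k * P (n - k) * (G' (n - k) * G (n - k)) * T (n - 1 - k) *
          G' (n - 1 - k) := by
          rw [hG2, mul_one]
          simp only [mul_assoc]
      _ = _ := by simp only [mul_assoc]
  · have e1 : n + ((k + 1 : ℕ) : ℤ) = n + k + 1 := by push_cast; ring
    rw [e1, prdB_succ]
    have hPT : (1 - P (n + k + 1)) * T (n + k) = T (n + k) * (1 - P (n + k)) := by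
      rw [sub_mul, mul_sub, one_mul, mul_one, hP]
    calc G n * (prdB T' n k * T' (n + k)) * (1 - P (n + k + 1)) * G' (n + k + 1) *
          (G (n + k + 1) * T (n + k) * G' (n + k))
        = G n * prdB T' n k * T' (n + k) * ((1 - P (n + k + 1)) *
          (G' (n + k + 1) * G (n + k + 1)) * T (n + k)) * G' (n + k) := by
          simp only [mul_assoc]
      _ = G n * prdB T' n k * (T' (n + k) * T (n + k)) * (1 - P (n + k)) * G' (n + k) := by
          rw [hG2, mul_one, hPT]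
          simp only [mul_assoc]
      _ = _ := by rw [hT2, mul_one]

end Alg

variable {E : Type*} [NormedAddCommGroup E] [NormedSpace ℝ E]

/-- The derivative of the chart at `b`. -/
noncomputable def Dc {M : Type*} [TopologicalSpace M] [ChartedSpace E M] (b x : M) : E →L[ℝ] E :=
  mfderiv 𝓘(ℝ, E) 𝓘(ℝ, E) (chartAt E b) x

/-- The derivative of the inverse of the chart at `b`. -/
noncomputable def Dc' {M : Type*} [TopologicalSpace M] [ChartedSpace E M] (b x : M) : E →L[ℝ] E :=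
  mfderiv 𝓘(ℝ, E) 𝓘(ℝ, E) (chartAt E b).symm (chartAt E b x)

section

variable {M : Type*} [TopologicalSpace M] [ChartedSpace E M] {r : ℕ∞} [IsManifold 𝓘(ℝ, E) ∞ M]

theorem Dc_mul {b x : M} (hx : x ∈ (chartAt E b).source) :
    (Dc b x : E →L[ℝ] E) * Dc' b x = 1 ∧ (Dc' b x : E →L[ℝ] E) * Dc b x = 1 := by
  obtain ⟨L, L', h1, h2, h3, h4⟩ := exists_chart_deriv
    (IsManifold.chart_mem_maximalAtlas (I := 𝓘(ℝ, E)) (n := ∞) b) hx
  have e1 : Dc b x = L := h3.mfderiv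
  have e2 : Dc' b x = L' := h4.mfderiv
  rw [e1, e2]
  exact ⟨h1, h2⟩

/-- The derivative of a map in charts. -/
theorem fderiv_chG {G : M → M} {b b' x : M} (hG : MDifferentiableAt 𝓘(ℝ, E) 𝓘(ℝ, E) G x)
    (hx : x ∈ (chartAt E b).source) (hGx : G x ∈ (chartAt E b').source) :
    fderiv ℝ (chG G b b') (chartAt E b x) = (Dc b' (G x) : E →L[ℝ] E) * D G x * Dc' b x := by
  obtain ⟨L, L', -, -, h3, h4⟩ := exists_chart_deriv
    (IsManifold.chart_mem_maximalAtlas (I := 𝓘(ℝ, E)) (n := ∞) b) hx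
  obtain ⟨L₁, L₁', -, -, h5, h6⟩ := exists_chart_deriv
    (IsManifold.chart_mem_maximalAtlas (I := 𝓘(ℝ, E)) (n := ∞) b') hGx
  have e1 : Dc' b x = L' := h4.mfderiv
  have e2 : Dc b' (G x) = L₁ := h5.mfderiv
  have hsymm : (chartAt E b).symm (chartAt E b x) = x := (chartAt E b).left_inv hx
  have h7 : HasMFDerivAt 𝓘(ℝ, E) 𝓘(ℝ, E) G x (D G x : E →L[ℝ] E) := hG.hasMFDerivAt
  have h8 := hasMFDerivAt_comp₁ (f := (chartAt E b).symm) hsymm h7 h4
  have h9 := hasMFDerivAt_comp₂ (f := G ∘ (chartAt E b).symm) (e := chartAt E b')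
    (z := chartAt E b x) (x := G x) (by simp [hsymm]) h5 h8
  rw [e1, e2]
  have h10 := h9.fderiv
  rw [← mul_assoc] at h10
  exact h10

end

variable {M : Type*} [MetricSpace M] [ChartedSpace E M] {r : ℕ∞} [IsManifold 𝓘(ℝ, E) ∞ M]

/-- Bounds for the derivatives of the coordinate changes. -/
theorem exists_bound_change {s s' : Finset M} {K K' : M → Set M} {ρ₀ ρ₀' : ℝ}
    (hc : Cov E s K ρ₀) (hc' : Cov E s' K' ρ₀') : ∃ C : ℝ, 1 ≤ C ∧ ∀ b ∈ s, ∀ b' ∈ s',
      ∀ x ∈ K b, x ∈ K' b' → ‖(Dc b' x : E →L[ℝ] E) * Dc' b x‖ ≤ C := by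
  have h1 : ∀ᶠ ρ in 𝓝[>] (0 : ℝ), ∀ b ∈ s, ∀ b' ∈ s', ∀ x ∈ K b, x ∈ K' b' →
      ‖(Dc b' x : E →L[ℝ] E) * Dc' b x‖ ≤ 1 / ρ := by
    rw [Filter.eventually_all_finset]
    intro b hb
    rw [Filter.eventually_all_finset]
    intro b' hb'
    have hX : IsCompact (K b ∩ K' b') := (hc.cpt b hb).inter (hc'.cpt b' hb')
    have hR : (1 : ℕ∞) ≤ 1 := le_rfl
    obtain ⟨C, hC⟩ := hX.exists_bound_of_continuousOn
      (f := fun y => fderiv ℝ (chG (Diffeomorph.refl 𝓘(ℝ, E) M (1 : ℕ∞)) b b') (chartAt E b y))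
      (fun x hx => (continuousAt_fderiv_chG (g := Diffeomorph.refl 𝓘(ℝ, E) M (1 : ℕ∞)) hR
        (hc.src b hb hx.1) (hc'.src b' hb' hx.2)).continuousWithinAt)
    have h2 : ∀ᶠ ρ in 𝓝[>] (0 : ℝ), ρ ∈ Iio (1 / (|C| + 1)) :=
      Filter.Eventually.filter_mono nhdsWithin_le_nhds (Iio_mem_nhds (by positivity))
    filter_upwards [h2, self_mem_nhdsWithin] with ρ hρ hρ0 x hx hgx
    have h3 : (Dc b' x : E →L[ℝ] E) * Dc' b x =
        fderiv ℝ (chG (Diffeomorph.refl 𝓘(ℝ, E) M (1 : ℕ∞)) b b') (chartAt E b x) := by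
      have h4 := fderiv_chG (G := (Diffeomorph.refl 𝓘(ℝ, E) M (1 : ℕ∞) : M → M)) (b := b)
        (b' := b') (x := x) (Dyn.mdiff (Diffeomorph.refl 𝓘(ℝ, E) M (1 : ℕ∞)) hR x)
        (hc.src b hb hx) (hc'.src b' hb' hgx)
      rw [h4]
      have h5 : (D (Diffeomorph.refl 𝓘(ℝ, E) M (1 : ℕ∞) : M → M) x : E →L[ℝ] E) = 1 := D_id x
      rw [h5, mul_one]
      rfl
    rw [h3]
    refine (hC x ⟨hx, hgx⟩).trans ?_
    have hρ0 : 0 < ρ := hρ0
    have hρ : ρ < 1 / (|C| + 1) := hρ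
    rw [lt_div_iff₀ (by positivity)] at hρ
    rw [le_div_iff₀ hρ0]
    have := le_abs_self C
    nlinarith
  obtain ⟨ρ, h2, hρ⟩ := (h1.and self_mem_nhdsWithin).exists
  exact ⟨max 1 (1 / ρ), le_max_left _ _, fun b hb b' hb' x hx hgx =>
    (h2 b hb b' hb' x hx hgx).trans (le_max_right _ _)⟩

/-- The notion `DHyp` does not depend on the family of charts. -/
theorem DHyp.change {s s' : Finset M} {K K' : M → Set M} {ρ₀ ρ₀' : ℝ} (hc : Cov E s K ρ₀)
    (hc' : Cov E s' K' ρ₀') {g : Dyn E M r} (hr : 1 ≤ r) {Λ : Set M} {κ : ℝ}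
    (h : DHyp s K g Λ κ) : ∃ κ', DHyp s' K' g Λ κ' := by
  obtain ⟨C, hC1, hC⟩ := exists_bound_change hc hc'
  obtain ⟨C', hC1', hC'⟩ := exists_bound_change hc' hc
  have hκ := h.1
  refine ⟨max C C' * κ * max C C', by positivity, fun x hx i' hi' => ?_⟩
  choose idx hidx1 hidx2 using hc.leb
  have hidx3 : ∀ y : M, y ∈ K (idx y) := fun y => hidx2 y (mem_closedBall_self hc.pos.le)
  set i : ℤ → M := fun n => idx (zi g.toEquiv n x) with hi
  have hD := h.2 x hx i (fun n => ⟨hidx1 _, hidx3 _⟩)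
  have hs : ∀ n, zi g.toEquiv n x ∈ (chartAt E (i n)).source := fun n =>
    hc.src _ (hidx1 _) (hidx3 _)
  have hs' : ∀ n, zi g.toEquiv n x ∈ (chartAt E (i' n)).source := fun n =>
    hc'.src _ (hi' n).1 (hi' n).2
  have hD2 := hD.conj hκ (L := fun n => (Dc (i' n) (zi g.toEquiv n x) : E →L[ℝ] E) *
      Dc' (i n) (zi g.toEquiv n x))
    (L' := fun n => (Dc (i n) (zi g.toEquiv n x) : E →L[ℝ] E) * Dc' (i' n) (zi g.toEquiv n x))
    (C := max C C') (fun n => ?_) (fun n => ?_)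
    (fun n => (hC _ (hidx1 _) _ (hi' n).1 _ (hidx3 _) (hi' n).2).trans (le_max_left _ _))
    (fun n => (hC' _ (hi' n).1 _ (hidx1 _) _ (hi' n).2 (hidx3 _)).trans (le_max_right _ _))
  · convert hD2 using 2 with n
    have hgx : g (zi g.toEquiv n x) = zi g.toEquiv (n + 1) x := (zi_succ_apply g n x).symm
    rw [fderiv_chG (Dyn.mdiff g hr _) (hs' n) (by rw [hgx]; exact hs' (n + 1)),
      fderiv_chG (Dyn.mdiff g hr _) (hs n) (by rw [hgx]; exact hs (n + 1)), hgx]
    have a1 := (Dc_mul (hs (n + 1))).2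
    have a2 := (Dc_mul (hs n)).2
    calc (Dc (i' (n + 1)) (zi g.toEquiv (n + 1) x) : E →L[ℝ] E) * D g (zi g.toEquiv n x) *
          Dc' (i' n) (zi g.toEquiv n x)
        = (Dc (i' (n + 1)) (zi g.toEquiv (n + 1) x) : E →L[ℝ] E) *
          ((Dc' (i (n + 1)) (zi g.toEquiv (n + 1) x) : E →L[ℝ] E) *
            Dc (i (n + 1)) (zi g.toEquiv (n + 1) x)) * D g (zi g.toEquiv n x) *
          ((Dc' (i n) (zi g.toEquiv n x) : E →L[ℝ] E) * Dc (i n) (zi g.toEquiv n x)) *
          Dc' (i' n) (zi g.toEquiv n x) := by rw [a1, a2, mul_one, mul_one]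
      _ = _ := by simp only [mul_assoc]
  · have a1 := (Dc_mul (hs n)).2
    have a2 := (Dc_mul (hs' n)).1
    calc _ = (Dc (i' n) (zi g.toEquiv n x) : E →L[ℝ] E) *
          ((Dc' (i n) (zi g.toEquiv n x) : E →L[ℝ] E) * Dc (i n) (zi g.toEquiv n x)) *
          Dc' (i' n) (zi g.toEquiv n x) := by simp only [mul_assoc]
      _ = 1 := by rw [a1, mul_one, a2]
  · have a1 := (Dc_mul (hs' n)).2
    have a2 := (Dc_mul (hs n)).1
    calc _ = (Dc (i n) (zi g.toEquiv n x) : E →L[ℝ] E) *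
          ((Dc' (i' n) (zi g.toEquiv n x) : E →L[ℝ] E) * Dc (i' n) (zi g.toEquiv n x)) *
          Dc' (i n) (zi g.toEquiv n x) := by simp only [mul_assoc]
      _ = 1 := by rw [a1, mul_one, a2]

end OmSt
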